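import Pool.Agent.H66.AI.Nerode

/-!
# Pumping one power in a product of powers
-/

namespace AddInv

section

variable {A : Type} {b : ℕ}

/-- The product of the powers `Z t ^ v t`. -/
def powers (Z : Fin b → List A) (v : Fin b → ℕ) : List A :=
  (List.finRange b).flatMap fun t => (List.replicate (v t) (Z t)).flatten

/-- The length of the product of powers. -/
def wt (Z : Fin b → List A) (v : Fin b → ℕ) : ℕ := ∑ t, v t * (Z t).length

lemma powers_pump (Z : Fin b → List A) (α c : Fin b → ℕ) (i : ℕ) :
    powers Z (fun t => α t + c t * i) =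
      pump (fun t => (List.replicate (α t) (Z t)).flatten)
        (fun t => (List.replicate (c t) (Z t)).flatten) i := by
  unfold powers pump
  apply List.flatMap_congr
  intro t _
  rw [replicate_split]

lemma size_powers (Z : Fin b → List A) (α : Fin b → ℕ) :
    size (fun t => (List.replicate (α t) (Z t)).flatten) = wt Z α := by
  unfold size wt
  apply Finset.sum_congr rfl
  intro t _
  rw [List.length_flatten]
  simp

lemma wt_add (Z : Fin b → List A) (α β : Fin b → ℕ) :
    wt Z (fun t => α t + β t) = wt Z α + wt Z β := by
  unfold wt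
  rw [← Finset.sum_add_distrib]
  apply Finset.sum_congr rfl
  intro t _
  ring

lemma wt_mul (Z : Fin b → List A) (k : ℕ) (α : Fin b → ℕ) :
    wt Z (fun t => k * α t) = k * wt Z α := by
  unfold wt
  rw [Finset.mul_sum]
  apply Finset.sum_congr rfl
  intro t _
  ring

lemma wt_le (Z : Fin b → List A) (α : Fin b → ℕ) (k : ℕ) (h : ∀ t, α t ≤ k) :
    wt Z α ≤ k * size Z := by
  unfold wt size
  rw [Finset.mul_sum]
  apply Finset.sum_le_sum
  intro t _
  exact Nat.mul_le_mul_right _ (h t)

lemma wt_mono (Z : Fin b → List A) (α β : Fin b → ℕ) (h : ∀ t, α t ≤ β t) :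
    wt Z α ≤ wt Z β := by
  unfold wt
  apply Finset.sum_le_sum
  intro t _
  exact Nat.mul_le_mul_right _ (h t)

/-- Adding `D` times a vector `c` of exponents. -/
lemma add_vector {L : Language A} {C D : ℕ}
    (hper : ∀ (b : ℕ) (x Z : Fin b → List A) (i : ℕ), C * (size x + size Z) ≤ i * size Z →
      (pump x Z i ∈ L ↔ pump x Z (i + D) ∈ L))
    (Z : Fin b → List A) (α c : Fin b → ℕ) (h : wt Z α ≤ wt Z c) :
    powers Z (fun t => α t + c t * (2 * C)) ∈ L ↔
      powers Z (fun t => α t + c t * (2 * C + D)) ∈ L := by
  rw [powers_pump, powers_pump]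
  apply hper
  rw [size_powers, size_powers]
  have : C * (wt Z α + wt Z c) ≤ C * (wt Z c + wt Z c) := Nat.mul_le_mul_left _ (by omega)
  calc C * (wt Z α + wt Z c) ≤ C * (wt Z c + wt Z c) := this
    _ = 2 * C * wt Z c := by ring

/-- Pumping a single exponent. -/
lemma single_exponent {L : Language A} {C D : ℕ} (hD : 0 < D)
    (hper : ∀ (b : ℕ) (x Z : Fin b → List A) (i : ℕ), C * (size x + size Z) ≤ i * size Z →
      (pump x Z i ∈ L ↔ pump x Z (i + D) ∈ L))
    (Z : Fin b → List A) (v : Fin b → ℕ) (s : Fin b)
    (h1 : (2 * C + D + 1) * (2 * C + D + 2 * C) * size Z ≤ wt Z v) (h2 : 2 * C ≤ v s) :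
    powers Z v ∈ L ↔ powers Z (fun t => if t = s then v t + D else v t) ∈ L := by
  set K := 2 * C + D with hK
  have hK0 : 0 < K := by omega
  -- the decomposition of the exponents
  let e : Fin b → ℕ := fun t => if t = s then 2 * C else 0
  have he : ∀ t, e t ≤ v t := by
    intro t
    by_cases h : t = s
    · subst h
      show (if t = t then 2 * C else 0) ≤ v t
      rw [if_pos rfl]; exact h2
    · show (if t = s then 2 * C else 0) ≤ v t
      rw [if_neg h]; exact Nat.zero_le _
  let c : Fin b → ℕ := fun t => (v t - e t) / K
  let ρ : Fin b → ℕ := fun t => (v t - e t) % K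
  have hv : ∀ t, v t = (ρ t + e t) + c t * K := by
    intro t
    have h3 := Nat.mod_add_div (v t - e t) K
    have h4 := he t
    have h5 : K * ((v t - e t) / K) = (v t - e t) / K * K := mul_comm _ _
    show v t = ((v t - e t) % K + e t) + (v t - e t) / K * K
    omega
  have hρ : ∀ t, ρ t ≤ K := fun t => (Nat.mod_lt _ hK0).le
  have heC : ∀ t, e t ≤ 2 * C := by
    intro t
    show (if t = s then 2 * C else 0) ≤ 2 * C
    split_ifs <;> omega
  -- the weight of the coefficient vector
  have hw1 : wt Z (fun t => ρ t + e t) ≤ (K + 2 * C) * size Z :=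
    wt_le Z _ _ fun t => Nat.add_le_add (hρ t) (heC t)
  have hw2 : wt Z v = wt Z (fun t => ρ t + e t) + K * wt Z c := by
    rw [← wt_mul, ← wt_add]
    congr 1
    funext t
    rw [hv t, mul_comm K]
  have hw3 : (K + 2 * C) * size Z ≤ wt Z c := by
    have h3 : (K + 1) * (K + 2 * C) * size Z =
        K * ((K + 2 * C) * size Z) + (K + 2 * C) * size Z := by ring
    have h4 : K * ((K + 2 * C) * size Z) ≤ K * wt Z c := by omega
    exact Nat.le_of_mul_le_mul_left h4 hK0
  -- the two steps
  have s1 := add_vector hper Z (fun t => ρ t + e t) c (le_trans hw1 hw3)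
  let c' : Fin b → ℕ := fun t => if t = s then c t + 1 else c t
  have hcc : wt Z c ≤ wt Z c' := by
    apply wt_mono
    intro t
    show c t ≤ if t = s then c t + 1 else c t
    split_ifs <;> omega
  have hρw : wt Z ρ ≤ wt Z c' := by
    refine le_trans (wt_mono Z ρ (fun t => ρ t + e t) fun t => Nat.le_add_right _ _) ?_
    exact le_trans hw1 (le_trans hw3 hcc)
  have s2 := add_vector hper Z ρ c' hρw
  have e1 : (fun t => ρ t + c' t * (2 * C)) = fun t => (ρ t + e t) + c t * (2 * C) := by
    funext t
    show ρ t + (if t = s then c t + 1 else c t) * (2 * C) =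
      ρ t + (if t = s then 2 * C else 0) + c t * (2 * C)
    split_ifs <;> ring
  have e2 : (fun t => ρ t + c' t * (2 * C + D)) = fun t => if t = s then v t + D else v t := by
    funext t
    rw [hv t]
    show ρ t + (if t = s then c t + 1 else c t) * (2 * C + D) =
      if t = s then (ρ t + (if t = s then 2 * C else 0)) + c t * K + D
        else (ρ t + (if t = s then 2 * C else 0)) + c t * K
    rw [hK]
    split_ifs <;> ring
  have e3 : (fun t => (ρ t + e t) + c t * (2 * C + D)) = v := by
    funext t
    rw [hv t]
  rw [e1, e2] at s2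
  rw [e3] at s1
  exact s1.symm.trans s2

lemma expand_eq_powers (l : List (List A × ℕ)) :
    expand l = powers (fun t : Fin l.length => (l[t]).1) fun t => (l[t]).2 := by
  unfold expand powers
  have h : l = (List.finRange l.length).map fun t => l[t] := by
    conv_lhs => rw [← List.map_get_finRange l]
    rfl
  conv_lhs => rw [h]
  rw [List.flatMap_map]

lemma cost_eq_size (l : List (List A × ℕ)) :
    cost l = size fun t : Fin l.length => (l[t]).1 := by
  unfold cost size
  rw [← Fin.sum_univ_fun_getElem]
  rfl

lemma length_pow (Z : List A) (v : ℕ) : (List.replicate v Z).flatten.length = v * Z.length := by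
  rw [List.length_flatten]
  simp

lemma wt_eq_length (Z : Fin b → List A) (v : Fin b → ℕ) : (powers Z v).length = wt Z v := by
  unfold powers wt
  rw [List.length_flatMap]
  simp only [length_pow]
  rw [← List.sum_ofFn, List.ofFn_eq_map]

lemma expand_append (l l' : List (List A × ℕ)) : expand (l ++ l') = expand l ++ expand l' := by
  unfold expand
  rw [List.flatMap_append]

lemma expand_cons (p : List A × ℕ) (l : List (List A × ℕ)) :
    expand (p :: l) = (List.replicate p.2 p.1).flatten ++ expand l := by
  unfold expand
  rw [List.flatMap_cons]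

lemma expand_mid (l₁ l₂ : List (List A × ℕ)) (Z : List A) (v : ℕ) :
    expand (l₁ ++ (Z, v) :: l₂) =
      expand l₁ ++ (List.replicate v Z).flatten ++ expand l₂ := by
  rw [expand_append, expand_cons, List.append_assoc]

/-- **Pumping a single power in a product of powers.** -/
theorem list_pumping {f : Fml A 0} (hf : AddInvariant f) : ∃ C D : ℕ, 0 < D ∧
    ∀ (l₁ l₂ : List (List A × ℕ)) (Z : List A) (v : ℕ),
      C * (cost l₁ + Z.length + cost l₂) ≤
        (expand l₁).length + v * Z.length + (expand l₂).length → C ≤ v →
      (expand l₁ ++ (List.replicate v Z).flatten ++ expand l₂ ∈ langOf f ↔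
        expand l₁ ++ (List.replicate (v + D) Z).flatten ++ expand l₂ ∈ langOf f) := by
  obtain ⟨C, D, hD, hper⟩ := linear_pumping hf
  refine ⟨(2 * C + D + 1) * (2 * C + D + 2 * C), D, hD, ?_⟩
  intro l₁ l₂ Z v h1 h2
  set l := l₁ ++ (Z, v) :: l₂ with hl
  have hs : l₁.length < l.length := by
    rw [hl, List.length_append, List.length_cons]; omega
  have hmid : l[l₁.length] = (Z, v) := by
    simp [hl]
  have e0 : expand l₁ ++ (List.replicate v Z).flatten ++ expand l₂ = expand l := by
    rw [hl, expand_mid]
  have e1 := expand_eq_powers l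
  have e2 : expand l₁ ++ (List.replicate (v + D) Z).flatten ++ expand l₂ =
      powers (fun t : Fin l.length => (l[t]).1)
        (fun t => if t = ⟨l₁.length, hs⟩ then (l[t]).2 + D else (l[t]).2) := by
    rw [← expand_mid]
    have h3 : l₁ ++ (Z, v + D) :: l₂ = (List.finRange l.length).map fun t : Fin l.length =>
        ((l[t]).1, if t = ⟨l₁.length, hs⟩ then (l[t]).2 + D else (l[t]).2) := by
      apply List.ext_getElem
      · rw [List.length_map, List.length_finRange, hl]
        simp
      · intro i hi1 hi2
        rw [List.getElem_map, List.getElem_finRange]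
        simp only [Fin.getElem_fin, Fin.val_cast, Fin.ext_iff]
        rcases lt_trichotomy i l₁.length with h4 | h4 | h4
        · have h5 : l[i]'(by omega) = l₁[i] := by
            simp only [hl]
            exact List.getElem_append_left h4
          rw [if_neg (by omega), List.getElem_append_left h4, h5]
        · subst h4
          rw [if_pos rfl, hmid]
          simp
        · have h5 : l[i]'(by
              rw [List.length_append, List.length_cons] at hi1
              rw [hl, List.length_append, List.length_cons]; exact hi1) =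
              (l₁ ++ (Z, v + D) :: l₂)[i] := by
            simp only [hl]
            rw [List.getElem_append_right (by omega), List.getElem_append_right (by omega)]
            obtain ⟨j, hj⟩ : ∃ j, i - l₁.length = j + 1 := ⟨i - l₁.length - 1, by omega⟩
            simp only [hj, List.getElem_cons_succ]
          rw [if_neg (by omega), h5]
    rw [h3]
    unfold expand powers
    rw [List.flatMap_map]
  rw [e0, e1, e2]
  apply single_exponent hD hper
  · rw [← cost_eq_size, ← wt_eq_length, ← e1, ← e0]
    have h3 : cost l = cost l₁ + Z.length + cost l₂ := by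
      rw [hl]
      unfold cost
      rw [List.map_append, List.map_cons, List.sum_append, List.sum_cons]
      exact (Nat.add_assoc _ _ _).symm
    rw [h3]
    refine le_trans h1 ?_
    rw [List.length_append, List.length_append, length_pow]
  · show 2 * C ≤ (l[l₁.length]).2
    rw [hmid]
    refine le_trans ?_ h2
    show 2 * C ≤ _
    have : 1 ≤ 2 * C + D + 1 := by omega
    nlinarith

end

end AddInv
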