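import Pool.Agent.H66.AI.Defs

/-!
# Products of powers, and pumping several factors at once
-/

namespace AddInv

/-- The product `Z_1^{v_1} Z_2^{v_2} ... Z_k^{v_k}` of powers described by the list
`[(Z_1, v_1), ..., (Z_k, v_k)]`. -/
def expand {A : Type} (l : List (List A × ℕ)) : List A :=
  l.flatMap fun p => (List.replicate p.2 p.1).flatten

/-- The total length `|Z_1| + ... + |Z_k|` of the bases of the powers in the list. -/
def cost {A : Type} (l : List (List A × ℕ)) : ℕ := (l.map fun p => p.1.length).sum

/-- The word `x_0 Z_0^i x_1 Z_1^i ... x_(b-1) Z_(b-1)^i`. -/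
def pump {A : Type} {b : ℕ} (x Z : Fin b → List A) (i : ℕ) : List A :=
  (List.finRange b).flatMap fun t => x t ++ (List.replicate i (Z t)).flatten

/-- The total length of a tuple of words. -/
def size {A : Type} {b : ℕ} (x : Fin b → List A) : ℕ := ∑ t, (x t).length

/-- The word `x_0 x_1 ... x_(b-1)` in which every letter carries the index of its factor. -/
def flg {A : Type} {b : ℕ} (x : Fin b → List A) : List (A × Fin b) :=
  (List.finRange b).flatMap fun t => (x t).map fun a => (a, t)

end AddInv
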