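import Pool.Agent.H66.AI.Main
import Pool.Agent.H66.AI.PumpDefs

/-!
# Regular languages through finite invariants
-/

namespace AddInv

/-- A language with a finite invariant that determines its left quotients is regular. -/
lemma isRegular_of_invariant {B γ : Type} [Finite γ] (L : Language B) (I : List B → γ)
    (h : ∀ u v : List B, I u = I v → ∀ z, (u ++ z ∈ L ↔ v ++ z ∈ L)) : L.IsRegular := by
  rw [Language.isRegular_iff_finite_range_leftQuotient]
  have h1 := finite_image (Set.univ : Set (List B)) L.leftQuotient I (by
    intro u _ v _ huv
    ext z
    rw [Language.mem_leftQuotient, Language.mem_leftQuotient]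
    exact h u v huv z)
  rwa [Set.image_univ] at h1

/-- The image of a language under a map that sends letters to letters or erases them. -/
def img {A B : Type} (g : B → Option A) (K : Language B) : Language A :=
  {w | ∃ u ∈ K, u.filterMap g = w}

/-- The image of a regular language under such a map is regular. -/
lemma isRegular_image {A B : Type} (g : B → Option A) (K : Language B) (hK : K.IsRegular) :
    (img g K).IsRegular := by
  have hfin : Finite (Set.range K.leftQuotient) :=
    (Language.isRegular_iff_finite_range_leftQuotient.1 hK).to_subtype
  let I : List A → Set (Set.range K.leftQuotient) := fun w =>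
    {X | ∃ u, u.filterMap g = w ∧ K.leftQuotient u = X.1}
  have key : ∀ w z : List A, (w ++ z ∈ img g K) ↔
      ∃ X ∈ I w, ∃ u₂ : List B, u₂.filterMap g = z ∧ u₂ ∈ X.1 := by
    intro w z
    constructor
    · rintro ⟨u, hu, he⟩
      obtain ⟨u₁, u₂, rfl, h1, h2⟩ := List.filterMap_eq_append_iff.1 he
      refine ⟨⟨K.leftQuotient u₁, u₁, rfl⟩, ⟨u₁, h1, rfl⟩, u₂, h2, ?_⟩
      rw [Language.mem_leftQuotient]
      exact hu
    · rintro ⟨X, ⟨u₁, h1, hX⟩, u₂, h2, h3⟩
      refine ⟨u₁ ++ u₂, ?_, by rw [List.filterMap_append, h1, h2]⟩
      rw [← hX, Language.mem_leftQuotient] at h3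
      exact h3
  apply isRegular_of_invariant _ I
  intro u v huv z
  rw [key, key, huv]

/-- The preimage of a language under a map of letters. -/
def pre {A B : Type} (g : B → A) (K : Language A) : Language B := {u | u.map g ∈ K}

/-- The preimage of a regular language is regular. -/
lemma isRegular_preimage {A B : Type} (g : B → A) (K : Language A) (hK : K.IsRegular) :
    (pre g K).IsRegular := by
  have hfin : Finite (Set.range K.leftQuotient) :=
    (Language.isRegular_iff_finite_range_leftQuotient.1 hK).to_subtype
  let I : List B → Set.range K.leftQuotient := fun u => ⟨K.leftQuotient (u.map g), _, rfl⟩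
  apply isRegular_of_invariant _ I
  have key : ∀ u z : List B, (u ++ z ∈ pre g K) ↔ z.map g ∈ (I u).1 := by
    intro u z
    show (u ++ z).map g ∈ K ↔ z.map g ∈ K.leftQuotient (u.map g)
    rw [Language.mem_leftQuotient, List.map_append]
  intro u v huv z
  rw [key, key, huv]

/-- Languages with one word are regular. -/
lemma isRegular_singleton {A : Type} (w : List A) :
    Language.IsRegular ({w} : Set (List A)) := by
  classical
  let I : List A → Option (Fin (w.length + 1)) := fun u =>
    if h : u.length ≤ w.length ∧ u <+: w then some ⟨u.length, by omega⟩ else none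
  apply isRegular_of_invariant ({w} : Set (List A)) I
  intro u v huv z
  show u ++ z = w ↔ v ++ z = w
  have key : ∀ u : List A, u ++ z = w → u.length ≤ w.length ∧ u <+: w := by
    intro u h
    refine ⟨?_, z, h⟩
    rw [← h, List.length_append]
    omega
  have main : ∀ u v : List A, I u = I v → u ++ z = w → v ++ z = w := by
    intro u v huv h
    have h1 := key u h
    have h2 : I u = some ⟨u.length, by omega⟩ := dif_pos h1
    rw [huv] at h2
    by_cases h3 : v.length ≤ w.length ∧ v <+: w
    · have h4 : I v = some ⟨v.length, by omega⟩ := dif_pos h3
      rw [h4] at h2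
      have h5 : v.length = u.length := congrArg Fin.val (Option.some.inj h2)
      have h6 : v = u := (List.prefix_of_prefix_length_le h3.2 h1.2 (by omega)).eq_of_length h5
      rw [h6]; exact h
    · have h4 : I v = none := dif_neg h3
      rw [h4] at h2
      exact absurd h2 (by simp)
  exact ⟨main u v huv, main v u huv.symm⟩

section

variable {A : Type} {b : ℕ}

/-- The letters with flag `t`. -/
def proj (t : Fin b) (l : List (A × Fin b)) : List A :=
  l.filterMap fun z => if z.2 = t then some z.1 else none

lemma proj_append (t : Fin b) (l l' : List (A × Fin b)) :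
    proj t (l ++ l') = proj t l ++ proj t l' := List.filterMap_append

lemma proj_flatMap {α : Type} (t : Fin b) (L : List α) (g : α → List (A × Fin b)) :
    proj t (L.flatMap g) = L.flatMap fun x => proj t (g x) := by
  unfold proj
  rw [List.filterMap_flatMap]

lemma proj_replicate (t : Fin b) (l : List (A × Fin b)) (i : ℕ) :
    proj t (List.replicate i l).flatten = (List.replicate i (proj t l)).flatten := by
  induction i with
  | zero => rfl
  | succ i ih => rw [List.replicate_succ, List.flatten_cons, proj_append, ih,
      List.replicate_succ, List.flatten_cons]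

lemma flatMap_single {β : Type} (t : Fin b) (y : List β) : ∀ l : List (Fin b), l.Nodup →
    t ∈ l → l.flatMap (fun t' => if t' = t then y else []) = y := by
  intro l
  induction l with
  | nil => intro _ h; exact absurd h (by simp)
  | cons a l ih =>
    intro hnd hm
    rw [List.nodup_cons] at hnd
    rw [List.flatMap_cons]
    by_cases ha : a = t
    · subst ha
      rw [if_pos rfl]
      have h1 : l.flatMap (fun t' => if t' = a then y else []) = [] := by
        rw [List.flatMap_eq_nil_iff]
        intro x hx
        rw [if_neg]
        rintro rfl
        exact hnd.1 hx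
      rw [h1, List.append_nil]
    · rw [if_neg ha, List.nil_append]
      exact ih hnd.2 (by
        rcases List.mem_cons.1 hm with h | h
        · exact absurd h.symm ha
        · exact h)

lemma proj_flg (x : Fin b → List A) (t : Fin b) : proj t (flg x) = x t := by
  unfold flg
  rw [proj_flatMap]
  have h1 : (fun t' : Fin b => proj t ((x t').map fun a => (a, t'))) =
      fun t' => if t' = t then x t else [] := by
    funext t'
    unfold proj
    rw [List.filterMap_map]
    by_cases h : t' = t
    · subst h
      simp
    · simp [h]
  rw [h1]
  exact flatMap_single t (x t) _ (List.nodup_finRange b) (List.mem_finRange t)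

/-- Flags in increasing order. -/
def Srt (u : List (A × Fin b)) : Prop := u.Pairwise fun p p' => p.2 ≤ p'.2

lemma srt_flg (x : Fin b → List A) : Srt (flg x) := by
  unfold Srt flg
  rw [List.pairwise_flatMap]
  constructor
  · intro t _
    rw [List.pairwise_map]
    rw [List.pairwise_iff_getElem]
    intro i j _ _ _
    exact le_rfl
  · have h : (List.finRange b).Pairwise (· < ·) := List.pairwise_lt_finRange b
    refine h.imp ?_
    intro t t' htt p hp p' hp'
    rw [List.mem_map] at hp hp'
    obtain ⟨_, _, rfl⟩ := hp
    obtain ⟨_, _, rfl⟩ := hp'
    exact htt.le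

lemma flatMap_filter : ∀ (fs : List (Fin b)) (l : List (A × Fin b)), fs.Pairwise (· < ·) →
    Srt l → (∀ p ∈ l, p.2 ∈ fs) → fs.flatMap (fun t => l.filter fun p => p.2 = t) = l := by
  intro fs
  induction fs with
  | nil =>
    intro l _ _ h
    rcases l with _ | ⟨p, l⟩
    · rfl
    · exact absurd (h p (by simp)) (by simp)
  | cons t fs ih =>
    intro l hfs hl hm
    rw [List.pairwise_cons] at hfs
    have hsplit : ∀ l : List (A × Fin b), Srt l → (∀ p ∈ l, p.2 ∈ t :: fs) →
        l = (l.filter fun p => p.2 = t) ++ l.filter fun p => p.2 ≠ t := by
      intro l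
      induction l with
      | nil => intro _ _; rfl
      | cons p l ih2 =>
        intro hl hm
        unfold Srt at hl
        rw [List.pairwise_cons] at hl
        by_cases hp : p.2 = t
        · rw [List.filter_cons_of_pos (by simpa using hp),
            List.filter_cons_of_neg (by simpa using hp), List.cons_append]
          congr 1
          exact ih2 hl.2 (fun q hq => hm q (List.mem_cons_of_mem _ hq))
        · have hp1 : p.2 ∈ fs := by
            rcases List.mem_cons.1 (hm p (by simp)) with h | h
            · exact absurd h hp
            · exact h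
          have hlt := hfs.1 _ hp1
          have hall : ∀ q ∈ p :: l, q.2 ≠ t := by
            intro q hq
            rcases List.mem_cons.1 hq with h | h
            · rw [h]; exact hp
            · exact (lt_of_lt_of_le hlt (hl.1 q h)).ne'
          have h1 : ((p :: l).filter fun p => p.2 = t) = [] := by
            rw [List.filter_eq_nil_iff]
            intro q hq
            simpa using hall q hq
          have h2 : ((p :: l).filter fun p => p.2 ≠ t) = p :: l := by
            rw [List.filter_eq_self]
            intro q hq
            simpa using hall q hq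
          rw [h1, h2, List.nil_append]
    rw [List.flatMap_cons]
    conv_rhs => rw [hsplit l hl hm]
    congr 1
    have h3 := ih (l.filter fun p => p.2 ≠ t) hfs.2 (List.Pairwise.filter _ hl) (by
      intro p hp
      rw [List.mem_filter] at hp
      rcases List.mem_cons.1 (hm p hp.1) with h | h
      · exact absurd h (by simpa using hp.2)
      · exact h)
    rw [← h3]
    apply List.flatMap_congr
    intro t' ht'
    rw [List.filter_filter]
    apply List.filter_congr
    intro p _
    have hne : t' ≠ t := (hfs.1 t' ht').ne'
    by_cases hpt : p.2 = t'
    · rw [hpt]; simp [hne]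
    · simp [hpt]

lemma eq_flg_of_srt (u : List (A × Fin b)) (h : Srt u) : u = flg fun t => proj t u := by
  have h1 := flatMap_filter (List.finRange b) u (List.pairwise_lt_finRange b) h
    (fun p _ => List.mem_finRange _)
  conv_lhs => rw [← h1]
  unfold flg
  apply List.flatMap_congr
  intro t _
  show (u.filter fun p => p.2 = t) = (u.filterMap fun z => if z.2 = t then some z.1 else none).map
    fun a => (a, t)
  clear h1 h
  induction u with
  | nil => rfl
  | cons p u ih =>
    by_cases hp : p.2 = t
    · rw [List.filter_cons_of_pos (by simpa using hp),
        List.filterMap_cons_some (b := p.1) (by simp [hp]), List.map_cons, ih]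
      congr 1
      exact Prod.ext rfl hp
    · rw [List.filter_cons_of_neg (by simpa using hp), ih,
        List.filterMap_cons_none (by simp [hp])]

/-- The flagged words with all factors in prescribed regular languages. -/
def FR (R : Fin b → Language A) : Language (A × Fin b) :=
  {u | Srt u ∧ ∀ t, proj t u ∈ R t}

lemma regular_FR (R : Fin b → Language A) (hR : ∀ t, (R t).IsRegular) :
    (FR R).IsRegular := by
  have hfin : ∀ t, Finite (Set.range (R t).leftQuotient) := fun t =>
    (Language.isRegular_iff_finite_range_leftQuotient.1 (hR t)).to_subtype
  let I : List (A × Fin b) → Prop × Set (Fin b) × (∀ t, Set.range (R t).leftQuotient) :=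
    fun u => (Srt u, {t | ∃ p ∈ u, p.2 = t}, fun t => ⟨(R t).leftQuotient (proj t u),
      proj t u, rfl⟩)
  apply isRegular_of_invariant _ I
  have key : ∀ u z : List (A × Fin b), (u ++ z ∈ FR R) ↔
      ((I u).1 ∧ Srt z ∧ ∀ t ∈ (I u).2.1, ∀ p' ∈ z, t ≤ p'.2) ∧
        ∀ t, proj t z ∈ ((I u).2.2 t).1 := by
    intro u z
    show (Srt (u ++ z) ∧ ∀ t, proj t (u ++ z) ∈ R t) ↔ _
    unfold Srt
    rw [List.pairwise_append]
    refine and_congr (and_congr Iff.rfl (and_congr Iff.rfl ?_)) ?_
    · constructor
      · rintro h t ⟨p, hp, rfl⟩ p' hp'
        exact h p hp p' hp'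
      · intro h p hp p' hp'
        exact h p.2 ⟨p, hp, rfl⟩ p' hp'
    · refine forall_congr' fun t => ?_
      show _ ↔ proj t z ∈ (R t).leftQuotient (proj t u)
      rw [Language.mem_leftQuotient, proj_append]
  intro u v huv z
  rw [key, key, huv]

end

end AddInv
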