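import Pool.Agent.H66.AI.Lists
import Pool.Agent.H66.AI.Reg
import Pool.Agent.H66.AI.PumpDefs

/-!
# Words realised by coloured blocks
-/

namespace AddInv

section

variable {A : Type} {b : ℕ}

/-- Keys: factor `t` has key `2 t`, the repeated block after it key `2 t + 1`. -/
def keyF (z : (A × Fin b) × Bool) : ℕ := 2 * (z.1.2 : ℕ) + z.2.toNat

/-- The letter of a label. -/
def letF (z : (A × Fin b) × Bool) : A := z.1.1

lemma keyF_lt (z : (A × Fin b) × Bool) : keyF z < 2 * b := by
  unfold keyF
  have h1 := z.1.2.2
  have h2 := Bool.toNat_le z.2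
  omega

lemma keyF_eq (z : (A × Fin b) × Bool) (t : Fin b) (c : Bool) :
    keyF z = 2 * (t : ℕ) + c.toNat ↔ z.2 = c ∧ z.1.2 = t := by
  unfold keyF
  have h2 := Bool.toNat_le z.2
  have h3 := Bool.toNat_le c
  constructor
  · intro h
    have h4 : (z.1.2 : ℕ) = t := by omega
    have h5 : z.2.toNat = c.toNat := by omega
    refine ⟨?_, Fin.ext h4⟩
    cases hz : z.2 <;> cases hc : c <;> simp [hz, hc] at h5 ⊢
  · rintro ⟨h, h'⟩
    rw [h, h']

lemma filterMap_key (l : List ((A × Fin b) × Bool)) (t : Fin b) (c : Bool) :
    (l.filterMap fun z => if keyF z = 2 * (t : ℕ) + c.toNat then some (letF z) else none) =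
      proj t (sel c l) := by
  unfold proj sel
  rw [List.filterMap_filterMap]
  apply List.filterMap_congr
  intro z _
  by_cases h1 : z.2 = c
  · by_cases h2 : z.1.2 = t
    · rw [if_pos ((keyF_eq z t c).2 ⟨h1, h2⟩), if_pos h1]
      simp [h2, letF]
    · rw [if_neg (fun h => h2 ((keyF_eq z t c).1 h).2), if_pos h1]
      simp [h2]
  · rw [if_neg (fun h => h1 ((keyF_eq z t c).1 h).1), if_neg h1]
    rfl

lemma range_two_mul {β : Type} (F : ℕ → List β) (b : ℕ) :
    (List.range (2 * b)).flatMap F =
      (List.finRange b).flatMap fun t : Fin b => F (2 * (t : ℕ)) ++ F (2 * (t : ℕ) + 1) := by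
  have h1 : (List.finRange b).flatMap (fun t : Fin b => F (2 * (t : ℕ)) ++ F (2 * (t : ℕ) + 1)) =
      (List.range b).flatMap (fun t => F (2 * t) ++ F (2 * t + 1)) := by
    rw [← List.map_coe_finRange_eq_range, List.flatMap_map]
  rw [h1]
  clear h1
  induction b with
  | zero => rfl
  | succ b ih =>
    rw [Nat.mul_succ, List.range_succ, List.range_succ, List.range_succ, List.flatMap_append,
      List.flatMap_append, List.flatMap_append, ih]
    simp

variable (zs : List (A × Fin b)) (hP : 0 < zs.length)

/-- The word with factors given by the flagged word `u` and `i` repetitions. -/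
def fill (u : List (A × Fin b)) (i : ℕ) : List A :=
  (List.finRange b).flatMap fun t => proj t u ++ (List.replicate i (proj t zs)).flatten

omit hP in
lemma fill_flg (x Z : Fin b → List A) (i : ℕ) : fill (flg Z) (flg x) i = pump x Z i := by
  unfold fill pump
  apply List.flatMap_congr
  intro t _
  rw [proj_flg, proj_flg]

/-- The words realised by coloured blocks. -/
lemma mem_iff_block {f : Fml A 0} (hf : AddInvariant f) (N : ℕ) (hN : 0 < N)
    (col : ℕ → Option (Cell (A × Fin b) zs.length)) (rem : List (A × Fin b))
    (hrem : rem.length < zs.length)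
    (hcol : ∀ x < N, ∀ g, col x = some g → ∀ j, (g j).isSome) :
    fill zs (spell zs.length N col rem) (blanks zs.length N col) ∈ langOf f ↔
      fill zs (spell zs.length N col rem) (blanks zs.length N col) ≠ [] ∧
      SatM (strOf zs hP keyF letF N col rem) f Fin.elim0 := by
  set S := strOf zs hP (keyF (A := A) (b := b)) letF N col rem with hS
  have hsome : ∀ m < S.n, (lab zs hP N col rem m).isSome :=
    fun m hm => lab_isSome zs hP N hN col rem hrem hcol m hm
  have hkey : ∀ m < S.n, S.key m < 2 * b := by
    intro m hm
    obtain ⟨z, hz⟩ := Option.isSome_iff_exists.1 (hsome m hm)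
    show (lab zs hP N col rem m).elim 0 keyF < 2 * b
    rw [hz]
    exact keyF_lt z
  have hltr : ∀ m < S.n, (S.ltr m).isSome := by
    intro m hm
    show ((lab zs hP N col rem m).map letF).isSome
    rw [Option.isSome_map]
    exact hsome m hm
  have hw := byKey_map S.n (2 * b) S.key S.ltr hltr
  have hword : ((List.range (2 * b)).flatMap fun κ => (List.range S.n).filterMap
      fun m => if S.key m = κ then S.ltr m else none) =
      fill zs (spell zs.length N col rem) (blanks zs.length N col) := by
    have h1 : ∀ κ, ((List.range S.n).filterMap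
        fun m => if S.key m = κ then S.ltr m else none) =
        (labels zs hP N col rem).filterMap
          fun z => if keyF z = κ then some (letF z) else none := by
      intro κ
      unfold labels
      rw [List.filterMap_filterMap]
      apply List.filterMap_congr
      intro m _
      show (if (lab zs hP N col rem m).elim 0 keyF = κ then
          (lab zs hP N col rem m).map letF else none) = _
      cases lab zs hP N col rem m with
      | none => simp
      | some z => simp
    simp only [h1]
    rw [range_two_mul]
    unfold fill
    congr 1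
    funext t
    have h2 := filterMap_key (labels zs hP N col rem) t false
    have h3 := filterMap_key (labels zs hP N col rem) t true
    simp only [Bool.toNat_false, Bool.toNat_true, add_zero] at h2 h3
    rw [h2, h3, sel_false_labels zs hP N hN _ _ hrem, sel_true_labels zs hP N hN _ _ hrem,
      proj_replicate]
  rw [hword] at hw
  exact mem_iff_satM hf S _ _ (byKey_perm S.n (2 * b) S.key hkey)
    (byKey_pairwise S.n (2 * b) S.key) hw

end

end AddInv
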