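import Pool.Agent.H66.AI.Types

/-!
# Rank-q types with a restricted range of quantification
-/

namespace AddInv

/-- The rank `q` type of a tuple, quantifiers ranging over `dom`. -/
def tpd {C : ℕ → Type} {D : Type} (dom : Set D) (code : ∀ k, (Fin k → D) → C k) :
    ∀ q k, (Fin k → D) → Ty C q k
  | 0, k, x => code k x
  | q + 1, k, x => (tpd dom code q k x,
      {t | ∃ y ∈ dom, tpd dom code q (k + 1) (Fin.snoc x y) = t})

variable {C : ℕ → Type} {D D' : Type} {dom : Set D} {dom' : Set D'}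
  {code : ∀ k, (Fin k → D) → C k} {code' : ∀ k, (Fin k → D') → C k}

lemma code_eq_of_tpd : ∀ {q k : ℕ} {x : Fin k → D} {x' : Fin k → D'},
    tpd dom code q k x = tpd dom' code' q k x' → code k x = code' k x'
  | 0, _, _, _, h => h
  | _ + 1, _, _, _, h => code_eq_of_tpd (congrArg Prod.fst h)

lemma tpd_forth {q k : ℕ} {x : Fin k → D} {x' : Fin k → D'}
    (h : tpd dom code (q + 1) k x = tpd dom' code' (q + 1) k x') (y : D) (hy : y ∈ dom) :
    ∃ y' ∈ dom', tpd dom code q (k + 1) (Fin.snoc x y) =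
      tpd dom' code' q (k + 1) (Fin.snoc x' y') := by
  have h2 : {t | ∃ y ∈ dom, tpd dom code q (k + 1) (Fin.snoc x y) = t} =
      {t | ∃ y' ∈ dom', tpd dom' code' q (k + 1) (Fin.snoc x' y') = t} := congrArg Prod.snd h
  have h3 : tpd dom code q (k + 1) (Fin.snoc x y) ∈
      {t | ∃ y' ∈ dom', tpd dom' code' q (k + 1) (Fin.snoc x' y') = t} := by
    rw [← h2]; exact ⟨y, hy, rfl⟩
  obtain ⟨y', hy', he⟩ := h3
  exact ⟨y', hy', he.symm⟩

lemma tpd_fst {q k : ℕ} {x : Fin k → D} {x' : Fin k → D'}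
    (h : tpd dom code (q + 1) k x = tpd dom' code' (q + 1) k x') :
    tpd dom code q k x = tpd dom' code' q k x' := congrArg Prod.fst h

lemma tpd_succ_eq {q k : ℕ} {x : Fin k → D} {x' : Fin k → D'}
    (h0 : tpd dom code q k x = tpd dom' code' q k x')
    (h1 : ∀ y ∈ dom, ∃ y' ∈ dom', tpd dom code q (k + 1) (Fin.snoc x y) =
      tpd dom' code' q (k + 1) (Fin.snoc x' y'))
    (h2 : ∀ y' ∈ dom', ∃ y ∈ dom, tpd dom code q (k + 1) (Fin.snoc x y) =
      tpd dom' code' q (k + 1) (Fin.snoc x' y')) :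
    tpd dom code (q + 1) k x = tpd dom' code' (q + 1) k x' := by
  show (_, _) = (_, _)
  refine Prod.ext h0 ?_
  show {t | ∃ y ∈ dom, tpd dom code q (k + 1) (Fin.snoc x y) = t} =
      {t | ∃ y' ∈ dom', tpd dom' code' q (k + 1) (Fin.snoc x' y') = t}
  ext t
  constructor
  · rintro ⟨y, hy, rfl⟩
    obtain ⟨y', hy', he⟩ := h1 y hy
    exact ⟨y', hy', he.symm⟩
  · rintro ⟨y', hy', rfl⟩
    obtain ⟨y, hy, he⟩ := h2 y' hy'
    exact ⟨y, hy, he⟩

end AddInv
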