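import Mathlib

/-!
# Addition-invariant first-order logic on words: definitions
-/

namespace AddInv

/-- First-order formulas over the vocabulary `<`, `P_a` for `a` in `A`, `+`, with free variables
indexed by `Fin n`. The quantifier `all` binds the last variable. -/
inductive Fml (A : Type) : ℕ → Type
  | falsum {n : ℕ} : Fml A n
  | eq {n : ℕ} (i j : Fin n) : Fml A n
  | lt {n : ℕ} (i j : Fin n) : Fml A n
  | letter {n : ℕ} (a : A) (i : Fin n) : Fml A n
  | add {n : ℕ} (i j k : Fin n) : Fml A n
  | imp {n : ℕ} (f g : Fml A n) : Fml A n
  | all {n : ℕ} (f : Fml A (n + 1)) : Fml A n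

/-- Truth of a formula in `(w, +_π)`: variables denote positions of `w`, `lt` is the order of
positions, `letter a` holds at the positions that carry `a`, and `add i j k` says
`π(x_i) + π(x_j) = π(x_k)`, where the position `p` is given the number `π p + 1`, which runs
through `1, ..., n` (the underlying permutation of `Fin n` runs through `0, ..., n - 1`). -/
def Sat {A : Type} (w : List A) (π : Equiv.Perm (Fin w.length)) :
    {n : ℕ} → Fml A n → (Fin n → Fin w.length) → Prop
  | _, .falsum, _ => False
  | _, .eq i j, x => x i = x j
  | _, .lt i j, x => x i < x j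
  | _, .letter a i, x => w.get (x i) = a
  | _, .add i j k, x => ((π (x i) : ℕ) + 1) + ((π (x j) : ℕ) + 1) = (π (x k) : ℕ) + 1
  | _, .imp f g, x => Sat w π f x → Sat w π g x
  | _, .all f, x => ∀ p : Fin w.length, Sat w π f (Fin.snoc x p)

/-- The sentence `f` is addition-invariant: on every nonempty word its truth does not depend on
the numbering. -/
def AddInvariant {A : Type} (f : Fml A 0) : Prop :=
  ∀ w : List A, w ≠ [] → ∀ π₁ π₂ : Equiv.Perm (Fin w.length),
    (Sat w π₁ f Fin.elim0 ↔ Sat w π₂ f Fin.elim0)

/-- The language of the nonempty words on which `f` holds for some numbering. -/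
def langOf {A : Type} (f : Fml A 0) : Language A :=
  {w | w ≠ [] ∧ ∃ π : Equiv.Perm (Fin w.length), Sat w π f Fin.elim0}

/-- `L` is definable in addition-invariant first-order logic. -/
def Definable {A : Type} (L : Language A) : Prop :=
  ∃ f : Fml A 0, AddInvariant f ∧ L = langOf f

/-- `u` and `v` are syntactically equivalent for `L`: each may replace the other in every
context. -/
def SyntEq {A : Type} (L : Language A) (u v : List A) : Prop :=
  ∀ x y : List A, x ++ u ++ y ∈ L ↔ x ++ v ++ y ∈ L

end AddInv
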