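import Pool.Agent.H66.AI.Types

/-!
# Words made of blocks of equal length: the composition lemma
-/

namespace AddInv

/-- Satisfaction over positions `0, ..., N - 1` given as naturals, with the identity numbering. -/
def SatN {A : Type} (N : ℕ) (a : ℕ → Option A) : {n : ℕ} → Fml A n → (Fin n → ℕ) → Prop
  | _, .falsum, _ => False
  | _, .eq i j, x => x i = x j
  | _, .lt i j, x => x i < x j
  | _, .letter b i, x => a (x i) = some b
  | _, .add i j k, x => x i + x j + 1 = x k
  | _, .imp f g, x => SatN N a f x → SatN N a g x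
  | _, .all f, x => ∀ p, p < N → SatN N a f (Fin.snoc x p)

lemma snoc_val {n N : ℕ} (x : Fin n → Fin N) (p : Fin N) :
    (fun i => ((Fin.snoc x p : Fin (n + 1) → Fin N) i : ℕ)) =
      (Fin.snoc (fun i => ((x i : Fin N) : ℕ)) (p : ℕ) : Fin (n + 1) → ℕ) := by
  funext i
  refine Fin.lastCases ?_ (fun j => ?_) i
  · simp
  · simp

lemma sat_iff {A : Type} (w : List A) : ∀ {n : ℕ} (f : Fml A n) (x : Fin n → Fin w.length),
    Sat w (Equiv.refl _) f x ↔ SatN w.length (fun p => w[p]?) f (fun i => (x i : ℕ))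
  | _, .falsum, _ => Iff.rfl
  | _, .eq i j, x => by
      show x i = x j ↔ (x i : ℕ) = (x j : ℕ)
      exact Fin.ext_iff
  | _, .lt i j, x => Iff.rfl
  | _, .letter a i, x => by
      show w.get (x i) = a ↔ w[(x i : ℕ)]? = some a
      rw [List.getElem?_eq_getElem (x i).2]
      simp
  | _, .add i j k, x => by
      show ((x i : ℕ) + 1) + ((x j : ℕ) + 1) = (x k : ℕ) + 1 ↔ (x i : ℕ) + (x j : ℕ) + 1 = (x k : ℕ)
      omega
  | _, .imp f g, x => by
      show (Sat w _ f x → Sat w _ g x) ↔ (SatN _ _ f _ → SatN _ _ g _)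
      rw [sat_iff w f x, sat_iff w g x]
  | _, .all f, x => by
      show (∀ p : Fin w.length, Sat w _ f (Fin.snoc x p)) ↔
        (∀ p, p < w.length → SatN _ _ f (Fin.snoc (fun i => ((x i : Fin w.length) : ℕ)) p))
      constructor
      · intro h p hp
        have h1 := (sat_iff w f (Fin.snoc x ⟨p, hp⟩)).1 (h ⟨p, hp⟩)
        rwa [snoc_val] at h1
      · intro h p
        rw [sat_iff w f, snoc_val]
        exact h p p.2

/-- A family of blocks of length `m` with indices in `T`, and a remainder. -/
structure Blk (T A : Type) where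
  m : ℕ
  v : T → Fin m → A
  r : ℕ → Option A

/-- Atomic codes of tuples of offsets in a block. -/
def Code (T A : Type) (k : ℕ) : Type :=
  (Fin k → Fin k → Prop) × (Fin k → Fin k → Prop) × (Fin k → Fin k → Fin k → Prop) ×
    (Fin k → Fin k → Fin k → Prop) × (Fin k → T → A) × (Fin k → Option A)

instance (T A : Type) [Finite T] [Finite A] (k : ℕ) : Finite (Code T A k) := by
  unfold Code
  infer_instance

/-- The atomic code of a tuple of offsets. -/
def Blk.code {T A : Type} (V : Blk T A) (k : ℕ) (j : Fin k → Fin V.m) : Code T A k :=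
  (fun a b => j a = j b, fun a b => j a < j b,
    fun a b d => (j a : ℕ) + j b + 1 = j d,
    fun a b d => (j a : ℕ) + j b + 1 = j d + V.m,
    fun a t => V.v t (j a), fun a => V.r (j a))

/-- The letter at a natural position of the word with block word `s`. -/
def Blk.letterAt {T A : Type} (V : Blk T A) (s : List T) (p : ℕ) : Option A :=
  if h : 0 < V.m then
    if h' : p / V.m < s.length then
      some (V.v (s[p / V.m]) ⟨p % V.m, Nat.mod_lt _ h⟩)
    else V.r (p % V.m)
  else none

lemma div_aux {m c j : ℕ} (hj : j < m) : (c * m + j) / m = c ∧ (c * m + j) % m = j := by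
  have hm : 0 < m := by omega
  constructor
  · rw [mul_comm, Nat.mul_add_div hm, Nat.div_eq_of_lt hj, add_zero]
  · rw [mul_comm, Nat.mul_add_mod, Nat.mod_eq_of_lt hj]

lemma letterAt_eq {T A : Type} (V : Blk T A) (s : List T) (c : ℕ) (j : Fin V.m) :
    V.letterAt s (c * V.m + j) =
      if h' : c < s.length then some (V.v (s[c]) j) else V.r j := by
  have hm : 0 < V.m := by have := j.2; omega
  obtain ⟨h1, h2⟩ := div_aux (c := c) j.2
  unfold Blk.letterAt
  rw [dif_pos hm]
  by_cases h : c < s.length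
  · have h3 : (c * V.m + j) / V.m < s.length := by rw [h1]; exact h
    rw [dif_pos h3, dif_pos h]
    congr 2
    · simp only [h1]
    · exact Fin.ext h2
  · have h3 : ¬ (c * V.m + j) / V.m < s.length := by rw [h1]; exact h
    rw [dif_neg h3, dif_neg h, h2]

/-- Comparison of two sums of the form `c * m + j` with `j < m`. -/
lemma eq_aux {m c c' j j' : ℕ} (hj : j < m) (hj' : j' < m) :
    c * m + j = c' * m + j' ↔ c = c' ∧ j = j' := by
  constructor
  · intro h
    have h1 := div_aux (c := c) hj
    have h2 := div_aux (c := c') hj'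
    rw [h] at h1
    exact ⟨h1.1.symm.trans h2.1, h1.2.symm.trans h2.2⟩
  · rintro ⟨rfl, rfl⟩; rfl

lemma lt_aux {m c c' j j' : ℕ} (hj : j < m) (hj' : j' < m) :
    c * m + j < c' * m + j' ↔ c < c' ∨ (c = c' ∧ j < j') := by
  constructor
  · intro h
    rcases lt_trichotomy c c' with h1 | h1 | h1
    · exact Or.inl h1
    · subst h1; exact Or.inr ⟨rfl, by omega⟩
    · exfalso
      have : (c' + 1) * m ≤ c * m := Nat.mul_le_mul_right _ h1
      nlinarith
  · rintro (h | ⟨rfl, h⟩)
    · have : (c + 1) * m ≤ c' * m := Nat.mul_le_mul_right _ h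
      nlinarith
    · omega

lemma add_aux {m c₁ c₂ c₃ j₁ j₂ j₃ : ℕ} (h1 : j₁ < m) (h2 : j₂ < m) (h3 : j₃ < m) :
    (c₁ * m + j₁) + (c₂ * m + j₂) + 1 = c₃ * m + j₃ ↔
      (c₁ + c₂ = c₃ ∧ j₁ + j₂ + 1 = j₃) ∨ (c₁ + c₂ + 1 = c₃ ∧ j₁ + j₂ + 1 = j₃ + m) := by
  have hL : (c₁ * m + j₁) + (c₂ * m + j₂) + 1 = (c₁ + c₂) * m + (j₁ + j₂ + 1) := by ring
  rw [hL]
  rcases Nat.lt_or_ge (j₁ + j₂ + 1) m with h | h
  · rw [eq_aux h h3]
    constructor
    · exact Or.inl
    · rintro (h4 | h4)
      · exact h4
      · exfalso; omega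
  · obtain ⟨e, he⟩ := Nat.exists_eq_add_of_le h
    have he' : e < m := by omega
    have h5 : (c₁ + c₂) * m + (j₁ + j₂ + 1) = (c₁ + c₂ + 1) * m + e := by rw [he]; ring
    rw [h5, eq_aux he' h3]
    constructor
    · rintro ⟨h6, h7⟩
      exact Or.inr ⟨h6, by omega⟩
    · rintro (⟨h6, h7⟩ | ⟨h6, h7⟩)
      · exfalso; omega
      · exact ⟨h6, by omega⟩

/-- Composition lemma: with the same block word, block families of equal rank `q` type give
words that agree on all formulas of rank at most `q`. -/
lemma compose {T A : Type} (V V' : Blk T A) (s : List T) (ρ ρ' : ℕ)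
    (hr : ∀ j, V.r j = none ↔ ρ ≤ j) (hr' : ∀ j, V'.r j = none ↔ ρ' ≤ j)
    (hρ : ρ ≤ V.m) (hρ' : ρ' ≤ V'.m) (hm : 0 < V.m) (hm' : 0 < V'.m) :
    ∀ {k : ℕ} (f : Fml A k) (q : ℕ) (_ : rk f ≤ q) (c : Fin k → ℕ)
      (j : Fin k → Fin V.m) (j' : Fin k → Fin V'.m)
      (_ : tp V.code q k j = tp V'.code q k j'),
      (SatN (s.length * V.m + ρ) (V.letterAt s) f (fun i => c i * V.m + j i) ↔
        SatN (s.length * V'.m + ρ') (V'.letterAt s) f (fun i => c i * V'.m + j' i))
  | _, .falsum, _, _, _, _, _, _ => Iff.rfl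
  | _, .eq a b, q, _, c, j, j', h => by
      have hc := code_eq_of_tp h
      have h1 : (j a = j b) = (j' a = j' b) := congrFun (congrFun (congrArg (fun z => z.1) hc) a) b
      show c a * V.m + j a = c b * V.m + j b ↔ c a * V'.m + j' a = c b * V'.m + j' b
      rw [eq_aux (j a).2 (j b).2, eq_aux (j' a).2 (j' b).2, ← Fin.ext_iff, ← Fin.ext_iff, h1]
  | _, .lt a b, q, _, c, j, j', h => by
      have hc := code_eq_of_tp h
      have h1 : (j a < j b) = (j' a < j' b) :=
        congrFun (congrFun (congrArg (fun z => z.2.1) hc) a) b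
      show c a * V.m + j a < c b * V.m + j b ↔ c a * V'.m + j' a < c b * V'.m + j' b
      rw [lt_aux (j a).2 (j b).2, lt_aux (j' a).2 (j' b).2, ← Fin.lt_def, ← Fin.lt_def, h1]
  | _, .letter b a, q, _, c, j, j', h => by
      have hc := code_eq_of_tp h
      have h1 : (fun t => V.v t (j a)) = fun t => V'.v t (j' a) :=
        congrFun (congrArg (fun z => z.2.2.2.2.1) hc) a
      have h2 : V.r (j a) = V'.r (j' a) := congrFun (congrArg (fun z => z.2.2.2.2.2) hc) a
      show V.letterAt s (c a * V.m + j a) = some b ↔ V'.letterAt s (c a * V'.m + j' a) = some b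
      rw [letterAt_eq, letterAt_eq]
      by_cases h3 : c a < s.length
      · rw [dif_pos h3, dif_pos h3, congrFun h1 (s[c a])]
      · rw [dif_neg h3, dif_neg h3, h2]
  | _, .add a b d, q, _, c, j, j', h => by
      have hc := code_eq_of_tp h
      have h1 : ((j a : ℕ) + j b + 1 = j d) = ((j' a : ℕ) + j' b + 1 = j' d) :=
        congrFun (congrFun (congrFun (congrArg (fun z => z.2.2.1) hc) a) b) d
      have h2 : ((j a : ℕ) + j b + 1 = j d + V.m) = ((j' a : ℕ) + j' b + 1 = j' d + V'.m) :=
        congrFun (congrFun (congrFun (congrArg (fun z => z.2.2.2.1) hc) a) b) d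
      show (c a * V.m + j a) + (c b * V.m + j b) + 1 = c d * V.m + j d ↔
        (c a * V'.m + j' a) + (c b * V'.m + j' b) + 1 = c d * V'.m + j' d
      rw [add_aux (j a).2 (j b).2 (j d).2, add_aux (j' a).2 (j' b).2 (j' d).2, h1, h2]
  | _, .imp f g, q, hq, c, j, j', h => by
      have hf : rk f ≤ q := le_trans (le_max_left _ _) hq
      have hg : rk g ≤ q := le_trans (le_max_right _ _) hq
      have h1 := compose V V' s ρ ρ' hr hr' hρ hρ' hm hm' f q hf c j j' h
      have h2 := compose V V' s ρ ρ' hr hr' hρ hρ' hm hm' g q hg c j j' h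
      show (SatN _ _ f _ → SatN _ _ g _) ↔ (SatN _ _ f _ → SatN _ _ g _)
      rw [h1, h2]
  | k, .all f, q, hq, c, j, j', h => by
      have hq1 : rk f + 1 ≤ q := hq
      obtain ⟨q', rfl⟩ : ∃ q', q = q' + 1 := ⟨q - 1, by omega⟩
      have hf : rk f ≤ q' := by omega
      have key : ∀ (W : Blk T A) (σ : ℕ) (_ : σ ≤ W.m) (_ : 0 < W.m) (p : ℕ)
          (_ : p < s.length * W.m + σ), p / W.m ≤ s.length ∧
            (p / W.m = s.length → p % W.m < σ) := by
        intro W σ hσ hW p hp
        have h1 := Nat.div_add_mod p W.m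
        have h2 := Nat.mod_lt p hW
        have h3 : W.m * (p / W.m) = (p / W.m) * W.m := mul_comm _ _
        constructor
        · by_contra h4
          push Not at h4
          have h5 : (s.length + 1) * W.m ≤ (p / W.m) * W.m := Nat.mul_le_mul_right _ h4
          rw [Nat.succ_mul] at h5
          omega
        · intro h4
          rw [h4] at h1 h3
          omega
      have snocEq : ∀ (W : Blk T A) (i : Fin k → Fin W.m) (p : ℕ) (hW : 0 < W.m),
          (fun z => ((Fin.snoc c (p / W.m) : Fin (k + 1) → ℕ) z) * W.m +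
            (((Fin.snoc i ⟨p % W.m, Nat.mod_lt _ hW⟩ : Fin (k + 1) → Fin W.m) z : Fin W.m) : ℕ)) =
          (Fin.snoc (fun z => c z * W.m + (i z : ℕ)) p : Fin (k + 1) → ℕ) := by
        intro W i p hW
        funext z
        refine Fin.lastCases ?_ (fun z => ?_) z
        · simp only [Fin.snoc_last]
          rw [mul_comm]; exact Nat.div_add_mod p W.m
        · simp only [Fin.snoc_castSucc]
      have snocEq' : ∀ (W : Blk T A) (i : Fin k → Fin W.m) (d : ℕ) (y : Fin W.m),
          (fun z => ((Fin.snoc c d : Fin (k + 1) → ℕ) z) * W.m +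
            (((Fin.snoc i y : Fin (k + 1) → Fin W.m) z : Fin W.m) : ℕ)) =
          (Fin.snoc (fun z => c z * W.m + (i z : ℕ)) (d * W.m + y) : Fin (k + 1) → ℕ) := by
        intro W i d y
        funext z
        refine Fin.lastCases ?_ (fun z => ?_) z
        · simp only [Fin.snoc_last]
        · simp only [Fin.snoc_castSucc]
      show (∀ p, p < s.length * V.m + ρ → SatN _ _ f (Fin.snoc (fun i => c i * V.m + j i) p)) ↔
        (∀ p, p < s.length * V'.m + ρ' → SatN _ _ f (Fin.snoc (fun i => c i * V'.m + j' i) p))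
      constructor
      · intro hall p hp
        obtain ⟨y, hy⟩ := tp_forth h.symm ⟨p % V'.m, Nat.mod_lt _ hm'⟩
        have hcode := code_eq_of_tp hy
        have hrem : V'.r (p % V'.m) = V.r y := by
          have := congrFun (congrArg (fun z => z.2.2.2.2.2) hcode) (Fin.last k)
          simpa [Blk.code] using this
        obtain ⟨h1, h2⟩ := key V' ρ' hρ' hm' p hp
        have hp2 : (p / V'.m) * V.m + y < s.length * V.m + ρ := by
          rcases Nat.lt_or_eq_of_le h1 with h3 | h3
          · have : (p / V'.m + 1) * V.m ≤ s.length * V.m := Nat.mul_le_mul_right _ h3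
            have := y.2
            nlinarith
          · rw [h3]
            have h4 := h2 h3
            have h5 : ¬ V'.r (p % V'.m) = none := by rw [hr']; omega
            rw [hrem, hr] at h5
            omega
        have h6 := hall _ hp2
        rw [← snocEq' V j (p / V'.m) y] at h6
        have h7 := (compose V V' s ρ ρ' hr hr' hρ hρ' hm hm' f q' hf
          (Fin.snoc c (p / V'.m)) (Fin.snoc j y) (Fin.snoc j' ⟨p % V'.m, Nat.mod_lt _ hm'⟩)
          hy.symm).1 h6
        rwa [snocEq V' j' p hm'] at h7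
      · intro hall p hp
        obtain ⟨y, hy⟩ := tp_forth h ⟨p % V.m, Nat.mod_lt _ hm⟩
        have hcode := code_eq_of_tp hy
        have hrem : V.r (p % V.m) = V'.r y := by
          have := congrFun (congrArg (fun z => z.2.2.2.2.2) hcode) (Fin.last k)
          simpa [Blk.code] using this
        obtain ⟨h1, h2⟩ := key V ρ hρ hm p hp
        have hp2 : (p / V.m) * V'.m + y < s.length * V'.m + ρ' := by
          rcases Nat.lt_or_eq_of_le h1 with h3 | h3
          · have : (p / V.m + 1) * V'.m ≤ s.length * V'.m := Nat.mul_le_mul_right _ h3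
            have := y.2
            nlinarith
          · rw [h3]
            have h4 := h2 h3
            have h5 : ¬ V.r (p % V.m) = none := by rw [hr]; omega
            rw [hrem, hr'] at h5
            omega
        have h6 := hall _ hp2
        rw [← snocEq' V' j' (p / V.m) y] at h6
        have h7 := (compose V V' s ρ ρ' hr hr' hρ hρ' hm hm' f q' hf
          (Fin.snoc c (p / V.m)) (Fin.snoc j ⟨p % V.m, Nat.mod_lt _ hm⟩) (Fin.snoc j' y)
          hy).2 h6
        rwa [snocEq V j p hm] at h7

end AddInv
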