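import Pool.Agent.H66.AI.DTypes
import Pool.Agent.H66.AI.Product

/-!
# Numbers below `2 ^ s` with coloured powers of two: a finite multiplicative invariant
-/

namespace AddInv

/-- Atomic codes of tuples of numbers below `2 ^ s`. -/
def CodeD (Γ : Type) (k : ℕ) : Type :=
  (Option (Fin k) → Option (Fin k) → Option (Fin k) → Bool → Bool → Prop) ×
    (Fin k → Fin k → Prop) × (Fin k → Option Γ)

instance (Γ : Type) [Finite Γ] (k : ℕ) : Finite (CodeD Γ k) := by
  unfold CodeD
  infer_instance

/-- The value of an optional variable; `none` stands for the number zero. -/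
def val {k : ℕ} (y : Fin k → ℕ) (a : Option (Fin k)) : ℕ := a.elim 0 y

/-- The colour of the number `y`: the entry of `w` at `t` if `y = 2 ^ t`. -/
def color {Γ : Type} (w : List (Option Γ)) (y : ℕ) : Option Γ :=
  if y = 2 ^ Nat.log 2 y then (w[Nat.log 2 y]?).join else none

/-- The atomic code. -/
def codeD {Γ : Type} (w : List (Option Γ)) (k : ℕ) (y : Fin k → ℕ) : CodeD Γ k :=
  (fun a b d c c' => val y a + val y b + c.toNat = val y d + c'.toNat * 2 ^ w.length,
    fun a b => y a < y b, fun a => color w (y a))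

/-- The numbers below `2 ^ s`. -/
def domD {Γ : Type} (w : List (Option Γ)) : Set ℕ := {y | y < 2 ^ w.length}

lemma color_zero {Γ : Type} (w : List (Option Γ)) : color w 0 = none := by
  simp [color]

lemma color_pow {Γ : Type} (w : List (Option Γ)) (t : ℕ) : color w (2 ^ t) = (w[t]?).join := by
  simp [color, Nat.log_pow]

lemma color_of_not_pow {Γ : Type} (w : List (Option Γ)) (y : ℕ) (h : ∀ t, y ≠ 2 ^ t) :
    color w y = none := by
  unfold color
  rw [if_neg (h _)]

lemma color_append {Γ : Type} (w w' : List (Option Γ)) (α β : ℕ) (hα : α < 2 ^ w.length) :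
    color (w ++ w') (α + 2 ^ w.length * β) =
      if β = 0 then color w α else if α = 0 then color w' β else none := by
  by_cases hβ : β = 0
  · subst hβ
    rw [if_pos rfl, mul_zero, add_zero]
    by_cases h : ∃ t, α = 2 ^ t
    · obtain ⟨t, rfl⟩ := h
      have ht : t < w.length := (Nat.pow_lt_pow_iff_right (by norm_num)).1 hα
      rw [color_pow, color_pow, List.getElem?_append_left ht]
    · push Not at h
      rw [color_of_not_pow _ _ h, color_of_not_pow _ _ h]
  · rw [if_neg hβ]
    by_cases hα0 : α = 0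
    · subst hα0
      rw [if_pos rfl, zero_add]
      by_cases h : ∃ t, β = 2 ^ t
      · obtain ⟨t, rfl⟩ := h
        rw [← pow_add, color_pow, color_pow, List.getElem?_append_right (by omega),
          Nat.add_sub_cancel_left]
      · push Not at h
        rw [color_of_not_pow _ _ h]
        apply color_of_not_pow
        intro t ht
        rcases Nat.lt_or_ge t w.length with h1 | h1
        · have h2 : 2 ^ t < 2 ^ w.length := Nat.pow_lt_pow_right (by norm_num) h1
          have h3 : 2 ^ w.length * 1 ≤ 2 ^ w.length * β :=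
            Nat.mul_le_mul_left _ (Nat.pos_of_ne_zero hβ)
          omega
        · obtain ⟨e, rfl⟩ := Nat.exists_eq_add_of_le h1
          rw [pow_add] at ht
          exact h e (Nat.eq_of_mul_eq_mul_left (by positivity) ht)
    · rw [if_neg hα0]
      apply color_of_not_pow
      intro t ht
      rcases Nat.lt_or_ge t w.length with h1 | h1
      · have h2 : 2 ^ t < 2 ^ w.length := Nat.pow_lt_pow_right (by norm_num) h1
        have h3 : 2 ^ w.length * 1 ≤ 2 ^ w.length * β :=
          Nat.mul_le_mul_left _ (Nat.pos_of_ne_zero hβ)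
        omega
      · have h2 : 2 ^ w.length ∣ 2 ^ t := pow_dvd_pow _ h1
        rw [← ht] at h2
        have h3 : 2 ^ w.length ∣ α := (Nat.dvd_add_left (dvd_mul_right _ _)).1 h2
        exact hα0 (Nat.eq_zero_of_dvd_of_lt h3 hα)

/-- Splitting an addition with carries. -/
lemma carry_split {S S' α₁ α₂ α₃ β₁ β₂ β₃ : ℕ} (c c' : Bool) (h1 : α₁ < S) (h2 : α₂ < S)
    (h3 : α₃ < S) :
    (α₁ + S * β₁) + (α₂ + S * β₂) + c.toNat = (α₃ + S * β₃) + c'.toNat * (S * S') ↔
      ∃ e : Bool, α₁ + α₂ + c.toNat = α₃ + e.toNat * S ∧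
        β₁ + β₂ + e.toNat = β₃ + c'.toNat * S' := by
  have hc : c.toNat ≤ 1 := Bool.toNat_le c
  have hL : (α₁ + S * β₁) + (α₂ + S * β₂) + c.toNat =
      (β₁ + β₂) * S + (α₁ + α₂ + c.toNat) := by ring
  have hR : (α₃ + S * β₃) + c'.toNat * (S * S') = (β₃ + c'.toNat * S') * S + α₃ := by ring
  rw [hL, hR]
  rcases Nat.lt_or_ge (α₁ + α₂ + c.toNat) S with h | h
  · rw [eq_aux h h3]
    constructor
    · rintro ⟨h4, h5⟩
      exact ⟨false, by simpa using h5, by simpa using h4⟩
    · rintro ⟨e, h4, h5⟩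
      cases e
      · exact ⟨by simpa using h5, by simpa using h4⟩
      · exfalso
        simp only [Bool.toNat_true, one_mul] at h4
        omega
  · obtain ⟨d, hd⟩ := Nat.exists_eq_add_of_le h
    have hd' : d < S := by omega
    have h6 : (β₁ + β₂) * S + (α₁ + α₂ + c.toNat) = (β₁ + β₂ + 1) * S + d := by
      rw [hd]; ring
    rw [h6, eq_aux hd' h3]
    constructor
    · rintro ⟨h4, h5⟩
      refine ⟨true, ?_, by simpa using h4⟩
      simp only [Bool.toNat_true, one_mul]
      omega
    · rintro ⟨e, h4, h5⟩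
      cases e
      · exfalso
        simp only [Bool.toNat_false, zero_mul, add_zero] at h4
        omega
      · simp only [Bool.toNat_true, one_mul] at h4 h5
        exact ⟨h5, by omega⟩

lemma val_add {k : ℕ} (S : ℕ) (y0 y1 : Fin k → ℕ) (a : Option (Fin k)) :
    val (fun i => y0 i + S * y1 i) a = val y0 a + S * val y1 a := by
  cases a <;> simp [val]

lemma val_lt {k S : ℕ} (hS : 0 < S) (y : Fin k → ℕ) (h : ∀ i, y i < S) (a : Option (Fin k)) :
    val y a < S := by
  cases a with
  | none => simpa [val] using hS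
  | some i => simpa [val] using h i

/-- Atomic codes compose. -/
lemma codeD_append {Γ : Type} {w w' v v' : List (Option Γ)} {k : ℕ}
    {y0 y1 z0 z1 : Fin k → ℕ} (hy0 : ∀ i, y0 i < 2 ^ w.length) (hz0 : ∀ i, z0 i < 2 ^ v.length)
    (h0 : codeD w k y0 = codeD v k z0) (h1 : codeD w' k y1 = codeD v' k z1) :
    codeD (w ++ w') k (fun i => y0 i + 2 ^ w.length * y1 i) =
      codeD (v ++ v') k (fun i => z0 i + 2 ^ v.length * z1 i) := by
  have hA0 : ∀ (a b d : Option (Fin k)) (c c' : Bool), (val y0 a + val y0 b + c.toNat = val y0 d + c'.toNat * 2 ^ w.length) =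
      (val z0 a + val z0 b + c.toNat = val z0 d + c'.toNat * 2 ^ v.length) := by
    intro a b d c c'
    exact congrFun (congrFun (congrFun (congrFun (congrFun (congrArg (fun z => z.1) h0) a) b) d) c)
      c'
  have hA1 : ∀ (a b d : Option (Fin k)) (c c' : Bool), (val y1 a + val y1 b + c.toNat = val y1 d + c'.toNat * 2 ^ w'.length) =
      (val z1 a + val z1 b + c.toNat = val z1 d + c'.toNat * 2 ^ v'.length) := by
    intro a b d c c'
    exact congrFun (congrFun (congrFun (congrFun (congrFun (congrArg (fun z => z.1) h1) a) b) d) c)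
      c'
  have hL0 : ∀ a b, (y0 a < y0 b) = (z0 a < z0 b) := fun a b =>
    congrFun (congrFun (congrArg (fun z => z.2.1) h0) a) b
  have hL1 : ∀ a b, (y1 a < y1 b) = (z1 a < z1 b) := fun a b =>
    congrFun (congrFun (congrArg (fun z => z.2.1) h1) a) b
  have hC0 : ∀ a, color w (y0 a) = color v (z0 a) := fun a =>
    congrFun (congrArg (fun z => z.2.2) h0) a
  have hC1 : ∀ a, color w' (y1 a) = color v' (z1 a) := fun a =>
    congrFun (congrArg (fun z => z.2.2) h1) a
  have hE1 : ∀ a b, (y1 a = y1 b) = (z1 a = z1 b) := by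
    intro a b
    have := hA1 (some a) none (some b) false false
    simpa [val] using this
  have hZ0 : ∀ a, (y0 a = 0) = (z0 a = 0) := by
    intro a
    have := hA0 (some a) none none false false
    simpa [val] using this
  have hZ1 : ∀ a, (y1 a = 0) = (z1 a = 0) := by
    intro a
    have := hA1 (some a) none none false false
    simpa [val] using this
  unfold codeD
  refine Prod.ext ?_ (Prod.ext ?_ ?_)
  · funext a b d c c'
    simp only [val_add, List.length_append, pow_add]
    rw [carry_split c c' (val_lt (by positivity) y0 hy0 a) (val_lt (by positivity) y0 hy0 b)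
      (val_lt (by positivity) y0 hy0 d), carry_split c c' (val_lt (by positivity) z0 hz0 a)
      (val_lt (by positivity) z0 hz0 b) (val_lt (by positivity) z0 hz0 d)]
    congr 1
    funext e
    rw [hA0, hA1]
  · funext a b
    show (y0 a + 2 ^ w.length * y1 a < y0 b + 2 ^ w.length * y1 b) =
      (z0 a + 2 ^ v.length * z1 a < z0 b + 2 ^ v.length * z1 b)
    have e1 : (y0 a + 2 ^ w.length * y1 a < y0 b + 2 ^ w.length * y1 b) =
        (y1 a * 2 ^ w.length + y0 a < y1 b * 2 ^ w.length + y0 b) := by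
      congr 1 <;> ring
    have e2 : (z0 a + 2 ^ v.length * z1 a < z0 b + 2 ^ v.length * z1 b) =
        (z1 a * 2 ^ v.length + z0 a < z1 b * 2 ^ v.length + z0 b) := by
      congr 1 <;> ring
    rw [e1, e2, lt_aux (hy0 a) (hy0 b), lt_aux (hz0 a) (hz0 b), hL1, hE1, hL0]
  · funext a
    show color (w ++ w') (y0 a + 2 ^ w.length * y1 a) =
      color (v ++ v') (z0 a + 2 ^ v.length * z1 a)
    rw [color_append w w' _ _ (hy0 a), color_append v v' _ _ (hz0 a), hC0, hC1]
    simp only [hZ0, hZ1]

lemma snoc_add {k : ℕ} (S : ℕ) (y0 y1 : Fin k → ℕ) (α β : ℕ) :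
    (fun i => (Fin.snoc y0 α : Fin (k + 1) → ℕ) i + S * (Fin.snoc y1 β : Fin (k + 1) → ℕ) i) =
      (Fin.snoc (fun i => y0 i + S * y1 i) (α + S * β) : Fin (k + 1) → ℕ) := by
  funext i
  refine Fin.lastCases ?_ (fun j => ?_) i
  · simp
  · simp

lemma snoc_lt {k M : ℕ} {y : Fin k → ℕ} (h : ∀ i, y i < M) {α : ℕ} (hα : α < M) :
    ∀ i, (Fin.snoc y α : Fin (k + 1) → ℕ) i < M := by
  intro i
  refine Fin.lastCases ?_ (fun j => ?_) i
  · simpa using hα
  · simpa using h j

/-- Types compose. -/
lemma tpd_append {Γ : Type} {w w' v v' : List (Option Γ)} : ∀ (q : ℕ) {k : ℕ}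
    {y0 y1 z0 z1 : Fin k → ℕ} (_ : ∀ i, y0 i < 2 ^ w.length) (_ : ∀ i, z0 i < 2 ^ v.length)
    (_ : tpd (domD w) (codeD w) q k y0 = tpd (domD v) (codeD v) q k z0)
    (_ : tpd (domD w') (codeD w') q k y1 = tpd (domD v') (codeD v') q k z1),
    tpd (domD (w ++ w')) (codeD (w ++ w')) q k (fun i => y0 i + 2 ^ w.length * y1 i) =
      tpd (domD (v ++ v')) (codeD (v ++ v')) q k (fun i => z0 i + 2 ^ v.length * z1 i)
  | 0, _, _, _, _, _, hy0, hz0, h0, h1 => codeD_append hy0 hz0 h0 h1
  | q + 1, k, y0, y1, z0, z1, hy0, hz0, h0, h1 => by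
      have split : ∀ (x x' : List (Option Γ)) (y : ℕ), y < 2 ^ (x ++ x').length →
          y % 2 ^ x.length < 2 ^ x.length ∧ y / 2 ^ x.length < 2 ^ x'.length ∧
            y = y % 2 ^ x.length + 2 ^ x.length * (y / 2 ^ x.length) := by
        intro x x' y hy
        rw [List.length_append, pow_add] at hy
        refine ⟨Nat.mod_lt _ (by positivity), Nat.div_lt_of_lt_mul hy, ?_⟩
        exact (Nat.mod_add_div y (2 ^ x.length)).symm
      have join : ∀ (x x' : List (Option Γ)) (α β : ℕ), α < 2 ^ x.length → β < 2 ^ x'.length →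
          α + 2 ^ x.length * β < 2 ^ (x ++ x').length := by
        intro x x' α β h1 h2
        rw [List.length_append, pow_add]
        have h3 : 2 ^ x.length * (β + 1) ≤ 2 ^ x.length * 2 ^ x'.length :=
          Nat.mul_le_mul_left _ h2
        rw [mul_add, mul_one] at h3
        omega
      apply tpd_succ_eq
      · exact tpd_append q hy0 hz0 (tpd_fst h0) (tpd_fst h1)
      · intro y hy
        obtain ⟨s1, s2, s3⟩ := split w w' y hy
        obtain ⟨α, hα, hα'⟩ := tpd_forth h0 (y % 2 ^ w.length) s1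
        obtain ⟨β, hβ, hβ'⟩ := tpd_forth h1 (y / 2 ^ w.length) s2
        refine ⟨α + 2 ^ v.length * β, join v v' α β hα hβ, ?_⟩
        have h3 := tpd_append q (snoc_lt hy0 s1) (snoc_lt hz0 hα) hα' hβ'
        rw [snoc_add, snoc_add, ← s3] at h3
        exact h3
      · intro y hy
        obtain ⟨s1, s2, s3⟩ := split v v' y hy
        obtain ⟨α, hα, hα'⟩ := tpd_forth h0.symm (y % 2 ^ v.length) s1
        obtain ⟨β, hβ, hβ'⟩ := tpd_forth h1.symm (y / 2 ^ v.length) s2
        refine ⟨α + 2 ^ w.length * β, join w w' α β hα hβ, ?_⟩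
        have h3 := tpd_append q (snoc_lt hy0 hα) (snoc_lt hz0 s1) hα'.symm hβ'.symm
        rw [snoc_add, snoc_add, ← s3] at h3
        exact h3

/-- The finite invariant of a word of colours. -/
def theta {Γ : Type} (q : ℕ) (w : List (Option Γ)) : Ty (CodeD Γ) q 0 :=
  tpd (domD w) (codeD w) q 0 Fin.elim0

lemma theta_append {Γ : Type} {q : ℕ} {w w' v v' : List (Option Γ)}
    (h0 : theta q w = theta q v) (h1 : theta q w' = theta q v') :
    theta q (w ++ w') = theta q (v ++ v') := by
  have h2 := tpd_append (w := w) (w' := w') (v := v) (v' := v') q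
    (y0 := Fin.elim0) (y1 := Fin.elim0) (z0 := Fin.elim0) (z1 := Fin.elim0)
    (fun i => i.elim0) (fun i => i.elim0) h0 h1
  have e1 : (fun i : Fin 0 => (Fin.elim0 i : ℕ) + 2 ^ w.length * (Fin.elim0 i : ℕ)) =
      Fin.elim0 := by funext i; exact i.elim0
  have e2 : (fun i : Fin 0 => (Fin.elim0 i : ℕ) + 2 ^ v.length * (Fin.elim0 i : ℕ)) =
      Fin.elim0 := by funext i; exact i.elim0
  rw [e1, e2] at h2
  exact h2

end AddInv
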