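import Pool.Agent.H66.AI.Defs

/-!
# Padding words to prescribed lengths
-/

namespace AddInv

variable {A : Type} {L : Language A}

lemma SyntEq.refl (u : List A) : SyntEq L u u := fun _ _ => Iff.rfl

lemma SyntEq.symm {u v : List A} (h : SyntEq L u v) : SyntEq L v u := fun x y => (h x y).symm

lemma SyntEq.trans {u v w : List A} (h : SyntEq L u v) (h' : SyntEq L v w) : SyntEq L u w :=
  fun x y => (h x y).trans (h' x y)

lemma SyntEq.append {u v u' v' : List A} (h : SyntEq L u v) (h' : SyntEq L u' v') :
    SyntEq L (u ++ u') (v ++ v') := by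
  intro x y
  have h1 := h x (u' ++ y)
  have h2 := h' (x ++ v) y
  simp only [List.append_assoc] at h1 h2 ⊢
  exact h1.trans h2

lemma SyntEq.append_left {u v : List A} (w : List A) (h : SyntEq L u v) :
    SyntEq L (w ++ u) (w ++ v) := (SyntEq.refl w).append h

lemma SyntEq.append_right {u v : List A} (w : List A) (h : SyntEq L u v) :
    SyntEq L (u ++ w) (v ++ w) := h.append (SyntEq.refl w)

/-- Iterating `c ≡ c z`. -/
lemma SyntEq.pump {c z : List A} (h : SyntEq L c (c ++ z)) :
    ∀ i : ℕ, SyntEq L c (c ++ (List.replicate i z).flatten)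
  | 0 => by simpa using SyntEq.refl c
  | i + 1 => by
      have h1 := (SyntEq.pump h i).append_right z
      have h2 := h.trans h1
      have h3 : c ++ (List.replicate (i + 1) z).flatten =
          c ++ (List.replicate i z).flatten ++ z := by
        rw [List.replicate_succ', List.flatten_append]
        simp
      rw [h3]
      exact h2

/-- From the expansion property to padding along an arithmetic progression, one word. -/
lemma pad_one [Finite A] (k : ℕ)
    (H : ∀ u : List A, u.length = k → ∃ v : List A, k < v.length ∧ SyntEq L u v)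
    (u : List A) (hu : u.length = k) :
    ∃ c z y : List A, c.length = k ∧ 0 < z.length ∧ SyntEq L c (c ++ z) ∧
      SyntEq L u (c ++ y) := by
  classical
  have step : ∀ u : {u : List A // u.length = k}, ∃ p : {u : List A // u.length = k} × List A,
      0 < p.2.length ∧ SyntEq L u.1 (p.1.1 ++ p.2) := by
    rintro ⟨u, hu⟩
    obtain ⟨v, hv1, hv2⟩ := H u hu
    refine ⟨(⟨v.take k, by simp; omega⟩, v.drop k), ?_, ?_⟩
    · simp; omega
    · show SyntEq L u (v.take k ++ v.drop k)
      rw [List.take_append_drop]; exact hv2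
  choose g hg1 hg2 using step
  have hfin : Finite {u : List A // u.length = k} :=
    (List.finite_length_eq A k).to_subtype
  -- the orbit
  set F : {u : List A // u.length = k} → {u : List A // u.length = k} := fun u => (g u).1
  have orbit : ∀ (i : ℕ) (w : {u : List A // u.length = k}),
      ∃ y : List A, i ≤ y.length ∧ SyntEq L w.1 ((F^[i] w).1 ++ y) := by
    intro i
    induction i with
    | zero => intro w; exact ⟨[], le_rfl, by simpa using SyntEq.refl w.1⟩
    | succ i ih =>
      intro w
      obtain ⟨y, hy1, hy2⟩ := ih w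
      refine ⟨(g (F^[i] w)).2 ++ y, ?_, ?_⟩
      · rw [List.length_append]
        have := hg1 (F^[i] w)
        omega
      · rw [Function.iterate_succ_apply', ← List.append_assoc]
        exact hy2.trans ((hg2 (F^[i] w)).append_right y)
  obtain ⟨i, j, hij, hne⟩ : ∃ i j : ℕ, F^[i] ⟨u, hu⟩ = F^[j] ⟨u, hu⟩ ∧ i ≠ j := by
    obtain ⟨i, j, h1, h2⟩ := Finite.exists_ne_map_eq_of_infinite
      (fun i : ℕ => F^[i] (⟨u, hu⟩ : {u : List A // u.length = k}))
    exact ⟨i, j, h2, h1⟩
  wlog hlt : i < j generalizing i j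
  · exact this j i hij.symm (Ne.symm hne) (by omega)
  obtain ⟨y, -, hy⟩ := orbit i ⟨u, hu⟩
  obtain ⟨z, hz1, hz2⟩ := orbit (j - i) (F^[i] ⟨u, hu⟩)
  have hz3 : F^[j - i] (F^[i] (⟨u, hu⟩ : {u : List A // u.length = k})) = F^[i] ⟨u, hu⟩ := by
    rw [← Function.iterate_add_apply, Nat.sub_add_cancel hlt.le, ← hij]
  rw [hz3] at hz2
  exact ⟨(F^[i] ⟨u, hu⟩).1, z, y, (F^[i] ⟨u, hu⟩).2, by omega, hz2, hy⟩

/-- Padding along a common arithmetic progression. -/
lemma pad_all [Finite A] (k : ℕ)
    (H : ∀ u : List A, u.length = k → ∃ v : List A, k < v.length ∧ SyntEq L u v) :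
    ∃ (l : ℕ) (d : List A → ℕ), 0 < l ∧ ∀ u : List A, u.length = k → ∀ i : ℕ,
      ∃ w : List A, w.length = k + d u + i * l ∧ SyntEq L u w := by
  classical
  have hfin : Finite {u : List A // u.length = k} :=
    (List.finite_length_eq A k).to_subtype
  have := Fintype.ofFinite {u : List A // u.length = k}
  have h1 : ∀ u : {u : List A // u.length = k}, ∃ c z y : List A, c.length = k ∧
      0 < z.length ∧ SyntEq L c (c ++ z) ∧ SyntEq L u.1 (c ++ y) :=
    fun u => pad_one k H u.1 u.2
  choose c z y hc hz hcz huy using h1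
  refine ⟨∏ u : {u : List A // u.length = k}, (z u).length,
    fun u => if h : u.length = k then (y ⟨u, h⟩).length else 0,
    Finset.prod_pos fun u _ => hz u, ?_⟩
  intro u hu i
  have hdvd : (z ⟨u, hu⟩).length ∣ ∏ u : {u : List A // u.length = k}, (z u).length :=
    Finset.dvd_prod_of_mem _ (Finset.mem_univ _)
  obtain ⟨e, he⟩ := hdvd
  refine ⟨c ⟨u, hu⟩ ++ (List.replicate (i * e) (z ⟨u, hu⟩)).flatten ++ y ⟨u, hu⟩, ?_, ?_⟩
  · beta_reduce
    rw [dif_pos hu, List.length_append, List.length_append, hc, he]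
    simp only [List.length_flatten, List.map_replicate, List.sum_replicate, smul_eq_mul]
    ring
  · exact (huy ⟨u, hu⟩).trans (((hcz ⟨u, hu⟩).pump (i * e)).append_right _)

end AddInv
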