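import Pool.Agent.H66.AI.Block

/-!
# Inserting fixed words after the factors preserves regularity under preimages
-/

namespace AddInv

section

variable {A : Type} {b : ℕ}

lemma finRange_two_mul {β : Type} (F : Fin (2 * b) → List β) :
    (List.finRange (2 * b)).flatMap F =
      (List.finRange b).flatMap fun t : Fin b =>
        F ⟨2 * (t : ℕ), by have := t.2; omega⟩ ++ F ⟨2 * (t : ℕ) + 1, by have := t.2; omega⟩ := by
  let F' : ℕ → List β := fun m => if h : m < 2 * b then F ⟨m, h⟩ else []
  have h1 : (List.finRange (2 * b)).flatMap F = (List.range (2 * b)).flatMap F' := by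
    rw [← List.map_coe_finRange_eq_range, List.flatMap_map]
    apply List.flatMap_congr
    intro f _
    show F f = F' f
    have : F' f = F ⟨(f : ℕ), f.2⟩ := dif_pos f.2
    rw [this]
  rw [h1, range_two_mul]
  apply List.flatMap_congr
  intro t _
  have e1 : F' (2 * (t : ℕ)) = F ⟨2 * (t : ℕ), by have := t.2; omega⟩ :=
    dif_pos (by have := t.2; omega)
  have e2 : F' (2 * (t : ℕ) + 1) = F ⟨2 * (t : ℕ) + 1, by have := t.2; omega⟩ :=
    dif_pos (by have := t.2; omega)
  rw [e1, e2]

/-- Half of a flag. -/
def half (f : Fin (2 * b)) : Fin b := ⟨(f : ℕ) / 2, by have := f.2; omega⟩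

/-- The factors `x` at even flags and the factors `y` at odd flags. -/
def mix (x y : Fin b → List A) (f : Fin (2 * b)) : List A :=
  if (f : ℕ) % 2 = 0 then x (half f) else y (half f)

lemma mix_even (x y : Fin b → List A) (t : Fin b) :
    mix x y ⟨2 * (t : ℕ), by have := t.2; omega⟩ = x t := by
  unfold mix half
  have h1 : (2 * (t : ℕ)) % 2 = 0 := by omega
  have h2 : (2 * (t : ℕ)) / 2 = t := by omega
  simp only [h1, h2, if_true]

lemma mix_odd (x y : Fin b → List A) (t : Fin b) :
    mix x y ⟨2 * (t : ℕ) + 1, by have := t.2; omega⟩ = y t := by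
  unfold mix half
  have h1 : ¬ (2 * (t : ℕ) + 1) % 2 = 0 := by omega
  have h2 : (2 * (t : ℕ) + 1) / 2 = t := by omega
  simp only [h1, h2, if_false]

/-- Halving the flags. -/
def g1 (z : A × Fin (2 * b)) : A × Fin b := (z.1, half z.2)

/-- Halving the even flags and erasing the letters with odd flags. -/
def g2 (z : A × Fin (2 * b)) : Option (A × Fin b) :=
  if (z.2 : ℕ) % 2 = 0 then some (z.1, half z.2) else none

lemma half_even (t : Fin b) : half ⟨2 * (t : ℕ), by have := t.2; omega⟩ = t := by
  unfold half
  exact Fin.ext (by show (2 * (t : ℕ)) / 2 = t; omega)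

lemma half_odd (t : Fin b) : half ⟨2 * (t : ℕ) + 1, by have := t.2; omega⟩ = t := by
  unfold half
  exact Fin.ext (by show (2 * (t : ℕ) + 1) / 2 = t; omega)

lemma map_g1 (x y : Fin b → List A) : (flg (mix x y)).map g1 = flg fun t => x t ++ y t := by
  unfold flg
  rw [finRange_two_mul, List.map_flatMap]
  apply List.flatMap_congr
  intro t _
  rw [mix_even, mix_odd, List.map_append, List.map_map, List.map_map, List.map_append]
  congr 1
  · apply List.map_congr_left
    intro a _
    show (a, half _) = (a, t)
    rw [half_even]
  · apply List.map_congr_left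
    intro a _
    show (a, half _) = (a, t)
    rw [half_odd]

lemma filterMap_g2 (x y : Fin b → List A) : (flg (mix x y)).filterMap g2 = flg x := by
  unfold flg
  rw [finRange_two_mul, List.filterMap_flatMap]
  apply List.flatMap_congr
  intro t _
  rw [mix_even, mix_odd, List.filterMap_append, List.filterMap_map, List.filterMap_map]
  have h1 : ((g2 ∘ fun a : A => (a, (⟨2 * (t : ℕ), by have := t.2; omega⟩ : Fin (2 * b)))) :
      A → Option (A × Fin b)) = fun a => some (a, t) := by
    funext a
    show (if (2 * (t : ℕ)) % 2 = 0 then some (a, half _) else none) = some (a, t)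
    rw [if_pos (by omega), half_even]
  have h2 : ((g2 ∘ fun a : A => (a, (⟨2 * (t : ℕ) + 1, by have := t.2; omega⟩ :
      Fin (2 * b)))) : A → Option (A × Fin b)) = fun a => none := by
    funext a
    show (if (2 * (t : ℕ) + 1) % 2 = 0 then some (a, half _) else none) = none
    rw [if_neg (by omega)]
  rw [h1, h2]
  simp

/-- Inserting fixed words. -/
lemma regular_insert (G : Language (A × Fin b)) (hG : G.IsRegular) (y : Fin b → List A) :
    Language.IsRegular ({v | ∃ x : Fin b → List A, v = flg x ∧
      (flg fun t => x t ++ y t) ∈ G} : Set (List (A × Fin b))) := by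
  let R : Fin (2 * b) → Language A := fun f =>
    if (f : ℕ) % 2 = 0 then (Set.univ : Set (List A)) else ({y (half f)} : Set (List A))
  have hR : ∀ f, (R f).IsRegular := by
    intro f
    by_cases h : (f : ℕ) % 2 = 0
    · have : R f = (Set.univ : Set (List A)) := if_pos h
      rw [this]
      exact isRegular_of_invariant (γ := Unit) _ (fun _ => ()) (fun _ _ _ _ => Iff.rfl)
    · have : R f = ({y (half f)} : Set (List A)) := if_neg h
      rw [this]
      exact isRegular_singleton _
  have h1 := isRegular_image g2 (FR R ⊓ pre g1 G)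
    ((regular_FR R hR).inf (isRegular_preimage g1 G hG))
  have h2 : img g2 (FR R ⊓ pre g1 G) = ({v | ∃ x : Fin b → List A, v = flg x ∧
      (flg fun t => x t ++ y t) ∈ G} : Set (List (A × Fin b))) := by
    ext v
    constructor
    · rintro ⟨u, ⟨⟨hs, hu⟩, hg⟩, rfl⟩
      have hux : u = flg fun f => proj f u := eq_flg_of_srt u hs
      let x : Fin b → List A := fun t => proj ⟨2 * (t : ℕ), by have := t.2; omega⟩ u
      have hmix : (fun f => proj f u) = mix x y := by
        funext f
        by_cases h : (f : ℕ) % 2 = 0
        · unfold mix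
          rw [if_pos h]
          show proj f u = proj ⟨2 * ((half f : Fin b) : ℕ), _⟩ u
          congr 1
          apply Fin.ext
          show (f : ℕ) = 2 * ((f : ℕ) / 2)
          omega
        · unfold mix
          rw [if_neg h]
          have h3 : proj f u ∈ R f := hu f
          have h4 : R f = ({y (half f)} : Set (List A)) := if_neg h
          rw [h4] at h3
          exact h3
      rw [hmix] at hux
      refine ⟨x, ?_, ?_⟩
      · rw [hux]; exact filterMap_g2 x y
      · have h5 : u.map g1 ∈ G := hg
        rw [hux, map_g1] at h5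
        exact h5
    · rintro ⟨x, rfl, hx⟩
      refine ⟨flg (mix x y), ⟨⟨srt_flg _, ?_⟩, ?_⟩, filterMap_g2 x y⟩
      · intro f
        rw [proj_flg]
        by_cases h : (f : ℕ) % 2 = 0
        · have : R f = (Set.univ : Set (List A)) := if_pos h
          rw [this]
          exact Set.mem_univ _
        · have : R f = ({y (half f)} : Set (List A)) := if_neg h
          rw [this]
          unfold mix
          rw [if_neg h]
          exact Set.mem_singleton _
      · show (flg (mix x y)).map g1 ∈ G
        rw [map_g1]
        exact hx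
  rw [← h2]
  exact h1

end

end AddInv
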