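import Pool.Agent.H66.AI.Model

/-!
# Periodicity of the types of initial segments of the natural numbers
-/

namespace AddInv

open Set

lemma semi_ex {n : ℕ} {p : (Fin n → ℕ) → ℕ → Prop}
    (h : IsSemilinearSet {v' : Fin (n + 1) → ℕ | p (fun i => v' i.castSucc) (v' (Fin.last n))}) :
    IsSemilinearSet {v : Fin n → ℕ | ∃ e, p v e} := by
  convert h.image (LinearMap.funLeft ℕ ℕ (Fin.castSucc : Fin n → Fin (n + 1))) using 1
  ext v
  constructor
  · rintro ⟨e, he⟩
    refine ⟨Fin.snoc v e, ?_, ?_⟩
    · show p _ _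
      simpa using he
    · funext i
      show (Fin.snoc v e : Fin (n + 1) → ℕ) i.castSucc = v i
      simp
  · rintro ⟨v', hv', rfl⟩
    exact ⟨v' (Fin.last n), hv'⟩

lemma semi_prop {n : ℕ} {p : (Fin n → ℕ) → Prop} (h : IsSemilinearSet {v | p v}) (Q : Prop) :
    IsSemilinearSet {v | p v = Q} := by
  by_cases hQ : Q
  · convert h using 1
    ext v
    show (p v = Q) ↔ p v
    simp [hQ]
  · convert h.compl using 1
    ext v
    show (p v = Q) ↔ ¬ p v
    simp [hQ]

lemma semi_lin {n : ℕ} (a b : ℕ) (f g : (Fin n → ℕ) →+ ℕ) :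
    IsSemilinearSet {v : Fin n → ℕ | a + f v = b + g v} :=
  isSemilinearSet_setOfPred_eq a b f g

/-- A coordinate. -/
def co {n : ℕ} (i : Fin n) : (Fin n → ℕ) →+ ℕ := Pi.evalAddMonoidHom (fun _ => ℕ) i

lemma co_apply {n : ℕ} (i : Fin n) (v : Fin n → ℕ) : co i v = v i := rfl

lemma semi_lt {n : ℕ} (i j : Fin n) : IsSemilinearSet {v : Fin n → ℕ | v i < v j} := by
  have h1 : IsSemilinearSet {v : Fin n → ℕ | ∃ e, v i + e + 1 = v j} := by
    apply semi_ex
    convert semi_lin 1 0 (co i.castSucc + co (Fin.last n)) (co j.castSucc) using 1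
    ext v
    show v i.castSucc + v (Fin.last n) + 1 = v j.castSucc ↔
      1 + (v i.castSucc + v (Fin.last n)) = 0 + v j.castSucc
    omega
  convert h1 using 1
  ext v
  show v i < v j ↔ ∃ e, v i + e + 1 = v j
  constructor
  · intro h
    exact ⟨v j - v i - 1, by omega⟩
  · rintro ⟨e, he⟩
    omega

/-- The colouring with at most the number one coloured. -/
def colU (b : Bool) (y : ℕ) : Option Unit := if b = true ∧ y = 1 then some () else none

/-- The value of a variable as a homomorphism; coordinate zero is the bound. -/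
def valHom {k : ℕ} (a : Option (Fin k)) : (Fin (k + 1) → ℕ) →+ ℕ :=
  a.elim 0 fun i => co i.succ

lemma valHom_apply {k : ℕ} (a : Option (Fin k)) (v : Fin (k + 1) → ℕ) :
    valHom a v = val (fun i => v i.succ) a := by
  cases a <;> rfl

/-- The tuples (with the bound as coordinate zero) of a given type. -/
def tySet (b : Bool) (q k : ℕ) (τ : Ty (CodeD Unit) q k) : Set (Fin (k + 1) → ℕ) :=
  {v | (∀ i : Fin k, v i.succ < v 0) ∧
    tpd (domN (v 0)) (codeN (v 0) (colU b)) q k (fun i => v i.succ) = τ}

lemma semi_code (b : Bool) (k : ℕ) (τ : CodeD Unit k) :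
    IsSemilinearSet {v : Fin (k + 1) → ℕ | (∀ i : Fin k, v i.succ < v 0) ∧
      codeN (v 0) (colU b) k (fun i => v i.succ) = τ} := by
  have h0 : IsSemilinearSet (⋂ i : Fin k, {v : Fin (k + 1) → ℕ | v i.succ < v 0}) :=
    IsSemilinearSet.iInter fun i => semi_lt _ _
  have h1 : IsSemilinearSet (⋂ (a : Option (Fin k)) (b : Option (Fin k)) (d : Option (Fin k))
      (c : Bool) (c' : Bool), {v : Fin (k + 1) → ℕ |
        (val (fun i => v i.succ) a + val (fun i => v i.succ) b + c.toNat =
          val (fun i => v i.succ) d + c'.toNat * v 0) = τ.1 a b d c c'}) := by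
    refine IsSemilinearSet.iInter fun a => IsSemilinearSet.iInter fun b =>
      IsSemilinearSet.iInter fun d => IsSemilinearSet.iInter fun c =>
      IsSemilinearSet.iInter fun c' => semi_prop ?_ _
    convert semi_lin c.toNat 0 (valHom a + valHom b) (valHom d + c'.toNat • co 0) using 1
    ext v
    show _ = _ ↔ c.toNat + (valHom a v + valHom b v) = 0 + (valHom d v + c'.toNat • v 0)
    rw [valHom_apply, valHom_apply, valHom_apply, smul_eq_mul]
    constructor <;> intro h <;> omega
  have h2 : IsSemilinearSet (⋂ (a : Fin k) (b : Fin k), {v : Fin (k + 1) → ℕ |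
      (v a.succ < v b.succ) = τ.2.1 a b}) :=
    IsSemilinearSet.iInter fun a => IsSemilinearSet.iInter fun b => semi_prop (semi_lt _ _) _
  have h3 : IsSemilinearSet (⋂ (a : Fin k), {v : Fin (k + 1) → ℕ |
      colU b (v a.succ) = τ.2.2 a}) := by
    refine IsSemilinearSet.iInter fun a => ?_
    have h4 : IsSemilinearSet {v : Fin (k + 1) → ℕ | (v a.succ = 1)} := by
      convert semi_lin 0 1 (co a.succ) (0 : (Fin (k + 1) → ℕ) →+ ℕ) using 1
      ext v
      show v a.succ = 1 ↔ 0 + v a.succ = 1 + 0
      omega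
    have h5 : ∀ (b : Bool) (o : Option Unit),
        IsSemilinearSet {v : Fin (k + 1) → ℕ | colU b (v a.succ) = o} := by
      intro b o
      cases b <;> rcases o with _ | u
      · convert IsSemilinearSet.univ (M := Fin (k + 1) → ℕ) using 1
        ext v
        simp [colU]
      · convert IsSemilinearSet.empty (M := Fin (k + 1) → ℕ) using 1
        ext v
        simp [colU]
      · convert h4.compl using 1
        ext v
        show colU true (v a.succ) = none ↔ ¬ (v a.succ = 1)
        simp [colU]
      · convert h4 using 1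
        ext v
        show colU true (v a.succ) = some u ↔ (v a.succ = 1)
        simp [colU]
    exact h5 b _
  convert h0.inter (h1.inter (h2.inter h3)) using 1
  ext v
  simp only [mem_inter_iff, mem_iInter]
  show ((∀ i : Fin k, v i.succ < v 0) ∧ codeN (v 0) (colU b) k (fun i => v i.succ) = τ) ↔
    (∀ i : Fin k, v i.succ < v 0) ∧ (∀ a b d c c', (_ = _) = _) ∧ (∀ a b, _ = _) ∧
      (∀ a, _ = _)
  refine and_congr Iff.rfl ?_
  constructor
  · rintro rfl
    exact ⟨fun _ _ _ _ _ => rfl, fun _ _ => rfl, fun _ => rfl⟩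
  · rintro ⟨e1, e2, e3⟩
    refine Prod.ext ?_ (Prod.ext ?_ ?_)
    · funext a b d c c'
      exact e1 a b d c c'
    · funext a b
      exact e2 a b
    · funext a
      exact e3 a

lemma semi_tySet (b : Bool) : ∀ (q k : ℕ) (τ : Ty (CodeD Unit) q k),
    IsSemilinearSet (tySet b q k τ)
  | 0, k, τ => semi_code b k τ
  | q + 1, k, τ => by
      have hfin : Finite (Ty (CodeD Unit) q (k + 1)) := inferInstance
      have h1 : ∀ t : Ty (CodeD Unit) q (k + 1), IsSemilinearSet {v : Fin (k + 1) → ℕ |
          ∃ e, (∀ i : Fin k, v i.succ < v 0) ∧ e < v 0 ∧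
            tpd (domN (v 0)) (codeN (v 0) (colU b)) q (k + 1)
              (Fin.snoc (fun i : Fin k => v i.succ) e) = t} := by
        intro t
        apply semi_ex
        convert semi_tySet b q (k + 1) t using 1
        ext v
        have hs : (Fin.snoc (fun i : Fin k => v i.succ.castSucc) (v (Fin.last (k + 1))) :
            Fin (k + 1) → ℕ) = fun i : Fin (k + 1) => v i.succ := by
          funext i
          refine Fin.lastCases ?_ (fun i => ?_) i
          · rw [Fin.snoc_last, Fin.succ_last]
          · rw [Fin.snoc_castSucc, Fin.succ_castSucc]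
        show ((∀ i : Fin k, v i.succ.castSucc < v (Fin.castSucc 0)) ∧
          v (Fin.last (k + 1)) < v (Fin.castSucc 0) ∧
            tpd (domN (v (Fin.castSucc 0))) (codeN (v (Fin.castSucc 0)) (colU b)) q (k + 1)
              (Fin.snoc (fun i : Fin k => v i.succ.castSucc) (v (Fin.last (k + 1)))) = t) ↔
          (∀ i : Fin (k + 1), v i.succ < v 0) ∧
            tpd (domN (v 0)) (codeN (v 0) (colU b)) q (k + 1) (fun i => v i.succ) = t
        rw [hs, Fin.castSucc_zero]
        constructor
        · rintro ⟨a1, a2, a3⟩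
          refine ⟨fun i => ?_, a3⟩
          refine Fin.lastCases ?_ (fun i => ?_) i
          · rw [Fin.succ_last]; exact a2
          · rw [Fin.succ_castSucc]; exact a1 i
        · rintro ⟨a1, a3⟩
          refine ⟨fun i => ?_, ?_, a3⟩
          · have := a1 i.castSucc
            rwa [Fin.succ_castSucc] at this
          · have := a1 (Fin.last k)
            rwa [Fin.succ_last] at this
      have h2 : IsSemilinearSet (⋂ t : Ty (CodeD Unit) q (k + 1), {v : Fin (k + 1) → ℕ |
          (∃ e, (∀ i : Fin k, v i.succ < v 0) ∧ e < v 0 ∧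
            tpd (domN (v 0)) (codeN (v 0) (colU b)) q (k + 1)
              (Fin.snoc (fun i : Fin k => v i.succ) e) = t) = (t ∈ τ.2)}) :=
        IsSemilinearSet.iInter fun t => semi_prop (h1 t) _
      convert (semi_tySet b q k τ.1).inter h2 using 1
      ext v
      simp only [mem_inter_iff, mem_iInter]
      show ((∀ i : Fin k, v i.succ < v 0) ∧
          tpd (domN (v 0)) (codeN (v 0) (colU b)) (q + 1) k (fun i => v i.succ) = τ) ↔
        ((∀ i : Fin k, v i.succ < v 0) ∧
          tpd (domN (v 0)) (codeN (v 0) (colU b)) q k (fun i => v i.succ) = τ.1) ∧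
        ∀ t, (_ = _)
      constructor
      · rintro ⟨a1, rfl⟩
        refine ⟨⟨a1, rfl⟩, fun t => propext ?_⟩
        constructor
        · rintro ⟨e, _, e1, e2⟩
          exact ⟨e, e1, e2⟩
        · rintro ⟨e, e1, e2⟩
          exact ⟨e, a1, e1, e2⟩
      · rintro ⟨⟨a1, a2⟩, a3⟩
        refine ⟨a1, Prod.ext a2 ?_⟩
        ext t
        rw [← a3 t]
        constructor
        · rintro ⟨e, e1, e2⟩
          exact ⟨e, a1, e1, e2⟩
        · rintro ⟨e, _, e1, e2⟩
          exact ⟨e, e1, e2⟩

/-- The types of the initial segments are ultimately periodic. -/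
lemma thetaU_periodic (q : ℕ) : ∃ M D : ℕ, 0 < D ∧ ∀ (b : Bool) (N : ℕ), M ≤ N →
    thetaN q N (colU b) = thetaN q (N + D) (colU b) := by
  classical
  have := Fintype.ofFinite (Ty (CodeD Unit) q 0)
  have h1 : ∀ (z : Bool × Ty (CodeD Unit) q 0), ∃ k p : ℕ, 0 < p ∧ ∀ x ≥ k,
      (thetaN q x (colU z.1) = z.2 ↔ thetaN q (x + p) (colU z.1) = z.2) := by
    rintro ⟨b, τ⟩
    have h2 : IsSemilinearSet {x : ℕ | thetaN q x (colU b) = τ} := by
      let F : ℕ →+ (Fin 1 → ℕ) := AddMonoidHom.pi fun _ => AddMonoidHom.id ℕ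
      convert (semi_tySet b q 0 τ).preimage F using 1
      ext x
      show thetaN q x (colU b) = τ ↔ (∀ i : Fin 0, _) ∧
        tpd (domN x) (codeN x (colU b)) q 0 _ = τ
      have e1 : (fun i : Fin 0 => (F x) i.succ) = Fin.elim0 := by
        funext i; exact i.elim0
      constructor
      · intro h
        refine ⟨fun i => i.elim0, ?_⟩
        rw [← h]
        unfold thetaN
        congr 1
      · rintro ⟨-, h⟩
        rw [← h]
        unfold thetaN
        congr 1
        exact e1.symm
    obtain ⟨k, p, hp, hk⟩ := Nat.isSemilinearSet_iff_ultimately_periodic.1 h2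
    exact ⟨k, p, hp, hk⟩
  choose k p hp hk using h1
  refine ⟨Finset.univ.sup k, ∏ z, p z, Finset.prod_pos fun z _ => hp z, ?_⟩
  intro b N hN
  have h3 : k (b, thetaN q N (colU b)) ≤ N :=
    le_trans (Finset.le_sup (f := k) (Finset.mem_univ _)) hN
  obtain ⟨e, he⟩ : p (b, thetaN q N (colU b)) ∣ ∏ z, p z :=
    Finset.dvd_prod_of_mem _ (Finset.mem_univ _)
  have h4 : ∀ j : ℕ, thetaN q (N + p (b, thetaN q N (colU b)) * j) (colU b) =
      thetaN q N (colU b) := by
    intro j
    induction j with
    | zero => simp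
    | succ j ih =>
      have h5 := (hk (b, thetaN q N (colU b))
        (N + p (b, thetaN q N (colU b)) * j) (by omega)).1 ih
      rw [Nat.mul_succ, ← Nat.add_assoc]
      exact h5
  rw [he]
  exact (h4 e).symm

/-- Types transfer along maps of codes. -/
lemma tpd_map {C C' : ℕ → Type} {D D' : Type} (G : ∀ k, C k → C' k) {dom : Set D}
    {dom' : Set D'} {code : ∀ k, (Fin k → D) → C k} {code' : ∀ k, (Fin k → D') → C k} :
    ∀ {q k : ℕ} {x : Fin k → D} {x' : Fin k → D'},
      tpd dom code q k x = tpd dom' code' q k x' →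
      tpd dom (fun k x => G k (code k x)) q k x = tpd dom' (fun k x => G k (code' k x)) q k x'
  | 0, k, _, _, h => congrArg (G k) h
  | q + 1, k, x, x', h => by
      apply tpd_succ_eq
      · exact tpd_map G (tpd_fst h)
      · intro y hy
        obtain ⟨y', hy', he⟩ := tpd_forth h y hy
        exact ⟨y', hy', tpd_map G he⟩
      · intro y hy
        obtain ⟨y', hy', he⟩ := tpd_forth h.symm y hy
        exact ⟨y', hy', (tpd_map G he).symm⟩

/-- The colouring of the number one. -/
def col1 {Γ : Type} (c : Option Γ) (y : ℕ) : Option Γ := if y = 1 then c else none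

/-- The types of initial segments with the number one coloured are ultimately periodic, with
bounds that depend only on the rank. -/
lemma theta1_periodic (q : ℕ) : ∃ M D : ℕ, 0 < D ∧ ∀ (Γ : Type) (c : Option Γ) (N : ℕ),
    M ≤ N → thetaN q N (col1 c) = thetaN q (N + D) (col1 c) := by
  obtain ⟨M, D, hD, h⟩ := thetaU_periodic q
  refine ⟨M, D, hD, ?_⟩
  intro Γ c N hN
  have h1 := h c.isSome N hN
  let G : ∀ k, CodeD Unit k → CodeD Γ k := fun k z => (z.1, z.2.1, fun a => (z.2.2 a).bind fun _ => c)
  have h2 := tpd_map G h1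
  have h3 : ∀ N : ℕ, (fun k (x : Fin k → ℕ) => G k (codeN N (colU c.isSome) k x)) =
      codeN N (col1 c) := by
    intro N
    funext k x
    refine Prod.ext rfl (Prod.ext rfl ?_)
    funext a
    show (colU c.isSome (x a)).bind (fun _ => c) = col1 c (x a)
    unfold colU col1
    rcases c with _ | c
    · simp
    · by_cases h : x a = 1
      · simp [h]
      · simp [h]
  rw [h3, h3] at h2
  exact h2

end AddInv
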