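import Pool.Agent.H66.AI.Block
import Pool.Agent.H66.AI.PSet

/-!
# Pumping with a linear threshold
-/

namespace AddInv

section

variable {B : Type}

/-- A word shorter than two blocks, as a numbered structure with at most one coloured block. -/
lemma exists_col (P : ℕ) (u : List B) (hu : u.length < 2 * P) :
    ∃ (c : Option (Cell B P)) (rem : List B) (δ : ℕ), rem.length < P ∧
      (∀ g, c = some g → ∀ j, (g j).isSome) ∧
      ∀ q, 2 ≤ q → spell P (q + δ) (col1 c) rem = u ∧ blanks P (q + δ) (col1 c) = q := by
  rcases Nat.lt_or_ge u.length P with h | h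
  · refine ⟨none, u, 0, h, by simp, ?_⟩
    intro q _
    have hc : ∀ x, (col1 (none : Option (Cell B P)) x) = none := by
      intro x; unfold col1; split_ifs <;> rfl
    constructor
    · unfold spell
      simp only [hc]
      simp
    · unfold blanks
      simp only [hc]
      simp
  · refine ⟨some fun j => u[(j : ℕ)]?, u.drop P, 1, by simp; omega, ?_, ?_⟩
    · rintro g rfl' j
      have : g = fun j : Fin P => u[(j : ℕ)]? := (Option.some.inj rfl').symm
      subst this
      show (u[(j : ℕ)]?).isSome = true
      rw [List.getElem?_eq_getElem (by have := j.2; omega)]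
      rfl
    · intro q hq
      have hr : List.range (q + 1) = [0, 1] ++ (List.range (q - 1)).map (fun x => 2 + x) := by
        have : q + 1 = 2 + (q - 1) := by omega
        rw [this, List.range_add]
        rfl
      have hc2 : ∀ x, col1 (some fun j : Fin P => u[(j : ℕ)]?) (2 + x) = none := by
        intro x; unfold col1; rw [if_neg (by omega)]
      have hc0 : col1 (some fun j : Fin P => u[(j : ℕ)]?) 0 = none := rfl
      have hc1 : col1 (some fun j : Fin P => u[(j : ℕ)]?) 1 =
        some fun j : Fin P => u[(j : ℕ)]? := rfl
      constructor
      · unfold spell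
        rw [hr, List.flatMap_append, List.flatMap_map]
        simp only [hc2]
        rw [List.flatMap_cons, List.flatMap_cons, hc0, hc1]
        simp only [Option.elim]
        have h1 := filterMap_finRange_getElem P u 0 (by omega)
        simp only [zero_add, List.drop_zero] at h1
        rw [h1]
        have h3 : (List.range (q - 1)).flatMap (fun _ => ([] : List B)) = [] := by
          rw [List.flatMap_eq_nil_iff]
          intros; rfl
        simp only [List.flatMap_nil, List.append_nil, List.nil_append]
        rw [h3, List.append_nil]
        exact List.take_append_drop P u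
      · unfold blanks
        rw [hr, List.filter_append, List.filter_map, List.length_append, List.length_map]
        have h2 : (List.range (q - 1)).filter ((fun x =>
            (col1 (some fun j : Fin P => u[(j : ℕ)]?) x).isNone) ∘ fun x => 2 + x) =
            List.range (q - 1) := by
          rw [List.filter_eq_self]
          intro x _
          simp only [Function.comp, hc2]
          rfl
        rw [h2, List.length_range, List.filter_cons_of_pos (by rw [hc0]; rfl),
          List.filter_cons_of_neg (by rw [hc1]; simp)]
        simp
        omega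

end

section

variable {A : Type} {b : ℕ}

lemma size_flg (x : Fin b → List A) : (flg x).length = size x := by
  unfold flg size
  rw [List.length_flatMap]
  simp only [List.length_map]
  rw [← List.sum_ofFn, List.ofFn_eq_map]

lemma replicate_split {α : Type} (l : List α) (r D : ℕ) : ∀ q : ℕ,
    (List.replicate (r + D * q) l).flatten = (List.replicate r l).flatten ++
      (List.replicate q (List.replicate D l).flatten).flatten
  | 0 => by simp
  | q + 1 => by
      have h1 : r + D * (q + 1) = (r + D * q) + D := by ring
      rw [h1, List.replicate_add, List.flatten_append, replicate_split l r D q,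
        List.replicate_add q 1, List.flatten_append, List.append_assoc]
      simp

/-- Repeating the factors `x t Z t^r` with the blocks `Z t^D`. -/
lemma pump_split (x Z : Fin b → List A) (r D q : ℕ) :
    pump x Z (r + D * q) = pump (fun t => x t ++ (List.replicate r (Z t)).flatten)
      (fun t => (List.replicate D (Z t)).flatten) q := by
  unfold pump
  apply List.flatMap_congr
  intro t _
  rw [replicate_split, List.append_assoc]

lemma size_pow (Z : Fin b → List A) (D : ℕ) :
    size (fun t => (List.replicate D (Z t)).flatten) = D * size Z := by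
  unfold size
  rw [Finset.mul_sum]
  apply Finset.sum_congr rfl
  intro t _
  rw [List.length_flatten]
  simp

lemma size_append (x y : Fin b → List A) : size (fun t => x t ++ y t) = size x + size y := by
  unfold size
  rw [← Finset.sum_add_distrib]
  apply Finset.sum_congr rfl
  intro t _
  rw [List.length_append]

lemma pump_ne_nil (x Z : Fin b → List A) (hZ : 0 < size Z) (i : ℕ) (hi : 0 < i) :
    pump x Z i ≠ [] := by
  intro h
  unfold pump at h
  rw [List.flatMap_eq_nil_iff] at h
  have h1 : size Z = 0 := by
    unfold size
    apply Finset.sum_eq_zero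
    intro t _
    have h2 := h t (List.mem_finRange t)
    obtain ⟨i, rfl⟩ : ∃ i', i = i' + 1 := ⟨i - 1, by omega⟩
    rw [List.replicate_succ, List.flatten_cons, List.append_eq_nil_iff,
      List.append_eq_nil_iff] at h2
    rw [h2.2.1]; rfl
  omega

/-- Membership through coloured blocks, in terms of `pump`. -/
lemma pump_mem_iff {f : Fml A 0} (hf : AddInvariant f) (y W : Fin b → List A)
    (hP : 0 < (flg W).length) (N : ℕ) (hN : 0 < N)
    (col : ℕ → Option (Cell (A × Fin b) (flg W).length)) (rem : List (A × Fin b))
    (hrem : rem.length < (flg W).length)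
    (hcol : ∀ x < N, ∀ g, col x = some g → ∀ j, (g j).isSome) (q : ℕ) (hq : 0 < q)
    (h1 : spell (flg W).length N col rem = flg y) (h2 : blanks (flg W).length N col = q) :
    pump y W q ∈ langOf f ↔ SatM (strOf (flg W) hP keyF letF N col rem) f Fin.elim0 := by
  have h := mem_iff_block (flg W) hP hf N hN col rem hrem hcol
  rw [h1, h2, fill_flg] at h
  rw [h, and_iff_right]
  exact pump_ne_nil y W (by rw [← size_flg]; exact hP) q hq

/-- Periodicity with the period `D * D₀` as soon as a block of length `D * size Z` is longer than
the word. -/
lemma period_block {f : Fml A 0} (hf : AddInvariant f) {M D₀ : ℕ}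
    (hper : ∀ (Γ : Type) (c : Option Γ) (N : ℕ), M ≤ N →
      thetaN (rk f) N (col1 c) = thetaN (rk f) (N + D₀) (col1 c))
    (x Z : Fin b → List A) (hZ : 0 < size Z) (D : ℕ) (hx : size x < D * size Z) (i : ℕ)
    (hi : M + 2 ≤ i / D) :
    pump x Z i ∈ langOf f ↔ pump x Z (i + D * D₀) ∈ langOf f := by
  have hD : 0 < D := by
    rcases Nat.eq_zero_or_pos D with h | h
    · subst h; omega
    · exact h
  set r := i % D with hr
  set q := i / D with hq
  have hi1 : i = r + D * q := (Nat.mod_add_div i D).symm
  have hrD : r < D := Nat.mod_lt _ hD
  set y : Fin b → List A := fun t => x t ++ (List.replicate r (Z t)).flatten with hy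
  set W : Fin b → List A := fun t => (List.replicate D (Z t)).flatten with hW
  have hWl : (flg W).length = D * size Z := by rw [size_flg, hW, size_pow]
  have hyl : (flg y).length = size x + r * size Z := by
    rw [size_flg, hy, size_append, size_pow]
  have hP : 0 < (flg W).length := by rw [hWl]; positivity
  have hlt : (flg y).length < 2 * (flg W).length := by
    rw [hyl, hWl]
    have : r * size Z ≤ D * size Z := Nat.mul_le_mul_right _ hrD.le
    omega
  obtain ⟨c, rem, δ, hrem, htot, hspell⟩ := exists_col (flg W).length (flg y) hlt
  have hcol : ∀ N : ℕ, ∀ x < N, ∀ g, col1 c x = some g → ∀ j, (g j).isSome := by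
    intro N x _ g hg
    unfold col1 at hg
    split_ifs at hg
    exact htot g hg
  have e1 : i + D * D₀ = r + D * (q + D₀) := by rw [mul_add]; omega
  rw [e1]
  conv_lhs => rw [hi1]
  rw [pump_split, pump_split]
  have s1 := hspell q (by omega)
  have s2 := hspell (q + D₀) (by omega)
  rw [pump_mem_iff hf y W hP (q + δ) (by omega) (col1 c) rem hrem (hcol _) q (by omega) s1.1
      s1.2,
    pump_mem_iff hf y W hP (q + D₀ + δ) (by omega) (col1 c) rem hrem (hcol _) (q + D₀)
      (by omega) s2.1 s2.2]
  apply ef_sentence (flg W) hP keyF letF _ _ (by omega) (by omega) _ _ _ hrem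
  have h3 := hper _ c (q + δ) (by omega)
  have h4 : q + δ + D₀ = q + D₀ + δ := by omega
  rw [h3, h4]

/-- **Pumping with a linear threshold.** -/
theorem linear_pumping {f : Fml A 0} (hf : AddInvariant f) : ∃ C D : ℕ, 0 < D ∧
    ∀ (b : ℕ) (x Z : Fin b → List A) (i : ℕ), C * (size x + size Z) ≤ i * size Z →
      (pump x Z i ∈ langOf f ↔ pump x Z (i + D) ∈ langOf f) := by
  obtain ⟨M, D₀, hD₀, hper⟩ := theta1_periodic (rk f)
  refine ⟨2 * (M + 2), D₀, hD₀, ?_⟩
  intro b x Z i hi
  rcases Nat.eq_zero_or_pos (size Z) with hZ | hZ
  · have hZt : ∀ t, Z t = [] := by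
      intro t
      unfold size at hZ
      have := (Finset.sum_eq_zero_iff.1 hZ) t (Finset.mem_univ t)
      exact List.eq_nil_of_length_eq_zero this
    have h1 : ∀ i, pump x Z i = pump x Z 0 := by
      intro i
      unfold pump
      apply List.flatMap_congr
      intro t _
      rw [hZt t]
      congr 1
      have : ∀ i : ℕ, (List.replicate i ([] : List A)).flatten = [] := by
        intro i
        induction i with
        | zero => rfl
        | succ i ih => rw [List.replicate_succ, List.flatten_cons, ih]; rfl
      rw [this, this]
    rw [h1 i, h1 (i + D₀)]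
  · set X := size x / size Z with hX
    have hX1 : size x < (X + 1) * size Z := by
      rw [hX, mul_comm]; exact Nat.lt_mul_div_succ (size x) hZ
    have hX2 : size x < (X + 2) * size Z := by
      have : (X + 1) * size Z ≤ (X + 2) * size Z := Nat.mul_le_mul_right _ (by omega)
      omega
    have hX3 : X * size Z ≤ size x := Nat.div_mul_le_self _ _
    have hi1 : 2 * (M + 2) * ((X + 1) * size Z) ≤ i * size Z := by
      refine le_trans ?_ hi
      apply Nat.mul_le_mul_left
      rw [Nat.succ_mul]
      omega
    have hi2 : 2 * (M + 2) * (X + 1) ≤ i := by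
      rw [← mul_assoc] at hi1
      exact Nat.le_of_mul_le_mul_right hi1 hZ
    have hi3 : (M + 2) * (X + 2) ≤ i := by
      refine le_trans ?_ hi2
      nlinarith
    have hi4 : (M + 2) * (X + 1) ≤ i := by
      refine le_trans ?_ hi2
      nlinarith
    have p1 := period_block hf hper x Z hZ (X + 2) hX2 i
      ((Nat.le_div_iff_mul_le (Nat.succ_pos _)).2 hi3)
    have p2 := period_block hf hper x Z hZ (X + 1) hX1 (i + D₀)
      ((Nat.le_div_iff_mul_le (Nat.succ_pos _)).2 (le_trans hi4 (Nat.le_add_right _ _)))
    have e : i + D₀ + (X + 1) * D₀ = i + (X + 2) * D₀ := by ring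
    rw [e] at p2
    exact p1.trans p2.symm

end

end AddInv
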