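import Pool.Agent.H66.AI.Real

/-!
# Lists of labels
-/

namespace AddInv

section

variable {B : Type}

/-- The word `u` cut in blocks of length `P`, the incomplete block at the end left out. -/
def grp (P : ℕ) (u : List B) : List (Cell B P) :=
  (List.range (u.length / P)).map fun τ j => u[τ * P + j]?

/-- The incomplete block at the end. -/
def remd (P : ℕ) (u : List B) : List B := u.drop (u.length / P * P)

lemma remd_length (P : ℕ) (u : List B) : (remd P u).length = u.length % P := by
  unfold remd
  rw [List.length_drop]
  have := Nat.div_add_mod u.length P
  rw [mul_comm] at this
  omega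

lemma div_append (P : ℕ) (hP : 0 < P) (u z : List B) :
    (u ++ z).length / P = u.length / P + (remd P u ++ z).length / P := by
  rw [List.length_append, List.length_append, remd_length]
  have h1 := Nat.div_add_mod u.length P
  have h2 : u.length + z.length = (u.length % P + z.length) + P * (u.length / P) := by omega
  rw [h2, Nat.add_mul_div_left _ _ hP, add_comm]

lemma remd_append (P : ℕ) (hP : 0 < P) (u z : List B) :
    remd P (u ++ z) = remd P (remd P u ++ z) := by
  conv_lhs => unfold remd
  rw [div_append P hP u z]
  conv_rhs => unfold remd
  rw [add_mul, ← List.drop_drop]
  congr 1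
  rw [List.drop_append_of_le_length (Nat.div_mul_le_self _ _)]

lemma grp_append (P : ℕ) (hP : 0 < P) (u z : List B) :
    grp P (u ++ z) = grp P u ++ grp P (remd P u ++ z) := by
  conv_lhs => unfold grp
  rw [div_append P hP u z, List.range_add, List.map_append]
  congr 1
  · unfold grp
    apply List.map_congr_left
    intro τ hτ
    rw [List.mem_range] at hτ
    funext j
    rw [List.getElem?_append_left]
    have h1 : (τ + 1) * P ≤ u.length / P * P := Nat.mul_le_mul_right _ hτ
    have h2 := Nat.div_mul_le_self u.length P
    have h3 := j.2
    rw [Nat.succ_mul] at h1
    omega
  · rw [List.map_map]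
    unfold grp
    apply List.map_congr_left
    intro τ _
    funext j
    simp only [Function.comp]
    have h1 : remd P u ++ z = (u ++ z).drop (u.length / P * P) := by
      rw [List.drop_append_of_le_length (Nat.div_mul_le_self _ _)]
      rfl
    rw [h1, List.getElem?_drop]
    congr 1
    ring

/-- The contents of complete blocks are complete. -/
lemma grp_total (P : ℕ) (u : List B) (g : Cell B P) (hg : g ∈ grp P u) (j : Fin P) :
    (g j).isSome := by
  unfold grp at hg
  rw [List.mem_map] at hg
  obtain ⟨τ, hτ, rfl⟩ := hg
  rw [List.mem_range] at hτ
  have h1 : (τ + 1) * P ≤ u.length / P * P := Nat.mul_le_mul_right _ hτ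
  have h2 := Nat.div_mul_le_self u.length P
  have h3 := j.2
  rw [Nat.succ_mul] at h1
  show (u[τ * P + (j : ℕ)]?).isSome = true
  rw [List.getElem?_eq_getElem (by omega)]
  rfl

/-- Reading a list through the offsets. -/
lemma filterMap_finRange_getElem (P : ℕ) (u : List B) (s : ℕ) (h : s + P ≤ u.length) :
    (List.finRange P).filterMap (fun j : Fin P => u[s + (j : ℕ)]?) = (u.drop s).take P := by
  have h1 : (List.finRange P).filterMap (fun j : Fin P => u[s + (j : ℕ)]?) =
      (List.range P).filterMap (fun j => u[s + j]?) := by
    rw [← List.map_coe_finRange_eq_range, List.filterMap_map]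
    rfl
  rw [h1]
  clear h1
  induction P with
  | zero => simp
  | succ P ih =>
    rw [List.range_succ, List.filterMap_append, ih (by omega), List.take_add_one]
    congr 1
    have h2 : u[s + P]? = some (u[s + P]'(by omega)) := List.getElem?_eq_getElem (by omega)
    rw [List.getElem?_drop, h2, List.filterMap_cons, h2]
    rfl

lemma filterMap_range_getElem (u : List B) :
    (List.range u.length).filterMap (fun j => u[j]?) = u := by
  have h := filterMap_finRange_getElem u.length u 0 (by omega)
  simp only [zero_add, List.drop_zero, List.take_length] at h
  rw [← List.map_coe_finRange_eq_range, List.filterMap_map]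
  exact h

/-- The word is recovered from the blocks. -/
lemma grp_flatMap (P : ℕ) (u : List B) :
    ((grp P u).flatMap fun g => (List.finRange P).filterMap g) ++ remd P u = u := by
  have key : ∀ m, m ≤ u.length / P → (List.range m).flatMap
      (fun τ => (List.finRange P).filterMap (fun j : Fin P => u[τ * P + (j : ℕ)]?)) =
        u.take (m * P) := by
    intro m
    induction m with
    | zero => simp
    | succ m ih =>
      intro hm
      have h1 : (m + 1) * P ≤ u.length / P * P := Nat.mul_le_mul_right _ hm
      have h2 := Nat.div_mul_le_self u.length P
      rw [List.range_succ, List.flatMap_append, ih (by omega), Nat.succ_mul, List.take_add]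
      congr 1
      simp only [List.flatMap_cons, List.flatMap_nil, List.append_nil]
      exact filterMap_finRange_getElem P u (m * P) (by rw [Nat.succ_mul] at h1; omega)
  unfold grp
  rw [List.flatMap_map, key _ le_rfl]
  exact List.take_append_drop _ _

/-- Numbers below `2 ^ s` read through the colours. -/
lemma flatMap_color {Γ β : Type} (h : Option Γ → List β) (h0 : h none = []) :
    ∀ w : List (Option Γ), (List.range (2 ^ w.length)).flatMap (fun x => h (color w x)) =
      w.flatMap h := by
  intro w
  induction w using List.reverseRecOn with
  | nil =>
    simp [color, h0]
  | append_singleton w c ih =>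
    rw [List.length_append, List.length_singleton, pow_succ, mul_two, List.range_add,
      List.flatMap_append, List.flatMap_append]
    congr 1
    · rw [← ih]
      apply List.flatMap_congr
      intro x hx
      rw [List.mem_range] at hx
      have := color_append w [c] x 0 hx
      simp only [mul_zero, add_zero, if_true] at this
      rw [this]
    · rw [List.flatMap_map]
      have h1 : ∀ x ∈ List.range (2 ^ w.length),
          h (color (w ++ [c]) (2 ^ w.length + x)) = if x = 0 then h c else [] := by
        intro x hx
        rw [List.mem_range] at hx
        have := color_append w [c] x 1 hx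
        rw [mul_one, add_comm, if_neg one_ne_zero] at this
        rw [this]
        by_cases hx0 : x = 0
        · rw [if_pos hx0, if_pos hx0]
          have h2 : color [c] 1 = c := by
            have := color_pow [c] 0
            simpa using this
          rw [h2]
        · rw [if_neg hx0, if_neg hx0, h0]
      rw [List.flatMap_congr h1]
      have h2 : ∀ n, 0 < n → (List.range n).flatMap (fun x => if x = 0 then h c else []) =
          h c := by
        intro n hn
        obtain ⟨n, rfl⟩ : ∃ n', n = n' + 1 := ⟨n - 1, by omega⟩
        rw [List.range_succ_eq_map, List.flatMap_cons, List.flatMap_map]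
        simp
      rw [h2 _ (by positivity)]
      simp

/-- There are at least as many uncoloured numbers as digits. -/
lemma many_none {Γ : Type} (w : List (Option Γ)) :
    w.length ≤ ((List.range (2 ^ w.length)).filter fun x => (color w x).isNone).length := by
  have h1 := flatMap_color (fun c : Option Γ => if c = none then [] else [()]) (by simp) w
  have h2 : ∀ L : List ℕ, (L.flatMap (fun x => if color w x = none then [] else [()])).length +
      (L.filter fun x => (color w x).isNone).length = L.length := by
    intro L
    induction L with
    | nil => simp
    | cons x L ih =>
      by_cases hx : color w x = none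
      · rw [List.flatMap_cons, if_pos hx, List.filter_cons_of_pos (by simpa using hx),
          List.length_append, List.length_nil, List.length_cons, List.length_cons]
        omega
      · rw [List.flatMap_cons, if_neg hx, List.filter_cons_of_neg (by simpa using hx),
          List.length_append, List.length_cons, List.length_nil, List.length_cons]
        omega
  have h3 := h2 (List.range (2 ^ w.length))
  rw [h1, List.length_range] at h3
  have h4 : ∀ w : List (Option Γ),
      (w.flatMap fun c : Option Γ => if c = none then [] else [()]).length ≤ w.length := by
    intro w
    induction w with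
    | nil => simp
    | cons c w ih =>
      rw [List.flatMap_cons, List.length_append, List.length_cons]
      split_ifs
      · rw [List.length_nil]; omega
      · rw [List.length_cons, List.length_nil]; omega
  have h5 := h4 w
  have h6 : 2 * w.length ≤ 2 ^ w.length := by
    rcases Nat.eq_zero_or_pos w.length with h | h
    · rw [h]; norm_num
    · obtain ⟨s, hs⟩ : ∃ s, w.length = s + 1 := ⟨w.length - 1, by omega⟩
      rw [hs, pow_succ]
      have := Nat.lt_two_pow_self (n := s)
      omega
  omega

lemma color_mem {Γ : Type} (w : List (Option Γ)) (x : ℕ) (g : Γ) (h : color w x = some g) :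
    some g ∈ w := by
  unfold color at h
  split_ifs at h
  rcases h1 : w[Nat.log 2 x]? with _ | c
  · rw [h1] at h; exact absurd h (by simp)
  · rw [h1] at h
    have h2 : c = some g := by simpa using h
    rw [← h2]
    exact List.mem_of_getElem? h1

end

section

variable {B : Type} (zs : List B) (hP : 0 < zs.length)

lemma range_mul (P N : ℕ) :
    List.range (P * N) = (List.range N).flatMap fun x =>
      (List.finRange P).map fun j : Fin P => x * P + (j : ℕ) := by
  induction N with
  | zero => simp
  | succ N ih =>
    rw [mul_add, mul_one, List.range_add, ih, List.range_succ, List.flatMap_append]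
    congr 1
    simp only [List.flatMap_cons, List.flatMap_nil, List.append_nil]
    rw [← List.map_coe_finRange_eq_range, List.map_map]
    apply List.map_congr_left
    intro j _
    simp [mul_comm]

/-- All labels, listed by their numbers. -/
def labels (N : ℕ) (col : ℕ → Option (Cell B zs.length)) (rem : List B) : List (B × Bool) :=
  (List.range (zs.length * N + rem.length)).filterMap (lab zs hP N col rem)

lemma lab_block (N : ℕ) (col : ℕ → Option (Cell B zs.length)) (rem : List B) (x : ℕ)
    (hx : x < N) (j : Fin zs.length) :
    lab zs hP N col rem (x * zs.length + j) = labG zs (col x) j := by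
  have := lab_num zs hP N col rem x false hx j
  unfold num at this
  simpa using this

lemma lab_rem (N : ℕ) (hN : 0 < N) (col : ℕ → Option (Cell B zs.length)) (rem : List B)
    (hrem : rem.length < zs.length) (j : ℕ) (hj : j < rem.length) :
    lab zs hP N col rem (zs.length * N + j) = (rem[j]?).map fun b => (b, false) := by
  have := lab_num zs hP N col rem 0 true hN ⟨j, by omega⟩
  unfold num at this
  simp only [Bool.toNat_true, one_mul, zero_add, if_true] at this
  rw [mul_comm]
  exact this

lemma labels_eq (N : ℕ) (hN : 0 < N) (col : ℕ → Option (Cell B zs.length)) (rem : List B)
    (hrem : rem.length < zs.length) :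
    labels zs hP N col rem = ((List.range N).flatMap fun x =>
      (List.finRange zs.length).filterMap (labG zs (col x))) ++
        rem.map fun b => (b, false) := by
  unfold labels
  rw [List.range_add, List.filterMap_append, range_mul, List.filterMap_flatMap]
  congr 1
  · apply List.flatMap_congr
    intro x hx
    rw [List.mem_range] at hx
    rw [List.filterMap_map]
    apply List.filterMap_congr
    intro j _
    exact lab_block zs hP N col rem x hx j
  · rw [List.filterMap_map]
    have h1 : ∀ j ∈ List.range rem.length,
        ((lab zs hP N col rem) ∘ fun x => zs.length * N + x) j =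
          (rem[j]?).map fun b => (b, false) := by
      intro j hj
      rw [List.mem_range] at hj
      exact lab_rem zs hP N hN col rem hrem j hj
    rw [List.filterMap_congr h1]
    have h2 := filterMap_range_getElem rem
    conv_rhs => rw [← h2]
    rw [List.map_filterMap]

/-- The labels with a given mark. -/
def sel (c : Bool) (l : List (B × Bool)) : List B :=
  l.filterMap fun z => if z.2 = c then some z.1 else none

omit zs hP in
lemma sel_append (c : Bool) (l l' : List (B × Bool)) : sel c (l ++ l') = sel c l ++ sel c l' :=
  List.filterMap_append

omit zs hP in
lemma sel_flatMap {α : Type} (c : Bool) (L : List α) (g : α → List (B × Bool)) :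
    sel c (L.flatMap g) = L.flatMap fun x => sel c (g x) := by
  unfold sel
  rw [List.filterMap_flatMap]

omit zs hP in
lemma sel_false_rem (rem : List B) : sel false (rem.map fun b => (b, false)) = rem := by
  unfold sel
  rw [List.filterMap_map]
  simp

omit zs hP in
lemma sel_true_rem (rem : List B) : sel true (rem.map fun b => (b, false)) = [] := by
  unfold sel
  rw [List.filterMap_map]
  simp

omit hP in
lemma sel_false_block (g : Option (Cell B zs.length)) :
    sel false ((List.finRange zs.length).filterMap (labG zs g)) =
      g.elim [] fun g => (List.finRange zs.length).filterMap g := by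
  unfold sel
  rw [List.filterMap_filterMap]
  cases g with
  | none =>
    simp [labG]
  | some g =>
    simp only [Option.elim]
    apply List.filterMap_congr
    intro j _
    simp only [labG]
    cases g j <;> simp

omit hP in
lemma sel_true_block (g : Option (Cell B zs.length)) :
    sel true ((List.finRange zs.length).filterMap (labG zs g)) =
      if g = none then zs else [] := by
  unfold sel
  rw [List.filterMap_filterMap]
  cases g with
  | none =>
    have h1 : (fun j : Fin zs.length => (labG zs none j).bind
        fun z => if z.2 = true then some z.1 else none) =
        fun j : Fin zs.length => zs[0 + (j : ℕ)]? := by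
      funext j
      simp [labG]
    rw [h1, filterMap_finRange_getElem zs.length zs 0 (by omega)]
    simp
  | some g =>
    rw [if_neg (by simp)]
    rw [List.filterMap_eq_nil_iff]
    intro j _
    simp only [labG]
    cases g j <;> simp

/-- The letters of the coloured blocks and the remainder. -/
def spell (P N : ℕ) (col : ℕ → Option (Cell B P)) (rem : List B) : List B :=
  ((List.range N).flatMap fun x => (col x).elim [] fun g =>
    (List.finRange P).filterMap g) ++ rem

/-- The number of blocks without colour. -/
def blanks (P N : ℕ) (col : ℕ → Option (Cell B P)) : ℕ :=
  ((List.range N).filter fun x => (col x).isNone).length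

omit hP zs in
lemma flatMap_none {Γ β : Type} (l : List β) (col : ℕ → Option Γ) (L : List ℕ)
    [∀ x, Decidable (col x = none)] :
    L.flatMap (fun x => if col x = none then l else []) =
      (List.replicate (L.filter fun x => (col x).isNone).length l).flatten := by
  induction L with
  | nil => simp
  | cons x L ih =>
    rw [List.flatMap_cons, ih]
    by_cases hx : col x = none
    · rw [if_pos hx, List.filter_cons_of_pos (by simpa using hx), List.length_cons,
        List.replicate_succ, List.flatten_cons]
    · rw [if_neg hx, List.filter_cons_of_neg (by simpa using hx), List.nil_append]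

/-- The unmarked labels spell the word. -/
lemma sel_false_labels (N : ℕ) (hN : 0 < N) (col : ℕ → Option (Cell B zs.length))
    (rem : List B) (hrem : rem.length < zs.length) :
    sel false (labels zs hP N col rem) = spell zs.length N col rem := by
  rw [labels_eq zs hP N hN col rem hrem, sel_append, sel_flatMap, sel_false_rem]
  unfold spell
  congr 1
  apply List.flatMap_congr
  intro x _
  exact sel_false_block zs (col x)

/-- The marked labels spell copies of `zs`. -/
lemma sel_true_labels (N : ℕ) (hN : 0 < N) (col : ℕ → Option (Cell B zs.length))
    (rem : List B) (hrem : rem.length < zs.length) :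
    sel true (labels zs hP N col rem) =
      (List.replicate (blanks zs.length N col) zs).flatten := by
  classical
  rw [labels_eq zs hP N hN col rem hrem, sel_append, sel_flatMap, sel_true_rem,
    List.append_nil]
  unfold blanks
  rw [← flatMap_none zs col]
  apply List.flatMap_congr
  intro x _
  rw [sel_true_block zs (col x)]

/-- All numbers have a label. -/
lemma lab_isSome (N : ℕ) (hN : 0 < N) (col : ℕ → Option (Cell B zs.length))
    (rem : List B) (hrem : rem.length < zs.length)
    (hcol : ∀ x < N, ∀ g, col x = some g → ∀ j, (g j).isSome) (m : ℕ)
    (hm : m < zs.length * N + rem.length) :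
    (lab zs hP N col rem m).isSome := by
  obtain ⟨y, τ, j, c1, c2, c3, rfl⟩ := exists_num N hN _ hrem m hm
  rw [lab_num zs hP _ _ _ _ _ c1]
  cases τ
  · simp only [Bool.false_eq_true, if_false]
    cases hc : col y with
    | none => simp [labG]
    | some g =>
      have := hcol y c1 g hc j
      simp only [labG, Option.isSome_map]
      exact this
  · simp only [if_true]
    have := c3 rfl
    simp only [labG, Option.isSome_map, remCell]
    rw [List.getElem?_eq_getElem this]
    rfl

/-- The word of blocks of `u` with `r` blanks. -/
def wd (P : ℕ) (u : List B) (r : ℕ) : List (Option (Cell B P)) :=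
  (grp P u).map some ++ List.replicate r none

omit hP in
lemma wd_spell (u : List B) (r : ℕ) :
    spell zs.length (2 ^ (wd zs.length u r).length) (color (wd zs.length u r))
      (remd zs.length u) = u := by
  unfold spell
  rw [flatMap_color (fun c : Option (Cell B zs.length) => c.elim [] fun g =>
    (List.finRange zs.length).filterMap g) rfl]
  unfold wd
  rw [List.flatMap_append, List.flatMap_map]
  have h1 : (List.replicate r (none : Option (Cell B zs.length))).flatMap
      (fun g => g.elim [] fun g => (List.finRange zs.length).filterMap g) = [] := by
    rw [List.flatMap_eq_nil_iff]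
    intro x hx
    rw [List.eq_of_mem_replicate hx]
    rfl
  rw [h1, List.append_nil]
  exact grp_flatMap zs.length u

omit hP zs in
lemma wd_total (P : ℕ) (u : List B) (r : ℕ) (x : ℕ) (g : Cell B P)
    (hg : color (wd P u r) x = some g) (j : Fin P) : (g j).isSome := by
  have h1 := color_mem _ _ _ hg
  unfold wd at h1
  rw [List.mem_append] at h1
  rcases h1 with h1 | h1
  · rw [List.mem_map] at h1
    obtain ⟨g', hg', he⟩ := h1
    have he' : g' = g := Option.some.inj he
    subst he'
    exact grp_total _ _ _ hg' j
  · have := List.eq_of_mem_replicate h1
    exact absurd this (by simp)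

end

end AddInv
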