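import Pool.Agent.H66.AI.Word
import Pool.Agent.H66.AI.Expand

/-!
# Languages whose long words are never longest in their syntactic class
-/

namespace AddInv

variable {A : Type}

/-- Membership in a definable language, with the identity numbering. -/
lemma mem_iff_sat {f : Fml A 0} (hf : AddInvariant f) (w : List A) :
    w ∈ langOf f ↔ w ≠ [] ∧ Sat w (Equiv.refl _) f Fin.elim0 := by
  constructor
  · rintro ⟨h1, π, h2⟩
    exact ⟨h1, (hf w h1 π (Equiv.refl _)).1 h2⟩
  · rintro ⟨h1, h2⟩
    exact ⟨h1, Equiv.refl _, h2⟩

lemma wordOf_ne_nil {T : Type} {m : ℕ} (v : T → List A) (hv : ∀ t, (v t).length = m)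
    (hm : 0 < m) (s : List T) (r : List A) : wordOf v s r = [] ↔ s = [] ∧ r = [] := by
  constructor
  · intro h
    have h1 := wordOf_length v hv s r
    rw [h, List.length_nil] at h1
    constructor
    · rcases s with _ | ⟨t, s⟩
      · rfl
      · exfalso
        rw [List.length_cons, Nat.succ_mul] at h1
        omega
    · apply List.eq_nil_of_length_eq_zero; omega
  · rintro ⟨rfl, rfl⟩
    simp [wordOf]

/-- Same block type and same remainder: same membership. -/
lemma mem_wordOf_iff {T : Type} {f : Fml A 0} (hf : AddInvariant f) {m m' : ℕ}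
    (v v' : T → List A) (hv : ∀ t, (v t).length = m) (hv' : ∀ t, (v' t).length = m')
    (r : List A) (hr : r.length ≤ m) (hr' : r.length ≤ m') (hm : 0 < m) (hm' : 0 < m')
    (h : tp (blkOf m v hv r).code (rk f) 0 Fin.elim0 =
      tp (blkOf m' v' hv' r).code (rk f) 0 Fin.elim0) (s : List T) :
    wordOf v s r ∈ langOf f ↔ wordOf v' s r ∈ langOf f := by
  rw [mem_iff_sat hf, mem_iff_sat hf, sat_wordOf v v' hv hv' r r hr hr' hm hm' f h s]
  rw [Ne, wordOf_ne_nil v hv hm, Ne, wordOf_ne_nil v' hv' hm']

lemma SyntEq.wordOf {T : Type} {L : Language A} (v v' : T → List A)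
    (h : ∀ t, SyntEq L (v t) (v' t)) (r : List A) :
    ∀ s : List T, SyntEq L (wordOf v s r) (wordOf v' s r)
  | [] => by simpa [AddInv.wordOf] using SyntEq.refl r
  | t :: s => by
      rw [wordOf_cons, wordOf_cons]
      exact (h t).append (SyntEq.wordOf v v' h r s)

/-- Finiteness of a range from a finite invariant that determines the values. -/
lemma finite_image {α β γ : Type*} [Finite γ] (S : Set α) (F : α → β) (I : α → γ)
    (h : ∀ x ∈ S, ∀ y ∈ S, I x = I y → F x = F y) : (F '' S).Finite := by
  classical
  have h1 : (F '' S) ⊆ Set.range (fun c : {c : γ // ∃ x ∈ S, I x = c} => F c.2.choose) := by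
    rintro _ ⟨x, hx, rfl⟩
    have hc : ∃ y ∈ S, I y = I x := ⟨x, hx, rfl⟩
    refine ⟨⟨I x, hc⟩, ?_⟩
    have := hc.choose_spec
    exact h _ this.1 x hx this.2
  exact (Set.finite_range _).subset h1

section

variable [Finite A] (f : Fml A 0) (hf : AddInvariant f) (k l : ℕ) (d : List A → ℕ) (hl : 0 < l)
  (hpad : ∀ u : List A, u.length = k → ∀ i : ℕ,
      ∃ w : List A, w.length = k + d u + i * l ∧ SyntEq (langOf f) u w)

include hpad in
/-- Padding of aligned words. -/
lemma pad_aligned (u : List A) (hu : k ≤ u.length) (hal : l ∣ u.length + d (u.take k))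
    (m : ℕ) (hm : l ∣ m) (hle : u.length + d (u.take k) ≤ m) :
    ∃ w : List A, w.length = m ∧ SyntEq (langOf f) u w := by
  obtain ⟨e, he⟩ := Nat.exists_eq_add_of_le hle
  have h1 : l ∣ e := by
    have := (Nat.dvd_add_right hal).1 (he ▸ hm)
    exact this
  obtain ⟨i, hi⟩ := h1
  obtain ⟨w, hw1, hw2⟩ := hpad (u.take k) (by simp; omega) i
  refine ⟨w ++ u.drop k, ?_, ?_⟩
  · rw [List.length_append, hw1, List.length_drop, he, hi, mul_comm l i]
    omega
  · have := hw2.append_right (u.drop k)
    rwa [List.take_append_drop] at this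

/-- The finite set of short aligned blocks. -/
def Short (k l : ℕ) (d : List A → ℕ) : Type :=
  {B : List A // k ≤ B.length ∧ B.length < k + l ∧ l ∣ B.length + d (B.take k)}

instance : Finite (Short (A := A) k l d) := by
  have h : ({B : List A | k ≤ B.length ∧ B.length < k + l ∧
      l ∣ B.length + d (B.take k)} : Set (List A)).Finite :=
    (List.finite_length_lt A (k + l)).subset fun B hB => hB.2.1
  exact h.to_subtype

include hl in
/-- Every word is a product of short aligned blocks and a short remainder. -/
lemma decomp (hk : 0 < k) (N : ℕ) : ∀ (z : List A), z.length ≤ N →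
    ∃ (s : List (Short (A := A) k l d)) (r : List A), r.length < k + l ∧
      z = wordOf (fun B => B.1) s r := by
  induction N with
  | zero => exact fun z hz => ⟨[], z, by omega, by simp [wordOf]⟩
  | succ N ih =>
    intro z hz
    rcases Nat.lt_or_ge z.length (k + l) with h | h
    · exact ⟨[], z, h, by simp [wordOf]⟩
    · obtain ⟨t, ht1, ht2⟩ : ∃ t, t < l ∧ l ∣ (k + t) + d (z.take k) := by
        refine ⟨(l - (k + d (z.take k)) % l) % l, Nat.mod_lt _ hl, ?_⟩
        have h1 : (k + (l - (k + d (z.take k)) % l) % l) + d (z.take k) =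
            (k + d (z.take k)) + (l - (k + d (z.take k)) % l) % l := by ring
        rw [h1]
        apply Nat.dvd_of_mod_eq_zero
        have h2 : (k + d (z.take k)) % l < l := Nat.mod_lt _ hl
        have h3 := Nat.div_add_mod (k + d (z.take k)) l
        have h4 : (k + d (z.take k)) + (l - (k + d (z.take k)) % l) =
            l * ((k + d (z.take k)) / l) + l := by omega
        rw [Nat.add_mod, Nat.mod_mod, ← Nat.add_mod, h4]
        simp
      obtain ⟨s, r, hr, hz'⟩ := ih (z.drop (k + t)) (by simp; omega)
      have htk : (z.take (k + t)).take k = z.take k := by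
        rw [List.take_take]; congr 1; omega
      have hlen : (z.take (k + t)).length = k + t := by simp; omega
      refine ⟨⟨z.take (k + t), by omega, by omega, by rw [hlen, htk]; exact ht2⟩ :: s,
        r, hr, ?_⟩
      rw [wordOf_cons, ← hz', List.take_append_drop]

/-- The shift that aligns a word. -/
lemma align (u : List A) (hl : 0 < l) : ∃ t, t < l ∧ l ∣ (u.length + t) + d (u.take k) := by
  refine ⟨(l - (u.length + d (u.take k)) % l) % l, Nat.mod_lt _ hl, ?_⟩
  have h1 : (u.length + (l - (u.length + d (u.take k)) % l) % l) + d (u.take k) =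
      (u.length + d (u.take k)) + (l - (u.length + d (u.take k)) % l) % l := by ring
  rw [h1]
  apply Nat.dvd_of_mod_eq_zero
  have h2 : (u.length + d (u.take k)) % l < l := Nat.mod_lt _ hl
  have h3 := Nat.div_add_mod (u.length + d (u.take k)) l
  have h4 : (u.length + d (u.take k)) + (l - (u.length + d (u.take k)) % l) =
      l * ((u.length + d (u.take k)) / l) + l := by omega
  rw [Nat.add_mod, Nat.mod_mod, ← Nat.add_mod, h4]
  simp

include hf hpad hl in
/-- The right contexts of long aligned words take finitely many values: there is a finite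
invariant that determines them. -/
lemma aligned_invariant (hk : 0 < k) : ∃ (γ : Type) (_ : Finite γ) (I : List A → γ) (M : ℕ),
    ∀ u u' : List A, M ≤ u.length → M ≤ u'.length →
      l ∣ u.length + d (u.take k) → l ∣ u'.length + d (u'.take k) → I u = I u' →
      ∀ z : List A, (u ++ z ∈ langOf f ↔ u' ++ z ∈ langOf f) := by
  classical
  -- a bound for the padded lengths of the short blocks
  obtain ⟨M₀, hM₀⟩ : ∃ M₀ : ℕ, ∀ B : Short (A := A) k l d,
      B.1.length + d (B.1.take k) ≤ M₀ := by
    have := Fintype.ofFinite (Short (A := A) k l d)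
    exact ⟨Finset.univ.sup fun B : Short (A := A) k l d => B.1.length + d (B.1.take k),
      fun B => Finset.le_sup (f := fun B : Short (A := A) k l d =>
        B.1.length + d (B.1.take k)) (Finset.mem_univ B)⟩
  set M : ℕ := M₀ + k + l with hMdef
  -- padded families for an aligned long word
  have hfam : ∀ u : {u : List A // M ≤ u.length ∧ l ∣ u.length + d (u.take k)},
      ∃ v : Option (Short (A := A) k l d) → List A,
        (∀ t, (v t).length = u.1.length + d (u.1.take k)) ∧ SyntEq (langOf f) u.1 (v none) ∧
        ∀ B : Short (A := A) k l d, SyntEq (langOf f) B.1 (v (some B)) := by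
    rintro ⟨u, hu1, hu2⟩
    obtain ⟨w, hw1, hw2⟩ := pad_aligned f k l d hpad u (by omega) hu2 _ hu2 le_rfl
    have h1 : ∀ B : Short (A := A) k l d, ∃ w : List A,
        w.length = u.length + d (u.take k) ∧ SyntEq (langOf f) B.1 w := by
      intro B
      exact pad_aligned f k l d hpad B.1 B.2.1 B.2.2.2 _ hu2 (by have := hM₀ B; omega)
    choose g hg1 hg2 using h1
    refine ⟨fun t => t.elim w g, ?_, hw2, hg2⟩
    rintro (_ | B)
    · exact hw1
    · exact hg1 B
  choose v hv1 hv2 hv3 using hfam
  -- the invariant
  let R : Type := {r : List A // r.length < k + l}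
  have hR : Finite R := (List.finite_length_lt A (k + l)).to_subtype
  let I : List A → Option (R → Ty (Code (Option (Short (A := A) k l d)) A) (rk f) 0) := fun u =>
    if h : M ≤ u.length ∧ l ∣ u.length + d (u.take k) then
      some fun r => tp (blkOf _ (v ⟨u, h⟩) (hv1 ⟨u, h⟩) r.1).code (rk f) 0 Fin.elim0
    else none
  refine ⟨_, inferInstance, I, M, ?_⟩
  intro u u' hu hu' hal hal' hI z
  have h1 : I u = some fun r => tp (blkOf _ (v ⟨u, hu, hal⟩) (hv1 ⟨u, hu, hal⟩) r.1).code
      (rk f) 0 Fin.elim0 := dif_pos ⟨hu, hal⟩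
  have h2 : I u' = some fun r => tp (blkOf _ (v ⟨u', hu', hal'⟩)
      (hv1 ⟨u', hu', hal'⟩) r.1).code (rk f) 0 Fin.elim0 := dif_pos ⟨hu', hal'⟩
  rw [h1, h2] at hI
  have hI' := Option.some.inj hI
  obtain ⟨s, r, hr, hz⟩ := decomp k l d hl hk z.length z le_rfl
  have h3 := congrFun hI' ⟨r, hr⟩
  have hbig : k + l ≤ u.length + d (u.take k) := by omega
  have hbig' : k + l ≤ u'.length + d (u'.take k) := by omega
  have h4 := mem_wordOf_iff hf (v ⟨u, hu, hal⟩) (v ⟨u', hu', hal'⟩) (hv1 ⟨u, hu, hal⟩)
    (hv1 ⟨u', hu', hal'⟩) r (by show r.length ≤ u.length + d (u.take k); omega)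
    (by show r.length ≤ u'.length + d (u'.take k); omega)
    (by show 0 < u.length + d (u.take k); omega)
    (by show 0 < u'.length + d (u'.take k); omega) h3 (none :: s.map some)
  have h5 : ∀ (u₀ : {u : List A // M ≤ u.length ∧ l ∣ u.length + d (u.take k)}),
      SyntEq (langOf f) (u₀.1 ++ z) (wordOf (v u₀) (none :: s.map some) r) := by
    intro u₀
    rw [wordOf_cons, hz]
    refine (hv2 u₀).append ?_
    have h6 : wordOf (v u₀) (s.map some) r = wordOf (fun B => v u₀ (some B)) s r := by
      simp [wordOf, List.map_map, Function.comp_def]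
    rw [h6]
    exact SyntEq.wordOf _ _ (fun B => hv3 u₀ B) r s
  have h7 := h5 ⟨u, hu, hal⟩ [] []
  have h8 := h5 ⟨u', hu', hal'⟩ [] []
  simp only [List.nil_append, List.append_nil] at h7 h8
  exact h7.trans (h4.trans h8.symm)

include hf hpad hl in
/-- The language is regular. -/
lemma regular_of_pad (hk : 0 < k) : (langOf f).IsRegular := by
  classical
  obtain ⟨γ, hγ, I, M, hI⟩ := aligned_invariant f hf k l d hl hpad hk
  rw [Language.isRegular_iff_finite_range_leftQuotient]
  choose t ht1 ht2 using fun u : List A => align k l d u hl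
  let R : Type := {r : List A // r.length < l}
  have hR : Finite R := (List.finite_length_lt A l).to_subtype
  -- invariant of long words
  let J : List A → Fin l × (R → Prop) × (R → γ) := fun u =>
    (⟨t u, ht1 u⟩, fun r => u ++ r.1 ∈ langOf f, fun r => I (u ++ r.1))
  have h1 : ((langOf f).leftQuotient '' {u | M + k ≤ u.length}).Finite := by
    apply finite_image {u : List A | M + k ≤ u.length} (langOf f).leftQuotient J
    intro u hu u' hu' hJ
    have hu1 : M + k ≤ u.length := hu
    have hu2 : M + k ≤ u'.length := hu'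
    have e1 : t u = t u' := congrArg Fin.val (congrArg Prod.fst hJ)
    have e2 : (fun r : R => u ++ r.1 ∈ langOf f) = fun r : R => u' ++ r.1 ∈ langOf f :=
      congrArg (fun z => z.2.1) hJ
    have e3 : (fun r : R => I (u ++ r.1)) = fun r : R => I (u' ++ r.1) :=
      congrArg (fun z => z.2.2) hJ
    ext z
    rw [Language.mem_leftQuotient, Language.mem_leftQuotient]
    rcases Nat.lt_or_ge z.length l with h | h
    · have := congrFun e2 ⟨z, h⟩
      exact iff_of_eq this
    · have htl : t u < l := ht1 u
      have hz : z = z.take (t u) ++ z.drop (t u) := (List.take_append_drop _ _).symm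
      have hzl : (z.take (t u)).length = t u := by simp; omega
      rw [hz, ← List.append_assoc, ← List.append_assoc]
      have k1 : (u ++ z.take (t u)).take k = u.take k := by
        rw [List.take_append_of_le_length (by omega)]
      have k2 : (u' ++ z.take (t u)).take k = u'.take k := by
        rw [List.take_append_of_le_length (by omega)]
      apply hI
      · rw [List.length_append]; omega
      · rw [List.length_append]; omega
      · rw [List.length_append, hzl, k1]; exact ht2 u
      · rw [List.length_append, hzl, k2, e1]; exact ht2 u'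
      · exact congrFun e3 ⟨z.take (t u), by omega⟩
  have h2 : ((langOf f).leftQuotient '' {u | u.length < M + k}).Finite :=
    (List.finite_length_lt A (M + k)).image _
  refine (h1.union h2).subset ?_
  rintro _ ⟨u, rfl⟩
  rcases Nat.lt_or_ge u.length (M + k) with h | h
  · exact Or.inr ⟨u, h, rfl⟩
  · exact Or.inl ⟨u, h, rfl⟩

end

/-- A definable language is regular as soon as, for some `k`, every word of length `k` is
syntactically equivalent to a longer word. -/
theorem regular_of_expand [Finite A] (f : Fml A 0) (hf : AddInvariant f) (k : ℕ)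
    (H : ∀ u : List A, u.length = k → ∃ v : List A, k < v.length ∧ SyntEq (langOf f) u v) :
    (langOf f).IsRegular := by
  have H' : ∀ u : List A, u.length = k + 1 →
      ∃ v : List A, k + 1 < v.length ∧ SyntEq (langOf f) u v := by
    intro u hu
    obtain ⟨v, hv1, hv2⟩ := H (u.take k) (by simp; omega)
    refine ⟨v ++ u.drop k, ?_, ?_⟩
    · simp; omega
    · have := hv2.append_right (u.drop k)
      rwa [List.take_append_drop] at this
  obtain ⟨l, d, hl, hpad⟩ := pad_all (k + 1) H'
  exact regular_of_pad f hf (k + 1) l d hl hpad (Nat.succ_pos k)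

/-- In a regular language all words of some length are equivalent to longer words. -/
theorem expand_of_regular {L : Language A} (h : L.IsRegular) :
    ∃ k : ℕ, ∀ u : List A, u.length = k → ∃ v : List A, k < v.length ∧ SyntEq L u v := by
  classical
  obtain ⟨σ, hσ, M, rfl⟩ := h
  have h1 : ∀ g : σ → σ, ∃ b : ℕ, ∀ u : List A, (fun s => M.evalFrom s u) = g →
      (∃ v : List A, u.length < v.length ∧ (fun s => M.evalFrom s v) = g) ∨ u.length < b := by
    intro g
    by_cases hb : ∃ b : ℕ, ∀ u : List A, (fun s => M.evalFrom s u) = g → u.length < b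
    · obtain ⟨b, hb⟩ := hb
      exact ⟨b, fun u hu => Or.inr (hb u hu)⟩
    · refine ⟨0, fun u hu => Or.inl ?_⟩
      push Not at hb
      obtain ⟨v, hv1, hv2⟩ := hb (u.length + 1)
      exact ⟨v, hv2, hv1⟩
  choose b hb using h1
  refine ⟨Finset.univ.sup b, fun u hu => ?_⟩
  rcases hb _ u rfl with ⟨v, hv1, hv2⟩ | h2
  · refine ⟨v, by omega, ?_⟩
    intro x y
    have h3 : ∀ w : List A, x ++ w ++ y ∈ M.accepts ↔
        M.evalFrom (M.evalFrom (M.evalFrom M.start x) w) y ∈ M.accept := by
      intro w
      rw [DFA.mem_accepts, DFA.eval, DFA.evalFrom_of_append, DFA.evalFrom_of_append]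
    rw [h3, h3]
    have h4 : M.evalFrom (M.evalFrom M.start x) v = M.evalFrom (M.evalFrom M.start x) u :=
      congrFun hv2 (M.evalFrom M.start x)
    rw [h4]
  · exfalso
    have : b (fun s => M.evalFrom s u) ≤ Finset.univ.sup b :=
      Finset.le_sup (f := b) (Finset.mem_univ _)
    omega

end AddInv
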