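import Pool.Agent.H66.AI.Digits

/-!
# Numbered structures whose order of positions is computed from the numbers
-/

namespace AddInv

/-- A numbered structure: numbers `0, ..., n - 1` with a key and a letter for each number. -/
structure NumStr (A : Type) where
  n : ℕ
  key : ℕ → ℕ
  ltr : ℕ → Option A

/-- Truth of a formula in a numbered structure; the order compares keys first and numbers
second. -/
def SatM {A : Type} (S : NumStr A) : {k : ℕ} → Fml A k → (Fin k → ℕ) → Prop
  | _, .falsum, _ => False
  | _, .eq i j, x => x i = x j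
  | _, .lt i j, x => S.key (x i) < S.key (x j) ∨ (S.key (x i) = S.key (x j) ∧ x i < x j)
  | _, .letter a i, x => S.ltr (x i) = some a
  | _, .add i j k, x => x i + x j + 1 = x k
  | _, .imp f g, x => SatM S f x → SatM S g x
  | _, .all f, x => ∀ p, p < S.n → SatM S f (Fin.snoc x p)

/-- Atomic codes of tuples of numbers below `N` with colours `col`. -/
def codeN {Γ : Type} (N : ℕ) (col : ℕ → Option Γ) (k : ℕ) (y : Fin k → ℕ) : CodeD Γ k :=
  (fun a b d c c' => val y a + val y b + c.toNat = val y d + c'.toNat * N,
    fun a b => y a < y b, fun a => col (y a))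

/-- The numbers below `N`. -/
def domN (N : ℕ) : Set ℕ := {y | y < N}

/-- The type of the numbers below `N` with colours `col`. -/
def thetaN {Γ : Type} (q : ℕ) (N : ℕ) (col : ℕ → Option Γ) : Ty (CodeD Γ) q 0 :=
  tpd (domN N) (codeN N col) q 0 Fin.elim0

lemma thetaN_color {Γ : Type} (q : ℕ) (w : List (Option Γ)) :
    thetaN q (2 ^ w.length) (color w) = theta q w := rfl

section

variable {A B : Type} (zs : List B) (hP : 0 < zs.length)

/-- Block contents. -/
abbrev Cell (B : Type) (P : ℕ) : Type := Fin P → Option B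

/-- The label of offset `j` in a block with content `g`; blocks without content carry `zs`. -/
def labG (g : Option (Cell B zs.length)) (j : Fin zs.length) : Option (B × Bool) :=
  match g with
  | some g => (g j).map fun b => (b, false)
  | none => some (zs.get j, true)

/-- The cell that holds the remainder. -/
def remCell (P : ℕ) (rem : List B) : Cell B P := fun j => rem[(j : ℕ)]?

/-- The content of block `x`; block `N` holds the remainder. -/
def bcol {P : ℕ} (N : ℕ) (col : ℕ → Option (Cell B P)) (rem : List B) (x : ℕ) :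
    Option (Cell B P) :=
  if x < N then col x else some (remCell P rem)

/-- The label of a number. -/
def lab (N : ℕ) (col : ℕ → Option (Cell B zs.length)) (rem : List B) (m : ℕ) :
    Option (B × Bool) :=
  labG zs (bcol N col rem (m / zs.length)) ⟨m % zs.length, Nat.mod_lt _ hP⟩

/-- The numbered structure of coloured blocks. -/
def strOf (κ : B × Bool → ℕ) (lam : B × Bool → A) (N : ℕ)
    (col : ℕ → Option (Cell B zs.length)) (rem : List B) : NumStr A where
  n := zs.length * N + rem.length
  key := fun m => (lab zs hP N col rem m).elim 0 κ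
  ltr := fun m => (lab zs hP N col rem m).map lam

/-- The number with block `y` (or the remainder block, if `τ`) and offset `j`. -/
def num (P N : ℕ) (y : ℕ) (τ : Bool) (j : ℕ) : ℕ := (y + τ.toNat * N) * P + j

lemma bcol_num {P : ℕ} (N : ℕ) (col : ℕ → Option (Cell B P)) (rem : List B) (y : ℕ)
    (τ : Bool) (hy : y < N) :
    bcol N col rem (y + τ.toNat * N) = if τ then some (remCell _ rem) else col y := by
  cases τ
  · simp only [Bool.toNat_false, zero_mul, add_zero]
    unfold bcol
    rw [if_pos hy]
    rfl
  · simp only [Bool.toNat_true, one_mul]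
    unfold bcol
    rw [if_neg (by omega)]
    rfl

lemma lab_num (N : ℕ) (col : ℕ → Option (Cell B zs.length)) (rem : List B) (y : ℕ) (τ : Bool)
    (hy : y < N) (j : Fin zs.length) :
    lab zs hP N col rem (num zs.length N y τ j) =
      labG zs (if τ then some (remCell _ rem) else col y) j := by
  unfold lab num
  obtain ⟨h1, h2⟩ := div_aux (c := y + τ.toNat * N) j.2
  have h3 : (⟨((y + τ.toNat * N) * zs.length + (j : ℕ)) % zs.length,
      Nat.mod_lt _ hP⟩ : Fin zs.length) = j := Fin.ext h2
  rw [h3, h1, bcol_num N col rem y τ hy]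

lemma color_eq_of_code {Γ : Type} {N N' : ℕ} {col col' : ℕ → Option Γ} {k : ℕ}
    {y y' : Fin k → ℕ} (h : codeN N col k y = codeN N' col' k y') (a : Fin k) :
    col (y a) = col' (y' a) :=
  congrFun (congrArg (fun z => z.2.2) h) a

lemma lt_of_code {Γ : Type} {N N' : ℕ} {col col' : ℕ → Option Γ} {k : ℕ}
    {y y' : Fin k → ℕ} (h : codeN N col k y = codeN N' col' k y') (a b : Fin k) :
    (y a < y b) = (y' a < y' b) :=
  congrFun (congrFun (congrArg (fun z => z.2.1) h) a) b

lemma add_of_code {Γ : Type} {N N' : ℕ} {col col' : ℕ → Option Γ} {k : ℕ}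
    {y y' : Fin k → ℕ} (h : codeN N col k y = codeN N' col' k y')
    (a b d : Option (Fin k)) (c c' : Bool) :
    (val y a + val y b + c.toNat = val y d + c'.toNat * N) =
      (val y' a + val y' b + c.toNat = val y' d + c'.toNat * N') :=
  congrFun (congrFun (congrFun (congrFun (congrFun (congrArg (fun z => z.1) h) a) b) d) c) c'

lemma eq_of_code {Γ : Type} {N N' : ℕ} {col col' : ℕ → Option Γ} {k : ℕ}
    {y y' : Fin k → ℕ} (h : codeN N col k y = codeN N' col' k y') (a b : Fin k) :
    (y a = y b) = (y' a = y' b) := by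
  have := add_of_code h (some a) none (some b) false false
  simpa [val] using this

lemma zero_of_code {Γ : Type} {N N' : ℕ} {col col' : ℕ → Option Γ} {k : ℕ}
    {y y' : Fin k → ℕ} (h : codeN N col k y = codeN N' col' k y') (a : Fin k) :
    (y a = 0) = (y' a = 0) := by
  have := add_of_code h (some a) none none false false
  simpa [val] using this

/-- Sums with carries, read in blocks including the remainder block. -/
lemma add_block {Γ : Type} {N N' : ℕ} {col col' : ℕ → Option Γ} {k : ℕ} {y y' : Fin k → ℕ}
    (hy : ∀ i, y i < N) (hy' : ∀ i, y' i < N') (τ : Fin k → Bool)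
    (h : codeN N col k y = codeN N' col' k y') (a b d : Fin k) (c : Bool) :
    ((y a + (τ a).toNat * N) + (y b + (τ b).toNat * N) + c.toNat = y d + (τ d).toNat * N) ↔
    ((y' a + (τ a).toNat * N') + (y' b + (τ b).toNat * N') + c.toNat =
      y' d + (τ d).toNat * N') := by
  have h0 := add_of_code h (some a) (some b) (some d) c false
  have h1 := add_of_code h (some a) (some b) (some d) c true
  simp only [val, Option.elim, Bool.toNat_false, Bool.toNat_true, zero_mul, one_mul,
    add_zero] at h0 h1
  have a1 := hy a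
  have a2 := hy b
  have a3 := hy d
  have b1 := hy' a
  have b2 := hy' b
  have b3 := hy' d
  cases τ a <;> cases τ b <;> cases τ d <;>
    simp only [Bool.toNat_false, Bool.toNat_true, zero_mul, one_mul, add_zero]
  · exact iff_of_eq h0
  · exact iff_of_eq h1
  · omega
  · constructor
    · intro e
      have : y a + y b + c.toNat = y d := by omega
      rw [h0] at this
      omega
    · intro e
      have : y' a + y' b + c.toNat = y' d := by omega
      rw [← h0] at this
      omega
  · omega
  · constructor
    · intro e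
      have : y a + y b + c.toNat = y d := by omega
      rw [h0] at this
      omega
    · intro e
      have : y' a + y' b + c.toNat = y' d := by omega
      rw [← h0] at this
      omega
  · omega
  · omega

lemma num_add {P N : ℕ} {y₁ y₂ y₃ : ℕ} {τ₁ τ₂ τ₃ : Bool} {j₁ j₂ j₃ : ℕ} (h1 : j₁ < P)
    (h2 : j₂ < P) (h3 : j₃ < P) :
    num P N y₁ τ₁ j₁ + num P N y₂ τ₂ j₂ + 1 = num P N y₃ τ₃ j₃ ↔
      ((y₁ + τ₁.toNat * N) + (y₂ + τ₂.toNat * N) + false.toNat = y₃ + τ₃.toNat * N ∧
        j₁ + j₂ + 1 = j₃) ∨
      ((y₁ + τ₁.toNat * N) + (y₂ + τ₂.toNat * N) + true.toNat = y₃ + τ₃.toNat * N ∧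
        j₁ + j₂ + 1 = j₃ + P) := by
  unfold num
  rw [add_aux h1 h2 h3]
  simp

lemma snoc_num {k P N : ℕ} (y : Fin k → ℕ) (τ : Fin k → Bool) (j : Fin k → Fin P)
    (y₀ : ℕ) (τ₀ : Bool) (j₀ : Fin P) :
    (fun i => num P N ((Fin.snoc y y₀ : Fin (k + 1) → ℕ) i)
      ((Fin.snoc τ τ₀ : Fin (k + 1) → Bool) i)
      (((Fin.snoc j j₀ : Fin (k + 1) → Fin P) i : Fin P) : ℕ)) =
    (Fin.snoc (fun i => num P N (y i) (τ i) (j i)) (num P N y₀ τ₀ j₀) : Fin (k + 1) → ℕ) := by
  funext i
  refine Fin.lastCases ?_ (fun j => ?_) i
  · simp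
  · simp

/-- Every number is of the form `num`. -/
lemma exists_num {P : ℕ} (N : ℕ) (hN : 0 < N) (rem : List B)
    (hrem : rem.length < P) (p : ℕ) (hp : p < P * N + rem.length) :
    ∃ (y : ℕ) (τ : Bool) (j : Fin P), y < N ∧ (τ = true → y = 0) ∧
      (τ = true → (j : ℕ) < rem.length) ∧ p = num P N y τ j := by
  have h0 : 0 < P := by omega
  have h1 := Nat.div_add_mod p P
  have h2 := Nat.mod_lt p h0
  rcases Nat.lt_or_ge (p / P) N with h | h
  · refine ⟨p / P, false, ⟨p % P, h2⟩, h, by simp, by simp, ?_⟩
    unfold num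
    simp only [Bool.toNat_false, zero_mul, add_zero]
    rw [mul_comm]; exact h1.symm
  · have h3 : P * N ≤ P * (p / P) := Nat.mul_le_mul_left _ h
    have h4 : p / P = N := by
      apply le_antisymm _ h
      by_contra h5
      push Not at h5
      have h6 : P * (N + 1) ≤ P * (p / P) :=
        Nat.mul_le_mul_left _ h5
      rw [mul_add, mul_one] at h6
      omega
    refine ⟨0, true, ⟨p % P, h2⟩, hN, by simp, ?_, ?_⟩
    · intro _
      rw [h4] at h1
      show p % P < rem.length
      omega
    · unfold num
      simp only [Bool.toNat_true, one_mul, zero_add]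
      rw [h4] at h1
      rw [mul_comm]; exact h1.symm

lemma num_lt {P : ℕ} (N : ℕ) (rem : List B) (y : ℕ) (τ : Bool)
    (j : Fin P) (hy : y < N) (hτ : τ = true → y = 0)
    (hj : τ = true → (j : ℕ) < rem.length) :
    num P N y τ j < P * N + rem.length := by
  unfold num
  cases τ
  · simp only [Bool.toNat_false, zero_mul, add_zero]
    have h1 : (y + 1) * P ≤ N * P := Nat.mul_le_mul_right _ hy
    have h2 := j.2
    rw [mul_comm P]
    nlinarith
  · have h1 := hτ rfl
    have h2 := hj rfl
    subst h1
    simp only [Bool.toNat_true, one_mul, zero_add]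
    rw [mul_comm P]
    omega

/-- Structures of blocks of the same type satisfy the same formulas. -/
lemma ef (κ : B × Bool → ℕ) (lam : B × Bool → A) (N N' : ℕ) (hN : 0 < N) (hN' : 0 < N')
    (col col' : ℕ → Option (Cell B zs.length)) (rem : List B)
    (hrem : rem.length < zs.length) :
    ∀ {k : ℕ} (f : Fml A k) (q : ℕ) (_ : rk f ≤ q) (τ : Fin k → Bool)
      (j : Fin k → Fin zs.length) (y y' : Fin k → ℕ) (_ : ∀ i, y i < N)
      (_ : ∀ i, y' i < N') (_ : ∀ i, τ i = true → y i = 0)
      (_ : tpd (domN N) (codeN N col) q k y = tpd (domN N') (codeN N' col') q k y'),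
      (SatM (strOf zs hP κ lam N col rem) f
          (fun i => num zs.length N (y i) (τ i) (j i)) ↔
        SatM (strOf zs hP κ lam N' col' rem) f
          (fun i => num zs.length N' (y' i) (τ i) (j i)))
  | _, .falsum, _, _, _, _, _, _, _, _, _, _ => Iff.rfl
  | _, .eq a b, q, _, τ, j, y, y', hy, hy', hτ, h => by
      have hc := code_eq_of_tpd h
      show num zs.length N (y a) (τ a) (j a) = num zs.length N (y b) (τ b) (j b) ↔
        num zs.length N' (y' a) (τ a) (j a) = num zs.length N' (y' b) (τ b) (j b)
      unfold num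
      rw [eq_aux (j a).2 (j b).2, eq_aux (j a).2 (j b).2]
      refine and_congr ?_ Iff.rfl
      have e2 := eq_of_code hc a b
      have a1 := hy a
      have a2 := hy b
      have b1 := hy' a
      have b2 := hy' b
      cases τ a <;> cases τ b <;>
        simp only [Bool.toNat_false, Bool.toNat_true, zero_mul, one_mul, add_zero]
      · exact iff_of_eq e2
      · omega
      · omega
      · rw [Nat.add_right_cancel_iff, Nat.add_right_cancel_iff]
        exact iff_of_eq e2
  | _, .lt a b, q, _, τ, j, y, y', hy, hy', hτ, h => by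
      have hc := code_eq_of_tpd h
      have hcol : ∀ i, lab zs hP N col rem (num zs.length N (y i) (τ i) (j i)) =
          lab zs hP N' col' rem (num zs.length N' (y' i) (τ i) (j i)) := by
        intro i
        rw [lab_num zs hP N col rem _ _ (hy i), lab_num zs hP N' col' rem _ _ (hy' i),
          color_eq_of_code hc]
      have hlt : num zs.length N (y a) (τ a) (j a) < num zs.length N (y b) (τ b) (j b) ↔
        num zs.length N' (y' a) (τ a) (j a) < num zs.length N' (y' b) (τ b) (j b) := by
        unfold num
        rw [lt_aux (j a).2 (j b).2, lt_aux (j a).2 (j b).2]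
        have e2 := eq_of_code hc a b
        have e3 := lt_of_code hc a b
        have a1 := hy a
        have a2 := hy b
        have b1 := hy' a
        have b2 := hy' b
        refine or_congr ?_ (and_congr ?_ Iff.rfl)
        · cases τ a <;> cases τ b <;>
            simp only [Bool.toNat_false, Bool.toNat_true, zero_mul, one_mul, add_zero]
          · exact iff_of_eq e3
          · omega
          · omega
          · rw [Nat.add_lt_add_iff_right, Nat.add_lt_add_iff_right]
            exact iff_of_eq e3
        · cases τ a <;> cases τ b <;>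
            simp only [Bool.toNat_false, Bool.toNat_true, zero_mul, one_mul, add_zero]
          · exact iff_of_eq e2
          · omega
          · omega
          · rw [Nat.add_right_cancel_iff, Nat.add_right_cancel_iff]
            exact iff_of_eq e2
      show (_ < _ ∨ (_ = _ ∧ _ < _)) ↔ (_ < _ ∨ (_ = _ ∧ _ < _))
      simp only [strOf]
      rw [hcol a, hcol b, hlt]
  | _, .letter b a, q, _, τ, j, y, y', hy, hy', hτ, h => by
      have hc := code_eq_of_tpd h
      show (lab zs hP N col rem (num zs.length N (y a) (τ a) (j a))).map lam = some b ↔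
        (lab zs hP N' col' rem (num zs.length N' (y' a) (τ a) (j a))).map lam = some b
      rw [lab_num zs hP N col rem _ _ (hy a), lab_num zs hP N' col' rem _ _ (hy' a),
          color_eq_of_code hc]
  | _, .add a b d, q, _, τ, j, y, y', hy, hy', hτ, h => by
      have hc := code_eq_of_tpd h
      show num zs.length N (y a) (τ a) (j a) + num zs.length N (y b) (τ b) (j b) + 1 =
          num zs.length N (y d) (τ d) (j d) ↔
        num zs.length N' (y' a) (τ a) (j a) + num zs.length N' (y' b) (τ b) (j b) + 1 =
          num zs.length N' (y' d) (τ d) (j d)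
      rw [num_add (j a).2 (j b).2 (j d).2, num_add (j a).2 (j b).2 (j d).2,
        add_block hy hy' τ hc a b d false, add_block hy hy' τ hc a b d true]
  | _, .imp f g, q, hq, τ, j, y, y', hy, hy', hτ, h => by
      have hf : rk f ≤ q := le_trans (le_max_left _ _) hq
      have hg : rk g ≤ q := le_trans (le_max_right _ _) hq
      have h1 := ef κ lam N N' hN hN' col col' rem hrem f q hf τ j y y' hy hy' hτ h
      have h2 := ef κ lam N N' hN hN' col col' rem hrem g q hg τ j y y' hy hy' hτ h
      show (SatM _ f _ → SatM _ g _) ↔ (SatM _ f _ → SatM _ g _)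
      rw [h1, h2]
  | k, .all f, q, hq, τ, j, y, y', hy, hy', hτ, h => by
      have hq1 : rk f + 1 ≤ q := hq
      obtain ⟨q', rfl⟩ : ∃ q', q = q' + 1 := ⟨q - 1, by omega⟩
      have hf : rk f ≤ q' := by omega
      have hτ' : ∀ i, τ i = true → y' i = 0 := by
        intro i hi
        have := zero_of_code (code_eq_of_tpd h) i
        rw [← this]
        exact hτ i hi
      show (∀ p, p < zs.length * N + rem.length → SatM _ f (Fin.snoc _ p)) ↔
        (∀ p, p < zs.length * N' + rem.length → SatM _ f (Fin.snoc _ p))
      have hsn : ∀ (y : Fin k → ℕ) (y₀ : ℕ) (τ₀ : Bool), (∀ i, τ i = true → y i = 0) →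
          (τ₀ = true → y₀ = 0) → ∀ i, (Fin.snoc τ τ₀ : Fin (k + 1) → Bool) i = true →
            (Fin.snoc y y₀ : Fin (k + 1) → ℕ) i = 0 := by
        intro y y₀ τ₀ h1 h2 i
        refine Fin.lastCases ?_ (fun i => ?_) i
        · simpa using h2
        · simpa using h1 i
      constructor
      · intro hall p hp
        obtain ⟨y₀, τ₀, j₀, c1, c2, c3, rfl⟩ := exists_num N' hN' rem hrem p hp
        obtain ⟨y₁, hy₁, hty⟩ := tpd_forth h.symm y₀ c1
        have hz := zero_of_code (code_eq_of_tpd hty) (Fin.last k)
        simp only [Fin.snoc_last] at hz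
        have c4 : τ₀ = true → y₁ = 0 := fun e => by rw [← hz]; exact c2 e
        have h6 := hall _ (num_lt N rem y₁ τ₀ j₀ hy₁ c4 c3)
        rw [← snoc_num] at h6
        have h7 := (ef κ lam N N' hN hN' col col' rem hrem f q' hf (Fin.snoc τ τ₀)
          (Fin.snoc j j₀) (Fin.snoc y y₁) (Fin.snoc y' y₀) (snoc_lt hy hy₁) (snoc_lt hy' c1)
          (hsn y y₁ τ₀ hτ c4) hty.symm).1 h6
        rwa [snoc_num] at h7
      · intro hall p hp
        obtain ⟨y₀, τ₀, j₀, c1, c2, c3, rfl⟩ := exists_num N hN rem hrem p hp
        obtain ⟨y₁, hy₁, hty⟩ := tpd_forth h y₀ c1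
        have hz := zero_of_code (code_eq_of_tpd hty) (Fin.last k)
        simp only [Fin.snoc_last] at hz
        have c4 : τ₀ = true → y₁ = 0 := fun e => by rw [← hz]; exact c2 e
        have h6 := hall _ (num_lt N' rem y₁ τ₀ j₀ hy₁ c4 c3)
        rw [← snoc_num] at h6
        have h7 := (ef κ lam N N' hN hN' col col' rem hrem f q' hf (Fin.snoc τ τ₀)
          (Fin.snoc j j₀) (Fin.snoc y y₀) (Fin.snoc y' y₁) (snoc_lt hy c1) (snoc_lt hy' hy₁)
          (hsn y y₀ τ₀ hτ c2) hty).2 h6
        rwa [snoc_num] at h7

/-- Sentences: truth depends only on the type of the coloured blocks and the remainder. -/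
lemma ef_sentence (κ : B × Bool → ℕ) (lam : B × Bool → A) (N N' : ℕ) (hN : 0 < N)
    (hN' : 0 < N') (col col' : ℕ → Option (Cell B zs.length)) (rem : List B)
    (hrem : rem.length < zs.length)
    (f : Fml A 0) (h : thetaN (rk f) N col = thetaN (rk f) N' col') :
    SatM (strOf zs hP κ lam N col rem) f Fin.elim0 ↔
      SatM (strOf zs hP κ lam N' col' rem) f Fin.elim0 := by
  have h1 := ef zs hP κ lam N N' hN hN' col col' rem hrem f (rk f) le_rfl Fin.elim0 Fin.elim0
    Fin.elim0 Fin.elim0 (fun i => i.elim0) (fun i => i.elim0) (fun i => i.elim0) h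
  have e1 : (fun i : Fin 0 => num zs.length N (Fin.elim0 i) (Fin.elim0 i)
      ((Fin.elim0 i : Fin zs.length) : ℕ)) = Fin.elim0 := by funext i; exact i.elim0
  have e2 : (fun i : Fin 0 => num zs.length N' (Fin.elim0 i) (Fin.elim0 i)
      ((Fin.elim0 i : Fin zs.length) : ℕ)) = Fin.elim0 := by funext i; exact i.elim0
  rw [e1, e2] at h1
  exact h1

end

end AddInv
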