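import Pool.Agent.H66.AI.Pump

/-!
# Residuals and regularity
-/

namespace AddInv

section

variable {A : Type}

/-- The words of a shape on which the language does not see padding form a regular language. -/
theorem local_regular [Finite A] {f : Fml A 0} (hf : AddInvariant f) {b : ℕ}
    (R : Fin b → Language A) (hR : ∀ t, (R t).IsRegular) (Z : Fin b → List A)
    (hZ : 0 < size Z)
    (H : ∀ x : Fin b → List A, (∀ t, x t ∈ R t) → ∀ d > 0, ∃ i > 0, d ∣ i ∧
      (pump x Z 0 ∈ langOf f ↔ pump x Z i ∈ langOf f)) :
    Language.IsRegular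
      ({w | w ∈ langOf f ∧ ∃ x : Fin b → List A, (∀ t, x t ∈ R t) ∧ w = pump x Z 0} :
        Set (List A)) := by
  obtain ⟨C, D, hD, hper⟩ := linear_pumping hf
  obtain ⟨G, hG, h⟩ := mul_padding hf hD hper Z hZ
  have key : ∀ x : Fin b → List A, (∀ t, x t ∈ R t) →
      (pump x Z 0 ∈ langOf f ↔ flg x ∈ G) := by
    intro x hx
    obtain ⟨i, hi, ⟨j, hj⟩, h1⟩ := H x hx (D * (C * (size x + size Z) + 1)) (by positivity)
    rw [h1, hj, mul_assoc]
    apply h
    have hj0 : 0 < j := by
      rcases Nat.eq_zero_or_pos j with h2 | h2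
      · subst h2; omega
      · exact h2
    have h3 : C * (size x + size Z) * 1 ≤
        (C * (size x + size Z) + 1) * (D * j * size Z) :=
      Nat.mul_le_mul (by omega) (Nat.mul_pos (Nat.mul_pos hD hj0) hZ)
    have h4 : D * ((C * (size x + size Z) + 1) * j) * size Z =
        (C * (size x + size Z) + 1) * (D * j * size Z) := by ring
    omega
  have h1 := isRegular_image (fun z : A × Fin b => some z.1) (FR R ⊓ G)
    ((regular_FR R hR).inf hG)
  have hfst : ∀ x : Fin b → List A, (flg x).filterMap (fun z : A × Fin b => some z.1) =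
      pump x Z 0 := by
    intro x
    unfold flg pump
    rw [List.filterMap_flatMap]
    apply List.flatMap_congr
    intro t _
    rw [List.filterMap_map]
    simp [Function.comp_def]
  have h2 : img (fun z : A × Fin b => some z.1) (FR R ⊓ G) =
      ({w | w ∈ langOf f ∧ ∃ x : Fin b → List A, (∀ t, x t ∈ R t) ∧ w = pump x Z 0} :
        Set (List A)) := by
    ext w
    constructor
    · rintro ⟨u, ⟨⟨hs, hu⟩, hg⟩, rfl⟩
      have hux : u = flg fun t => proj t u := eq_flg_of_srt u hs
      refine ⟨?_, fun t => proj t u, hu, ?_⟩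
      · have h3 := (key (fun t => proj t u) hu).2 (by rw [← hux]; exact hg)
        rw [← hfst, ← hux] at h3
        exact h3
      · rw [← hfst, ← hux]
    · rintro ⟨hw, x, hx, rfl⟩
      refine ⟨flg x, ⟨⟨srt_flg x, fun t => by rw [proj_flg]; exact hx t⟩, ?_⟩, hfst x⟩
      exact (key x hx).1 hw
  rw [← h2]
  exact h1

/-- The same residual. -/
def NerEq (L : Language A) (u v : List A) : Prop := ∀ z : List A, u ++ z ∈ L ↔ v ++ z ∈ L

variable {L : Language A}

lemma NerEq.append {u v : List A} (h : NerEq L u v) (w : List A) :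
    NerEq L (u ++ w) (v ++ w) := by
  intro z
  rw [List.append_assoc, List.append_assoc]
  exact h (w ++ z)

lemma NerEq.trans {u v w : List A} (h : NerEq L u v) (h' : NerEq L v w) : NerEq L u w :=
  fun z => (h z).trans (h' z)

/-- Iterating `c ~ c z`. -/
lemma NerEq.pow {c z : List A} (h : NerEq L c (c ++ z)) :
    ∀ i : ℕ, NerEq L c (c ++ (List.replicate i z).flatten)
  | 0 => fun w => by simp
  | i + 1 => by
      have h1 := (NerEq.pow h i).append z
      have h2 := h.trans h1
      have h3 : c ++ (List.replicate (i + 1) z).flatten =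
          c ++ (List.replicate i z).flatten ++ z := by
        rw [List.replicate_succ', List.flatten_append]
        simp
      rw [h3]
      exact h2

/-- From longer words with the same residual to pumpable prefixes. -/
lemma ner_pad [Finite A] (k : ℕ)
    (H : ∀ u : List A, u.length = k → ∃ v : List A, k < v.length ∧ NerEq L u v)
    (u : List A) (hu : u.length = k) :
    ∃ c z y : List A, 0 < z.length ∧ NerEq L c (c ++ z) ∧ NerEq L u (c ++ y) := by
  classical
  have step : ∀ u : {u : List A // u.length = k}, ∃ p : {u : List A // u.length = k} × List A,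
      0 < p.2.length ∧ NerEq L u.1 (p.1.1 ++ p.2) := by
    rintro ⟨u, hu⟩
    obtain ⟨v, hv1, hv2⟩ := H u hu
    refine ⟨(⟨v.take k, by simp; omega⟩, v.drop k), ?_, ?_⟩
    · simp; omega
    · show NerEq L u (v.take k ++ v.drop k)
      rw [List.take_append_drop]; exact hv2
  choose g hg1 hg2 using step
  have hfin : Finite {u : List A // u.length = k} :=
    (List.finite_length_eq A k).to_subtype
  set F : {u : List A // u.length = k} → {u : List A // u.length = k} := fun u => (g u).1
  have orbit : ∀ (i : ℕ) (w : {u : List A // u.length = k}),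
      ∃ y : List A, i ≤ y.length ∧ NerEq L w.1 ((F^[i] w).1 ++ y) := by
    intro i
    induction i with
    | zero => intro w; exact ⟨[], le_rfl, fun z => by simp⟩
    | succ i ih =>
      intro w
      obtain ⟨y, hy1, hy2⟩ := ih w
      refine ⟨(g (F^[i] w)).2 ++ y, ?_, ?_⟩
      · rw [List.length_append]
        have := hg1 (F^[i] w)
        omega
      · rw [Function.iterate_succ_apply', ← List.append_assoc]
        exact hy2.trans ((hg2 (F^[i] w)).append y)
  obtain ⟨i, j, hij, hne⟩ : ∃ i j : ℕ, F^[i] ⟨u, hu⟩ = F^[j] ⟨u, hu⟩ ∧ i ≠ j := by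
    obtain ⟨i, j, h1, h2⟩ := Finite.exists_ne_map_eq_of_infinite
      (fun i : ℕ => F^[i] (⟨u, hu⟩ : {u : List A // u.length = k}))
    exact ⟨i, j, h2, h1⟩
  wlog hlt : i < j generalizing i j
  · exact this j i hij.symm (Ne.symm hne) (by omega)
  obtain ⟨y, -, hy⟩ := orbit i ⟨u, hu⟩
  obtain ⟨z, hz1, hz2⟩ := orbit (j - i) (F^[i] ⟨u, hu⟩)
  have hz3 : F^[j - i] (F^[i] (⟨u, hu⟩ : {u : List A // u.length = k})) = F^[i] ⟨u, hu⟩ := by
    rw [← Function.iterate_add_apply, Nat.sub_add_cancel hlt.le, ← hij]
  rw [hz3] at hz2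
  exact ⟨(F^[i] ⟨u, hu⟩).1, z, y, by omega, hz2, hy⟩

/-- A language is regular if its residuals by the words of some length are. -/
lemma regular_of_residuals [Finite A] (k : ℕ)
    (H : ∀ u : List A, u.length = k → (L.leftQuotient u).IsRegular) : L.IsRegular := by
  rw [Language.isRegular_iff_finite_range_leftQuotient]
  have h1 : (⋃ u ∈ {u : List A | u.length = k},
      Set.range (L.leftQuotient u).leftQuotient).Finite := by
    apply Set.Finite.biUnion (List.finite_length_eq A k)
    intro u hu
    exact Language.isRegular_iff_finite_range_leftQuotient.1 (H u hu)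
  have h2 : (L.leftQuotient '' {u | u.length < k}).Finite :=
    (List.finite_length_lt A k).image _
  refine (h1.union h2).subset ?_
  rintro _ ⟨u, rfl⟩
  rcases Nat.lt_or_ge u.length k with h | h
  · exact Or.inr ⟨u, h, rfl⟩
  · refine Or.inl ?_
    rw [Set.mem_iUnion₂]
    refine ⟨u.take k, by show (u.take k).length = k; simp; omega, u.drop k, ?_⟩
    ext z
    rw [Language.mem_leftQuotient, Language.mem_leftQuotient, Language.mem_leftQuotient,
      ← List.append_assoc, List.take_append_drop]

/-- Limits of residuals along powers are regular. -/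
theorem regular_of_limits [Finite A] {f : Fml A 0} (hf : AddInvariant f) (k : ℕ)
    (H : ∀ u : List A, u.length = k → ∃ c Z Y : List A, Z ≠ [] ∧ ∀ z : List A, ∀ d > 0,
      ∃ i > 0, d ∣ i ∧ (u ++ z ∈ langOf f ↔
        c ++ (List.replicate i Z).flatten ++ Y ++ z ∈ langOf f)) :
    (langOf f).IsRegular := by
  obtain ⟨C, D, hD, hper⟩ := linear_pumping hf
  apply regular_of_residuals k
  intro u hu
  obtain ⟨c, Z, Y, hZ, h⟩ := H u hu
  let W : Fin 2 → List A := ![Z, []]
  have hW : 0 < size W := by
    unfold size
    rw [Fin.sum_univ_two]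
    show 0 < Z.length + ([] : List A).length
    have := List.length_pos_iff.2 hZ
    omega
  obtain ⟨G, hG, hGx⟩ := mul_padding hf hD hper W hW
  have hpump : ∀ (y : List A) (i : ℕ), pump ![c, y] W i =
      c ++ (List.replicate i Z).flatten ++ y := by
    intro y i
    unfold pump
    have h0 : (List.replicate i ([] : List A)).flatten = [] := by
      induction i with
      | zero => rfl
      | succ i ih => rw [List.replicate_succ, List.flatten_cons, ih]; rfl
    have h1 : List.finRange 2 = [0, 1] := rfl
    rw [h1, List.flatMap_cons, List.flatMap_cons, List.flatMap_nil, List.append_nil]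
    show (c ++ (List.replicate i Z).flatten) ++ (y ++ (List.replicate i ([] : List A)).flatten) =
      _
    rw [h0, List.append_nil]
  have hflg : ∀ y : List A, flg ![c, y] = (c.map fun a => (a, (0 : Fin 2))) ++
      y.map fun a => (a, (1 : Fin 2)) := by
    intro y
    unfold flg
    have h1 : List.finRange 2 = [0, 1] := rfl
    rw [h1, List.flatMap_cons, List.flatMap_cons, List.flatMap_nil, List.append_nil]
    rfl
  have hmem : ∀ z : List A, u ++ z ∈ langOf f ↔ flg ![c, Y ++ z] ∈ G := by
    intro z
    obtain ⟨i, hi, ⟨j, hj⟩, h1⟩ := h z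
      (D * (C * (size ![c, Y ++ z] + size W) + 1)) (by positivity)
    have h2 : c ++ (List.replicate i Z).flatten ++ Y ++ z = pump ![c, Y ++ z] W i := by
      rw [hpump, List.append_assoc _ Y z]
    rw [h1, h2, hj, mul_assoc]
    apply hGx
    have hj0 : 0 < j := by
      rcases Nat.eq_zero_or_pos j with h2 | h2
      · subst h2; omega
      · exact h2
    have h3 : C * (size ![c, Y ++ z] + size W) * 1 ≤
        (C * (size ![c, Y ++ z] + size W) + 1) * (D * j * size W) :=
      Nat.mul_le_mul (by omega) (Nat.mul_pos (Nat.mul_pos hD hj0) hW)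
    have h4 : D * ((C * (size ![c, Y ++ z] + size W) + 1) * j) * size W =
        (C * (size ![c, Y ++ z] + size W) + 1) * (D * j * size W) := by ring
    omega
  have hfin : Finite (Set.range G.leftQuotient) :=
    (Language.isRegular_iff_finite_range_leftQuotient.1 hG).to_subtype
  let I : List A → Set.range G.leftQuotient := fun v => ⟨G.leftQuotient (flg ![c, Y ++ v]),
    _, rfl⟩
  apply isRegular_of_invariant _ I
  have key : ∀ v z : List A, (v ++ z ∈ (langOf f).leftQuotient u) ↔
      (z.map fun a => (a, (1 : Fin 2))) ∈ (I v).1 := by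
    intro v z
    show _ ↔ (z.map fun a => (a, (1 : Fin 2))) ∈ G.leftQuotient (flg ![c, Y ++ v])
    rw [Language.mem_leftQuotient, Language.mem_leftQuotient, hmem, hflg, hflg,
      List.append_assoc, ← List.map_append, List.append_assoc]
  intro v v' hv z
  rw [key, key, hv]

/-- In a regular language every word of some length has the residual of a longer word. -/
theorem ner_of_regular (h : L.IsRegular) :
    ∃ k : ℕ, ∀ u : List A, u.length = k → ∃ v : List A, k < v.length ∧ NerEq L u v := by
  classical
  obtain ⟨σ, hσ, M, rfl⟩ := h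
  have h1 : ∀ s : σ, ∃ b : ℕ, ∀ u : List A, M.evalFrom M.start u = s →
      (∃ v : List A, u.length < v.length ∧ M.evalFrom M.start v = s) ∨ u.length < b := by
    intro g
    by_cases hb : ∃ b : ℕ, ∀ u : List A, M.evalFrom M.start u = g → u.length < b
    · obtain ⟨b, hb⟩ := hb
      exact ⟨b, fun u hu => Or.inr (hb u hu)⟩
    · refine ⟨0, fun u hu => Or.inl ?_⟩
      push Not at hb
      obtain ⟨v, hv1, hv2⟩ := hb (u.length + 1)
      exact ⟨v, hv2, hv1⟩
  choose b hb using h1
  refine ⟨Finset.univ.sup b, fun u hu => ?_⟩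
  rcases hb _ u rfl with ⟨v, hv1, hv2⟩ | h2
  · refine ⟨v, by omega, ?_⟩
    intro z
    have h3 : ∀ w : List A, w ++ z ∈ M.accepts ↔
        M.evalFrom (M.evalFrom M.start w) z ∈ M.accept := by
      intro w
      rw [DFA.mem_accepts, DFA.eval, DFA.evalFrom_of_append]
    rw [h3, h3, hv2]
  · exfalso
    have : b (M.evalFrom M.start u) ≤ Finset.univ.sup b :=
      Finset.le_sup (f := b) (Finset.mem_univ _)
    omega

end

end AddInv
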