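import Pool.Agent.H66.AI.Linear
import Pool.Agent.H66.AI.Insert

/-!
# Padded languages are regular
-/

namespace AddInv

section

variable {A : Type} {b : ℕ}

/-- Blanks along an arithmetic progression do not change the type. -/
lemma exists_blank {Γ : Type} [Finite Γ] (q : ℕ) : ∃ m d : ℕ, 0 < d ∧ ∀ t : ℕ,
    theta q (List.replicate (m + t * d) (none : Option Γ)) =
      theta q (List.replicate m (none : Option Γ)) := by
  obtain ⟨i, j, h1, h2⟩ := Finite.exists_ne_map_eq_of_infinite
    (fun m : ℕ => theta q (List.replicate m (none : Option Γ)))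
  wlog hlt : i < j generalizing i j
  · exact this j i h1.symm h2.symm (by omega)
  refine ⟨i, j - i, by omega, fun t => ?_⟩
  induction t with
  | zero => simp
  | succ t ih =>
    have e1 : List.replicate (i + (t + 1) * (j - i)) (none : Option Γ) =
        List.replicate (i + t * (j - i)) none ++ List.replicate (j - i) none := by
      rw [← List.replicate_add]
      congr 1
      ring
    have e2 : List.replicate i (none : Option Γ) ++ List.replicate (j - i) none =
        List.replicate j none := by
      rw [← List.replicate_add]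
      congr 1
      omega
    rw [e1, theta_append ih rfl, e2]
    exact h2.symm

variable (zs : List (A × Fin b)) (hP : 0 < zs.length)

/-- The flagged words accepted after padding with blanks. -/
def goodL (f : Fml A 0) (m : ℕ) : Language (A × Fin b) :=
  {u | SatM (strOf zs hP keyF letF (2 ^ (wd zs.length u m).length) (color (wd zs.length u m))
    (remd zs.length u)) f Fin.elim0}

lemma mem_goodL_of_inv (f : Fml A 0) (m : ℕ) (u v : List (A × Fin b))
    (h1 : theta (rk f) ((grp zs.length u).map some) = theta (rk f) ((grp zs.length v).map some))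
    (h2 : remd zs.length u = remd zs.length v) :
    u ∈ goodL zs hP f m ↔ v ∈ goodL zs hP f m := by
  show SatM (strOf zs hP keyF letF _ _ (remd zs.length u)) f Fin.elim0 ↔
    SatM (strOf zs hP keyF letF _ _ (remd zs.length v)) f Fin.elim0
  rw [h2]
  have hrem : (remd zs.length v).length < zs.length := by
    rw [remd_length]; exact Nat.mod_lt _ hP
  apply ef_sentence zs hP keyF letF _ _ (by positivity) (by positivity) _ _ _ hrem
  rw [thetaN_color, thetaN_color]
  unfold wd
  exact theta_append h1 rfl

lemma regular_goodL [Finite A] (f : Fml A 0) (m : ℕ) : (goodL zs hP f m).IsRegular := by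
  have hfin : Finite {r : List (A × Fin b) // r.length < zs.length} :=
    (List.finite_length_lt _ _).to_subtype
  have hrem : ∀ u : List (A × Fin b), (remd zs.length u).length < zs.length := fun u => by
    rw [remd_length]; exact Nat.mod_lt _ hP
  let I : List (A × Fin b) → Ty (CodeD (Cell (A × Fin b) zs.length)) (rk f) 0 ×
      {r : List (A × Fin b) // r.length < zs.length} := fun u =>
    (theta (rk f) ((grp zs.length u).map some), ⟨remd zs.length u, hrem u⟩)
  apply isRegular_of_invariant _ I
  intro u v huv z
  have e1 : theta (rk f) ((grp zs.length u).map some) =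
      theta (rk f) ((grp zs.length v).map some) := congrArg Prod.fst huv
  have e2 : remd zs.length u = remd zs.length v :=
    congrArg Subtype.val (congrArg Prod.snd huv)
  apply mem_goodL_of_inv
  · rw [grp_append _ hP u z, grp_append _ hP v z, List.map_append, List.map_append, e2]
    exact theta_append e1 rfl
  · rw [remd_append _ hP u z, remd_append _ hP v z, e2]

end

section

variable {A : Type} {b : ℕ}

/-- Exponential padding. -/
lemma exp_padding [Finite A] {f : Fml A 0} (hf : AddInvariant f) (W : Fin b → List A)
    (hW : 0 < size W) : ∃ G : Language (A × Fin b), G.IsRegular ∧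
      ∀ (x : Fin b → List A) (T : ℕ), ∃ i ≥ T, (pump x W i ∈ langOf f ↔ flg x ∈ G) := by
  have hP : 0 < (flg W).length := by rw [size_flg]; exact hW
  obtain ⟨m, d, hd, hblank⟩ := exists_blank (Γ := Cell (A × Fin b) (flg W).length) (rk f)
  refine ⟨goodL (flg W) hP f m, regular_goodL _ _ _ _, ?_⟩
  intro x T
  set w := wd (flg W).length (flg x) (m + (T + 1) * d) with hw
  have h1 : w.length ≤ blanks (flg W).length (2 ^ w.length) (color w) := many_none w
  have h2 : T + 1 ≤ w.length := by
    rw [hw]
    unfold wd
    rw [List.length_append, List.length_replicate]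
    have : T + 1 ≤ (T + 1) * d := Nat.le_mul_of_pos_right _ hd
    omega
  refine ⟨blanks (flg W).length (2 ^ w.length) (color w), by omega, ?_⟩
  have hrem : (remd (flg W).length (flg x)).length < (flg W).length := by
    rw [remd_length]; exact Nat.mod_lt _ hP
  rw [pump_mem_iff hf x W hP (2 ^ w.length) (by positivity) (color w)
    (remd (flg W).length (flg x)) hrem (fun y _ g hg j => wd_total _ _ _ y g hg j) _
    (by omega) (wd_spell (flg W) (flg x) _) rfl]
  apply ef_sentence (flg W) hP keyF letF _ _ (by positivity) (by positivity) _ _ _ hrem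
  rw [thetaN_color, thetaN_color, hw]
  unfold wd
  exact theta_append rfl (hblank (T + 1))

lemma pump_add (x Z : Fin b → List A) (r q : ℕ) :
    pump x Z (r + q) = pump (fun t => x t ++ (List.replicate r (Z t)).flatten) Z q := by
  unfold pump
  apply List.flatMap_congr
  intro t _
  rw [List.replicate_add, List.flatten_append, List.append_assoc]

/-- Periodicity iterated. -/
lemma pump_iter {f : Fml A 0} {C D : ℕ}
    (hper : ∀ (b : ℕ) (x Z : Fin b → List A) (i : ℕ), C * (size x + size Z) ≤ i * size Z →
      (pump x Z i ∈ langOf f ↔ pump x Z (i + D) ∈ langOf f))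
    (x Z : Fin b → List A) (i : ℕ) (hi : C * (size x + size Z) ≤ i * size Z) : ∀ k : ℕ,
      (pump x Z i ∈ langOf f ↔ pump x Z (i + D * k) ∈ langOf f)
  | 0 => Iff.rfl
  | k + 1 => by
      have h1 := pump_iter hper x Z i hi k
      have h2 := hper b x Z (i + D * k) (le_trans hi (Nat.mul_le_mul_right _ (by omega)))
      rw [h1, h2]
      have : i + D * k + D = i + D * (k + 1) := by ring
      rw [this]

/-- Padding by multiples of the period. -/
lemma mul_padding [Finite A] {f : Fml A 0} (hf : AddInvariant f) {C D : ℕ} (hD : 0 < D)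
    (hper : ∀ (b : ℕ) (x Z : Fin b → List A) (i : ℕ), C * (size x + size Z) ≤ i * size Z →
      (pump x Z i ∈ langOf f ↔ pump x Z (i + D) ∈ langOf f))
    (Z : Fin b → List A) (hZ : 0 < size Z) : ∃ G : Language (A × Fin b), G.IsRegular ∧
      ∀ (x : Fin b → List A) (j : ℕ), C * (size x + size Z) ≤ D * j * size Z →
        (pump x Z (D * j) ∈ langOf f ↔ flg x ∈ G) := by
  obtain ⟨G, hG, h⟩ := exp_padding hf (fun t => (List.replicate D (Z t)).flatten)
    (by rw [size_pow]; positivity)
  refine ⟨G, hG, ?_⟩
  intro x j hj
  obtain ⟨i, hi, hi2⟩ := h x j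
  rw [← hi2]
  have h1 := pump_split x Z 0 D i
  simp only [List.replicate_zero, List.flatten_nil, List.append_nil, zero_add] at h1
  rw [← h1]
  have h2 := pump_iter hper x Z (D * j) hj (i - j)
  have h3 : D * j + D * (i - j) = D * i := by
    rw [← Nat.mul_add]; congr 1; omega
  rw [h3] at h2
  exact h2

/-- **Padded languages are regular.** -/
theorem padded_regular [Finite A] {f : Fml A 0} (hf : AddInvariant f) {C D : ℕ} (hD : 0 < D)
    (hper : ∀ (b : ℕ) (x Z : Fin b → List A) (i : ℕ), C * (size x + size Z) ≤ i * size Z →
      (pump x Z i ∈ langOf f ↔ pump x Z (i + D) ∈ langOf f))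
    (Z : Fin b → List A) (hZ : 0 < size Z) (r : ℕ) (e : (Fin b → List A) → ℕ)
    (he : ∀ x, C * (size x + size Z) ≤ e x * size Z) (her : ∀ x, e x ≡ r [MOD D]) :
    Language.IsRegular ({v | ∃ x : Fin b → List A, v = flg x ∧ pump x Z (e x) ∈ langOf f} :
      Set (List (A × Fin b))) := by
  obtain ⟨G, hG, h⟩ := mul_padding hf hD hper Z hZ
  have h1 := regular_insert G hG fun t => (List.replicate (r % D) (Z t)).flatten
  have key : ∀ x : Fin b → List A, (pump x Z (e x) ∈ langOf f ↔
      (flg fun t => x t ++ (List.replicate (r % D) (Z t)).flatten) ∈ G) := by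
    intro x
    set y : Fin b → List A := fun t => x t ++ (List.replicate (r % D) (Z t)).flatten with hy
    -- a large exponent in the residue class
    set j := C * (size y + size Z) + e x with hj
    have h2 : C * (size y + size Z) ≤ D * j * size Z := by
      have h3 : C * (size y + size Z) ≤ j := by omega
      have h4 : j * 1 ≤ j * (D * size Z) := Nat.mul_le_mul_left _ (Nat.mul_pos hD hZ)
      have h5 : D * j * size Z = j * (D * size Z) := by ring
      omega
    have h3 := h y j h2
    rw [← h3, hy, ← pump_add]
    -- the two exponents differ by a multiple of D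
    obtain ⟨k, hk⟩ : ∃ k, r % D + D * j = e x + D * k := by
      have h4 : e x % D = r % D := her x
      have h5 := Nat.mod_add_div (e x) D
      have h6 : e x / D ≤ j := le_trans (Nat.div_le_self _ _) (by omega)
      refine ⟨j - e x / D, ?_⟩
      rw [Nat.mul_sub]
      have h7 : D * (e x / D) ≤ D * j := Nat.mul_le_mul_left _ h6
      omega
    rw [hk]
    exact pump_iter hper x Z (e x) (he x) k
  have h2 : ({v | ∃ x : Fin b → List A, v = flg x ∧ pump x Z (e x) ∈ langOf f} :
      Set (List (A × Fin b))) = {v | ∃ x : Fin b → List A, v = flg x ∧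
        (flg fun t => x t ++ (List.replicate (r % D) (Z t)).flatten) ∈ G} := by
    ext v
    constructor
    · rintro ⟨x, hx, hm⟩
      exact ⟨x, hx, (key x).1 hm⟩
    · rintro ⟨x, hx, hm⟩
      exact ⟨x, hx, (key x).2 hm⟩
  rw [h2]
  exact h1

end

end AddInv
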