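import Pool.Agent.H66.AI.Model
import Pool.Agent.H66.AI.Main

/-!
# Realising numbered structures by words with a numbering
-/

namespace AddInv

/-- The order of a numbered structure. -/
def NumStr.lt {A : Type} (S : NumStr A) (m m' : ℕ) : Prop :=
  S.key m < S.key m' ∨ (S.key m = S.key m' ∧ m < m')

lemma NumStr.lt_irrefl {A : Type} (S : NumStr A) (m : ℕ) : ¬ S.lt m m := by
  rintro (h | ⟨_, h⟩) <;> exact absurd h (Nat.lt_irrefl _)

lemma NumStr.lt_asymm {A : Type} (S : NumStr A) {m m' : ℕ} (h : S.lt m m') : ¬ S.lt m' m := by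
  unfold NumStr.lt at h ⊢
  omega

/-- A word listing a numbered structure in its order satisfies the same formulas, for the
numbering that gives each position its number. -/
lemma sat_iff_satM {A : Type} (S : NumStr A) (w : List A) (l : List ℕ)
    (hperm : l.Perm (List.range S.n)) (hpw : l.Pairwise S.lt)
    (hw : l.map S.ltr = w.map some) :
    ∃ π : Equiv.Perm (Fin w.length), ∀ {k : ℕ} (f : Fml A k) (x : Fin k → Fin w.length),
      (Sat w π f x ↔ SatM S f (fun i => ((π (x i) : Fin w.length) : ℕ))) := by
  have hlen : l.length = w.length := by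
    have := congrArg List.length hw
    simpa using this
  have hlenn : l.length = S.n := by
    have := hperm.length_eq
    simpa using this
  have hmem : ∀ m ∈ l, m < w.length := by
    intro m hm
    have := hperm.mem_iff.1 hm
    rw [List.mem_range] at this
    omega
  have hnd : l.Nodup := hperm.nodup_iff.2 List.nodup_range
  let g : Fin w.length → Fin w.length := fun p =>
    ⟨l[(p : ℕ)]'(by rw [hlen]; exact p.2), hmem _ (List.getElem_mem _)⟩
  have hg : Function.Injective g := by
    intro p p' h
    have h1 : l[(p : ℕ)]'(by rw [hlen]; exact p.2) = l[(p' : ℕ)]'(by rw [hlen]; exact p'.2) :=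
      congrArg Fin.val h
    exact Fin.ext ((List.Nodup.getElem_inj_iff hnd).1 h1)
  let π : Equiv.Perm (Fin w.length) :=
    Equiv.ofBijective g (Finite.injective_iff_bijective.1 hg)
  have hπ : ∀ p : Fin w.length, ((π p : Fin w.length) : ℕ) =
      l[(p : ℕ)]'(by rw [hlen]; exact p.2) := fun p => rfl
  refine ⟨π, ?_⟩
  have hlt : ∀ p p' : Fin w.length, p < p' ↔ S.lt (π p) (π p') := by
    intro p p'
    have h1 : ∀ p p' : Fin w.length, p < p' → S.lt (π p) (π p') := by
      intro p p' h
      rw [hπ, hπ]
      exact List.pairwise_iff_getElem.1 hpw _ _ _ _ h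
    refine ⟨h1 p p', fun h => ?_⟩
    rcases lt_trichotomy p p' with h2 | h2 | h2
    · exact h2
    · exfalso
      subst h2
      exact S.lt_irrefl _ h
    · exfalso
      exact S.lt_asymm h (h1 p' p h2)
  have hlet : ∀ p : Fin w.length, S.ltr (π p) = some (w.get p) := by
    intro p
    have h1 : (l.map S.ltr)[(p : ℕ)]? = (w.map some)[(p : ℕ)]? := by rw [hw]
    rw [List.getElem?_map, List.getElem?_map, List.getElem?_eq_getElem (by rw [hlen]; exact p.2),
      List.getElem?_eq_getElem p.2] at h1
    simp only [Option.map_some, Option.some.injEq] at h1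
    rw [hπ]
    simpa using h1
  intro k f
  induction f with
  | falsum => intro x; exact Iff.rfl
  | eq i j =>
    intro x
    show x i = x j ↔ ((π (x i) : Fin w.length) : ℕ) = ((π (x j) : Fin w.length) : ℕ)
    rw [← Fin.ext_iff, π.injective.eq_iff]
  | lt i j => intro x; exact hlt _ _
  | letter a i =>
    intro x
    show w.get (x i) = a ↔ S.ltr (π (x i)) = some a
    rw [hlet]
    simp
  | add i j k =>
    intro x
    show ((π (x i) : ℕ) + 1) + ((π (x j) : ℕ) + 1) = (π (x k) : ℕ) + 1 ↔
      (π (x i) : ℕ) + (π (x j) : ℕ) + 1 = (π (x k) : ℕ)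
    omega
  | imp f g hf hg =>
    intro x
    show (Sat w π f x → Sat w π g x) ↔ (SatM _ f _ → SatM _ g _)
    rw [hf, hg]
  | all f hf =>
    intro x
    have hs : ∀ p : Fin w.length, (fun i => ((π ((Fin.snoc x p : Fin (_ + 1) → Fin w.length) i) :
        Fin w.length) : ℕ)) = (Fin.snoc (fun i => ((π (x i) : Fin w.length) : ℕ))
          ((π p : Fin w.length) : ℕ) : Fin (_ + 1) → ℕ) := by
      intro p
      funext i
      refine Fin.lastCases ?_ (fun j => ?_) i
      · simp
      · simp
    show (∀ p : Fin w.length, Sat w π f (Fin.snoc x p)) ↔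
      (∀ p, p < S.n → SatM S f (Fin.snoc _ p))
    constructor
    · intro h p hp
      have hp' : p < w.length := by omega
      have h1 := (hf _).1 (h (π.symm ⟨p, hp'⟩))
      rw [hs] at h1
      rwa [Equiv.apply_symm_apply] at h1
    · intro h p
      rw [hf, hs]
      exact h _ (by have := (π p).2; omega)

/-- Membership in a definable language through a numbered structure. -/
lemma mem_iff_satM {A : Type} {f : Fml A 0} (hf : AddInvariant f) (S : NumStr A) (w : List A)
    (l : List ℕ) (hperm : l.Perm (List.range S.n)) (hpw : l.Pairwise S.lt)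
    (hw : l.map S.ltr = w.map some) :
    w ∈ langOf f ↔ w ≠ [] ∧ SatM S f Fin.elim0 := by
  obtain ⟨π, hπ⟩ := sat_iff_satM S w l hperm hpw hw
  have h1 := hπ f Fin.elim0
  have e1 : (fun i : Fin 0 => ((π (Fin.elim0 i) : Fin w.length) : ℕ)) = Fin.elim0 := by
    funext i; exact i.elim0
  rw [e1] at h1
  constructor
  · rintro ⟨h2, π', h3⟩
    exact ⟨h2, h1.1 ((hf w h2 π' π).1 h3)⟩
  · rintro ⟨h2, h3⟩
    exact ⟨h2, π, h1.2 h3⟩

/-- The numbers listed key by key. -/
def byKey (n K : ℕ) (key : ℕ → ℕ) : List ℕ :=
  (List.range K).flatMap fun κ => (List.range n).filter fun m => key m = κ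

lemma byKey_nodup (n K : ℕ) (key : ℕ → ℕ) : (byKey n K key).Nodup := by
  unfold byKey
  rw [List.nodup_flatMap]
  refine ⟨fun κ _ => List.nodup_range.filter _, ?_⟩
  have h : (List.range K).Pairwise (fun a b => a ≠ b) := List.nodup_range
  refine h.imp ?_
  intro a b hab m hm hm'
  simp only [List.mem_filter, decide_eq_true_eq] at hm hm'
  exact hab (hm.2.symm.trans hm'.2)

lemma byKey_perm (n K : ℕ) (key : ℕ → ℕ) (h : ∀ m < n, key m < K) :
    (byKey n K key).Perm (List.range n) := by
  rw [List.perm_ext_iff_of_nodup (byKey_nodup n K key) List.nodup_range]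
  intro m
  unfold byKey
  simp only [List.mem_flatMap, List.mem_range, List.mem_filter, decide_eq_true_eq]
  constructor
  · rintro ⟨κ, _, h1, _⟩; exact h1
  · intro h1
    exact ⟨key m, h m h1, h1, rfl⟩

lemma byKey_pairwise (n K : ℕ) (key : ℕ → ℕ) :
    (byKey n K key).Pairwise (fun m m' => key m < key m' ∨ (key m = key m' ∧ m < m')) := by
  unfold byKey
  rw [List.pairwise_flatMap]
  constructor
  · intro κ _
    have h : (List.range n).Pairwise (· < ·) := List.pairwise_lt_range
    have h2 := h.filter (fun m => decide (key m = κ))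
    rw [List.pairwise_iff_forall_sublist] at h2 ⊢
    intro a b hab
    have ha : a ∈ (List.range n).filter fun m => key m = κ := hab.subset (by simp)
    have hb : b ∈ (List.range n).filter fun m => key m = κ := hab.subset (by simp)
    simp only [List.mem_filter, decide_eq_true_eq] at ha hb
    exact Or.inr ⟨ha.2.trans hb.2.symm, h2 hab⟩
  · have h : (List.range K).Pairwise (· < ·) := List.pairwise_lt_range
    refine h.imp ?_
    intro a b hab m hm m' hm'
    simp only [List.mem_filter, decide_eq_true_eq] at hm hm'
    left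
    rw [hm.2, hm'.2]
    exact hab

lemma filter_map_eq {α β : Type} (l : List α) (p : α → Prop) [DecidablePred p]
    (g : α → Option β) (h : ∀ a ∈ l, (g a).isSome) :
    (l.filter fun a => p a).map g =
      (l.filterMap fun a => if p a then g a else none).map some := by
  induction l with
  | nil => rfl
  | cons a l ih =>
    have ih' := ih (fun b hb => h b (List.mem_cons_of_mem _ hb))
    by_cases hp : p a
    · rw [List.filter_cons_of_pos (by simpa using hp), List.map_cons, ih']
      obtain ⟨b, hb⟩ := Option.isSome_iff_exists.1 (h a (List.mem_cons_self))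
      rw [List.filterMap_cons_some (b := b) (by rw [if_pos hp]; exact hb), List.map_cons, hb]
    · rw [List.filter_cons_of_neg (by simpa using hp), ih',
        List.filterMap_cons_none (by rw [if_neg hp])]

lemma byKey_map {β : Type} (n K : ℕ) (key : ℕ → ℕ) (g : ℕ → Option β)
    (h : ∀ m < n, (g m).isSome) :
    (byKey n K key).map g = ((List.range K).flatMap fun κ => (List.range n).filterMap
      fun m => if key m = κ then g m else none).map some := by
  unfold byKey
  rw [List.map_flatMap, List.map_flatMap]
  congr 1
  funext κ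
  exact filter_map_eq (List.range n) (fun m => key m = κ) g
    (fun m hm => h m (List.mem_range.1 hm))

end AddInv
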