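import Pool.Agent.H66.AI.Multi

/-!
# Agreement with a regular language on words that are products of few powers
-/

namespace AddInv

section

variable {A : Type}

/-- Prefixes of powers. -/
lemma cut_power (Z : List A) : ∀ (v : ℕ) (y y' : List A),
    (List.replicate v Z).flatten = y ++ y' → ∃ (v' v'' : ℕ) (z' z'' : List A),
      z'.length ≤ Z.length ∧ z''.length ≤ Z.length ∧
      y = (List.replicate v' Z).flatten ++ z' ∧ y' = z'' ++ (List.replicate v'' Z).flatten
  | 0, y, y', h => by
      have h1 : y ++ y' = [] := h.symm
      rw [List.append_eq_nil_iff] at h1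
      exact ⟨0, 0, [], [], by simp, by simp, by simp [h1.1], by simp [h1.2]⟩
  | v + 1, y, y', h => by
      rw [List.replicate_succ, List.flatten_cons] at h
      rcases List.append_eq_append_iff.1 h with ⟨a, h1, h2⟩ | ⟨a, h1, h2⟩
      · obtain ⟨v', v'', z', z'', c1, c2, c3, c4⟩ := cut_power Z v a y' h2
        refine ⟨v' + 1, v'', z', z'', c1, c2, ?_, c4⟩
        rw [h1, c3, List.replicate_succ, List.flatten_cons, List.append_assoc]
      · refine ⟨0, v, y, a, ?_, ?_, by simp, h2⟩
        · rw [h1, List.length_append]; omega
        · rw [h1, List.length_append]; omega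

/-- A product of powers can be cut anywhere. -/
lemma cut_expand (m : ℕ) : ∀ (l : List (List A × ℕ)) (y y' : List A),
    (∀ p ∈ l, p.1.length ≤ m) → expand l = y ++ y' → ∃ l₁ l₂ : List (List A × ℕ),
      expand l₁ = y ∧ expand l₂ = y' ∧ (∀ p ∈ l₁, p.1.length ≤ m) ∧
      (∀ p ∈ l₂, p.1.length ≤ m) ∧ l₁.length + l₂.length ≤ l.length + 3
  | [], y, y', _, h => by
      have h1 : y ++ y' = [] := h.symm
      rw [List.append_eq_nil_iff] at h1
      exact ⟨[], [], by rw [h1.1]; rfl, by rw [h1.2]; rfl, by simp, by simp, by simp⟩
  | p :: l, y, y', hm, h => by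
      rw [expand_cons] at h
      rcases List.append_eq_append_iff.1 h with ⟨a, h1, h2⟩ | ⟨a, h1, h2⟩
      · obtain ⟨l₁, l₂, c1, c2, c3, c4, c5⟩ := cut_expand m l a y'
          (fun q hq => hm q (List.mem_cons_of_mem _ hq)) h2
        refine ⟨p :: l₁, l₂, ?_, c2, ?_, c4, ?_⟩
        · rw [expand_cons, c1, h1]
        · intro q hq
          rcases List.mem_cons.1 hq with h3 | h3
          · rw [h3]; exact hm p List.mem_cons_self
          · exact c3 q h3
        · rw [List.length_cons, List.length_cons]; omega
      · obtain ⟨v', v'', z', z'', c1, c2, c3, c4⟩ := cut_power p.1 p.2 y a h1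
        have hp := hm p List.mem_cons_self
        refine ⟨[(p.1, v'), (z', 1)], (z'', 1) :: (p.1, v'') :: l, ?_, ?_, ?_, ?_, ?_⟩
        · rw [expand_cons, expand_cons, c3]
          simp [expand]
        · rw [expand_cons, expand_cons, h2, c4]
          simp
        · intro q hq
          simp only [List.mem_cons, List.not_mem_nil, or_false] at hq
          rcases hq with h3 | h3
          · rw [h3]; exact hp
          · rw [h3]; exact le_trans c1 hp
        · intro q hq
          simp only [List.mem_cons] at hq
          rcases hq with h3 | h3 | h3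
          · rw [h3]; exact le_trans c2 hp
          · rw [h3]; exact hp
          · exact hm q (List.mem_cons_of_mem _ h3)
        · simp only [List.length_cons, List.length_nil]
          omega

lemma cost_le (m : ℕ) : ∀ l : List (List A × ℕ), (∀ p ∈ l, p.1.length ≤ m) →
    cost l ≤ m * l.length
  | [], _ => by simp [cost]
  | p :: l, h => by
      have h1 := cost_le m l fun q hq => h q (List.mem_cons_of_mem _ hq)
      have h2 := h p List.mem_cons_self
      have h3 : cost (p :: l) = p.1.length + cost l := by
        unfold cost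
        rw [List.map_cons, List.sum_cons]
      rw [h3, List.length_cons, Nat.mul_succ]
      omega

/-- A long product of few powers contains a large exponent. -/
lemma exists_large (m c : ℕ) : ∀ l : List (List A × ℕ), (∀ p ∈ l, p.1.length ≤ m) →
    (∀ p ∈ l, p.1 ≠ [] → p.2 < c) → (expand l).length ≤ c * m * l.length
  | [], _, _ => by simp [expand]
  | p :: l, h, h' => by
      have h1 := exists_large m c l (fun q hq => h q (List.mem_cons_of_mem _ hq))
        (fun q hq => h' q (List.mem_cons_of_mem _ hq))
      have h2 := h p List.mem_cons_self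
      have h3 : p.2 * p.1.length ≤ c * m := by
        by_cases h4 : p.1 = []
        · rw [h4]; simp
        · exact Nat.mul_le_mul (h' p List.mem_cons_self h4).le h2
      rw [expand_cons, List.length_append, length_pow, List.length_cons, Nat.mul_succ]
      omega

/-- Finite unions of regular languages. -/
lemma isRegular_union {ι : Type} [Finite ι] (K : ι → Language A) (hK : ∀ i, (K i).IsRegular) :
    Language.IsRegular ({w | ∃ i, w ∈ K i} : Set (List A)) := by
  have hfin : ∀ i, Finite (Set.range (K i).leftQuotient) := fun i =>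
    (Language.isRegular_iff_finite_range_leftQuotient.1 (hK i)).to_subtype
  let I : List A → ∀ i, Set.range (K i).leftQuotient := fun u i =>
    ⟨(K i).leftQuotient u, _, rfl⟩
  apply isRegular_of_invariant ({w | ∃ i, w ∈ K i} : Set (List A)) I
  have key : ∀ u z : List A, (u ++ z ∈ ({w | ∃ i, w ∈ K i} : Set (List A))) ↔
      ∃ i, z ∈ (I u i).1 := by
    intro u z
    show (∃ i, u ++ z ∈ K i) ↔ ∃ i, z ∈ (K i).leftQuotient u
    simp only [Language.mem_leftQuotient]
  intro u v huv z
  show (u ++ z ∈ ({w | ∃ i, w ∈ K i} : Set (List A))) ↔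
    (v ++ z ∈ ({w | ∃ i, w ∈ K i} : Set (List A)))
  rw [key, key, huv]

/-- Three factors, the middle one followed by a power. -/
lemma pump_three (y₀ y₁ y₂ Z : List A) (i : ℕ) :
    pump ![y₀, y₁, y₂] ![[], Z, []] i = y₀ ++ (y₁ ++ (List.replicate i Z).flatten) ++ y₂ := by
  unfold pump
  have h0 : (List.replicate i ([] : List A)).flatten = [] := by
    induction i with
    | zero => rfl
    | succ i ih => rw [List.replicate_succ, List.flatten_cons, ih]; rfl
  have h1 : List.finRange 3 = [0, 1, 2] := rfl
  rw [h1, List.flatMap_cons, List.flatMap_cons, List.flatMap_cons, List.flatMap_nil,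
    List.append_nil]
  show (y₀ ++ (List.replicate i ([] : List A)).flatten) ++
    ((y₁ ++ (List.replicate i Z).flatten) ++ (y₂ ++ (List.replicate i ([] : List A)).flatten)) = _
  rw [h0, List.append_nil, List.append_nil, ← List.append_assoc]

/-- **Agreement with a regular language on products of few powers.** -/
theorem few_powers [Finite A] {f : Fml A 0} (hf : AddInvariant f) (m : ℕ) :
    ∃ (C : ℕ) (K : Language A), K.IsRegular ∧ ∀ l : List (List A × ℕ),
      (∀ p ∈ l, p.1.length ≤ m) → C * l.length ≤ (expand l).length →
        (expand l ∈ langOf f ↔ expand l ∈ K) := by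
  classical
  obtain ⟨C₀, D₀, hD₀, hlin⟩ := linear_pumping hf
  obtain ⟨C', D, hD, hlist'⟩ := list_pumping hf
  obtain ⟨C, hC⟩ : ∃ C, C = C' + 1 := ⟨_, rfl⟩
  have hlist : ∀ (l₁ l₂ : List (List A × ℕ)) (Z : List A) (v : ℕ),
      C * (cost l₁ + Z.length + cost l₂) ≤
        (expand l₁).length + v * Z.length + (expand l₂).length → C ≤ v →
      (expand l₁ ++ (List.replicate v Z).flatten ++ expand l₂ ∈ langOf f ↔
        expand l₁ ++ (List.replicate (v + D) Z).flatten ++ expand l₂ ∈ langOf f) := by
    intro l₁ l₂ Z v h1 h2
    apply hlist' l₁ l₂ Z v (le_trans (Nat.mul_le_mul_right _ (by omega)) h1) (by omega)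
  let Zs : Type := {Z : List A // Z.length ≤ m ∧ Z ≠ []}
  have hZs : Finite Zs := by
    have h : ({Z : List A | Z.length ≤ m ∧ Z ≠ []} : Set (List A)).Finite :=
      (List.finite_length_le A m).subset fun Z hZ => hZ.1
    exact h.to_subtype
  have hsize : ∀ Z : Zs, 0 < size (![[], Z.1, []] : Fin 3 → List A) := by
    intro Z
    unfold size
    rw [Fin.sum_univ_three]
    show 0 < ([] : List A).length + Z.1.length + ([] : List A).length
    have := List.length_pos_iff.2 Z.2.2
    omega
  -- the limit languages, with the exponents multiples of `D₀`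
  have hG : ∀ Z : Zs, ∃ G : Language (A × Fin 3), G.IsRegular ∧
      ∀ (x : Fin 3 → List A) (j : ℕ), C₀ * (size x + size ![[], Z.1, []]) ≤
        D₀ * j * size ![[], Z.1, []] →
        (pump x ![[], Z.1, []] (D₀ * j) ∈ langOf f ↔ flg x ∈ G) := fun Z =>
    mul_padding hf hD₀ hlin ![[], Z.1, []] (hsize Z)
  choose G hGreg hGlim using hG
  let P : Zs → List A := fun Z => (List.replicate C Z.1).flatten
  let R : Zs → Fin 3 → Language A := fun Z =>
    ![(Set.univ : Set (List A)), ({P Z} : Set (List A)), (Set.univ : Set (List A))]
  have huniv : Language.IsRegular (Set.univ : Set (List A)) :=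
    isRegular_of_invariant (γ := Unit) _ (fun _ => ()) (fun _ _ _ _ => Iff.rfl)
  have hR : ∀ Z t, (R Z t).IsRegular := by
    intro Z t
    fin_cases t
    · exact huniv
    · exact isRegular_singleton (P Z)
    · exact huniv
  let K : Zs → Language A := fun Z => img (fun z : A × Fin 3 => some z.1) (FR (R Z) ⊓ G Z)
  have hK : ∀ Z, (K Z).IsRegular := fun Z =>
    isRegular_image _ _ ((regular_FR (R Z) (hR Z)).inf (hGreg Z))
  have hmemK : ∀ (Z : Zs) (w : List A), w ∈ K Z ↔ ∃ y₀ y₂ : List A,
      w = y₀ ++ P Z ++ y₂ ∧ flg ![y₀, P Z, y₂] ∈ G Z := by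
    intro Z w
    have hfst : ∀ x : Fin 3 → List A, (flg x).filterMap (fun z : A × Fin 3 => some z.1) =
        x 0 ++ x 1 ++ x 2 := by
      intro x
      unfold flg
      have h1 : List.finRange 3 = [0, 1, 2] := rfl
      rw [h1, List.flatMap_cons, List.flatMap_cons, List.flatMap_cons, List.flatMap_nil,
        List.append_nil, List.filterMap_append, List.filterMap_append, List.filterMap_map,
        List.filterMap_map, List.filterMap_map, List.append_assoc]
      simp [Function.comp_def]
    constructor
    · rintro ⟨u, ⟨⟨hs, hu⟩, hg⟩, rfl⟩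
      have hux : u = flg fun t => proj t u := eq_flg_of_srt u hs
      have h1 : proj 1 u = P Z := hu 1
      have hvec : (fun t => proj t u) = ![proj 0 u, P Z, proj 2 u] := by
        funext t
        fin_cases t
        · rfl
        · exact h1
        · rfl
      refine ⟨proj 0 u, proj 2 u, ?_, ?_⟩
      · conv_lhs => rw [hux, hfst]
        rw [h1]
      · rw [← hvec, ← hux]; exact hg
    · rintro ⟨y₀, y₂, rfl, hg⟩
      refine ⟨flg ![y₀, P Z, y₂], ⟨⟨srt_flg _, ?_⟩, hg⟩, ?_⟩
      · intro t
        rw [proj_flg]
        fin_cases t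
        · exact Set.mem_univ _
        · exact Set.mem_singleton _
        · exact Set.mem_univ _
      · rw [hfst]; rfl
  -- membership in the limit language, through pumping
  have hlim : ∀ (Z : Zs) (l₁ l₂ : List (List A × ℕ)) (v : ℕ) (_ : C ≤ v)
      (_ : C * (cost l₁ + Z.1.length + cost l₂) ≤
        (expand l₁).length + v * Z.1.length + (expand l₂).length) (y₀ : List A)
      (_ : expand l₁ ++ (List.replicate v Z.1).flatten = y₀ ++ P Z),
      (expand l₁ ++ (List.replicate v Z.1).flatten ++ expand l₂ ∈ langOf f ↔
        flg ![y₀, P Z, expand l₂] ∈ G Z) := by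
    intro Z l₁ l₂ v hv hc y₀ hy
    have hiter : ∀ k : ℕ, (expand l₁ ++ (List.replicate v Z.1).flatten ++ expand l₂ ∈ langOf f ↔
        expand l₁ ++ (List.replicate (v + D * k) Z.1).flatten ++ expand l₂ ∈ langOf f) := by
      intro k
      induction k with
      | zero => exact Iff.rfl
      | succ k ih =>
        rw [ih]
        have h1 := hlist l₁ l₂ Z.1 (v + D * k) (le_trans hc (by
          have : v * Z.1.length ≤ (v + D * k) * Z.1.length := Nat.mul_le_mul_right _ (by omega)
          omega)) (by omega)
        have h2 : v + D * k + D = v + D * (k + 1) := by ring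
        rw [h2] at h1
        exact h1
    set x : Fin 3 → List A := ![y₀, P Z, expand l₂] with hx
    set j := C₀ * (size x + size (![[], Z.1, []] : Fin 3 → List A)) with hj
    have h1 := hGlim Z x (D * j) (by
      have h2 : j * 1 ≤ j * (D₀ * D * size (![[], Z.1, []] : Fin 3 → List A)) :=
        Nat.mul_le_mul_left _ (Nat.mul_pos (Nat.mul_pos hD₀ hD) (hsize Z))
      have h3 : D₀ * (D * j) * size (![[], Z.1, []] : Fin 3 → List A) =
        j * (D₀ * D * size (![[], Z.1, []] : Fin 3 → List A)) := by ring
      omega)
    rw [← h1, hx, pump_three, hiter (D₀ * j)]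
    have h4 : expand l₁ ++ (List.replicate (v + D * (D₀ * j)) Z.1).flatten =
        y₀ ++ (P Z ++ (List.replicate (D₀ * (D * j)) Z.1).flatten) := by
      rw [List.replicate_add, List.flatten_append, ← List.append_assoc, hy, List.append_assoc]
      have : D * (D₀ * j) = D₀ * (D * j) := by ring
      rw [this]
    rw [h4]
  refine ⟨8 * (C + 1) * (m + 1), {w | ∃ Z, w ∈ K Z}, isRegular_union K hK, ?_⟩
  intro l hm hl
  rcases Nat.eq_zero_or_pos l.length with h0 | h0
  · -- the empty word
    have hl0 : l = [] := List.eq_nil_of_length_eq_zero h0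
    subst hl0
    constructor
    · rintro ⟨h1, -⟩
      exact absurd rfl h1
    · rintro ⟨Z, hZ⟩
      obtain ⟨y₀, y₂, h1, -⟩ := (hmemK Z _).1 hZ
      exfalso
      have h2 := congrArg List.length h1
      rw [List.length_append, List.length_append] at h2
      have h3 : (P Z).length = C * Z.1.length := length_pow _ _
      have h4 := List.length_pos_iff.2 Z.2.2
      have h5 : 1 * 1 ≤ C * Z.1.length := Nat.mul_le_mul (by omega) h4
      have h6 : (expand ([] : List (List A × ℕ))).length = 0 := rfl
      omega
  · have hbound : C * (m * (l.length + 7)) ≤ (expand l).length := by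
      refine le_trans ?_ hl
      have h1 : l.length + 7 ≤ 8 * l.length := by omega
      calc C * (m * (l.length + 7)) ≤ C * (m * (8 * l.length)) :=
            Nat.mul_le_mul_left _ (Nat.mul_le_mul_left _ h1)
        _ = 8 * C * m * l.length := by ring
        _ ≤ 8 * (C + 1) * (m + 1) * l.length :=
            Nat.mul_le_mul_right _ (Nat.mul_le_mul (Nat.mul_le_mul_left _ (by omega)) (by omega))
    constructor
    · intro hw
      -- a large exponent
      obtain ⟨p, hpl, hpne, hpC⟩ : ∃ p ∈ l, p.1 ≠ [] ∧ C ≤ p.2 := by
        by_contra hcon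
        push Not at hcon
        have h1 := exists_large m C l hm (fun p hp hne => hcon p hp hne)
        have h2 : C * m * l.length < 8 * (C + 1) * (m + 1) * l.length := by
          apply Nat.mul_lt_mul_of_pos_right _ h0
          nlinarith
        omega
      obtain ⟨l₁, l₂, hl12⟩ := List.append_of_mem hpl
      have hpm := hm p hpl
      let Z : Zs := ⟨p.1, hpm, hpne⟩
      have hexp : expand l = expand l₁ ++ (List.replicate p.2 Z.1).flatten ++ expand l₂ := by
        rw [hl12]
        exact expand_mid l₁ l₂ p.1 p.2
      have hcost : cost l₁ + Z.1.length + cost l₂ = cost l := by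
        rw [hl12]
        unfold cost
        rw [List.map_append, List.map_cons, List.sum_append, List.sum_cons]
        exact Nat.add_assoc _ _ _
      have hsplit : expand l₁ ++ (List.replicate p.2 Z.1).flatten =
          (expand l₁ ++ (List.replicate (p.2 - C) Z.1).flatten) ++ P Z := by
        have h1 : p.2 = (p.2 - C) + C := by omega
        conv_lhs => rw [h1]
        rw [List.replicate_add, List.flatten_append, ← List.append_assoc]
      have hc : C * (cost l₁ + Z.1.length + cost l₂) ≤
          (expand l₁).length + p.2 * Z.1.length + (expand l₂).length := by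
        rw [hcost]
        have h1 : (expand l).length =
            (expand l₁).length + p.2 * Z.1.length + (expand l₂).length := by
          rw [hexp, List.length_append, List.length_append, length_pow]
        rw [← h1]
        refine le_trans (Nat.mul_le_mul_left _ (cost_le m l hm)) (le_trans ?_ hbound)
        exact Nat.mul_le_mul_left _ (Nat.mul_le_mul_left _ (by omega))
      have h1 := (hlim Z l₁ l₂ p.2 hpC hc _ hsplit).1 (by rw [← hexp]; exact hw)
      refine ⟨Z, (hmemK Z _).2 ⟨_, _, ?_, h1⟩⟩
      rw [hexp, hsplit]
    · rintro ⟨Z, hZ⟩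
      obtain ⟨y₀, y₂, h1, h2⟩ := (hmemK Z _).1 hZ
      rw [List.append_assoc] at h1
      obtain ⟨l₁, l', c1, c2, c3, c4, c5⟩ := cut_expand m l _ _ hm h1
      obtain ⟨l'', l₂, d1, d2, d3, d4, d5⟩ := cut_expand m l' _ _ c4 c2
      have hcost : cost l₁ + Z.1.length + cost l₂ ≤ m * (l.length + 7) := by
        have e1 := cost_le m l₁ c3
        have e2 := cost_le m l₂ d4
        have e3 : Z.1.length ≤ m := Z.2.1
        have e4 : m * l₁.length + m + m * l₂.length = m * (l₁.length + 1 + l₂.length) := by ring
        have e5 : m * (l₁.length + 1 + l₂.length) ≤ m * (l.length + 7) :=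
          Nat.mul_le_mul_left _ (by omega)
        omega
      have hw : expand l = expand l₁ ++ (List.replicate C Z.1).flatten ++ expand l₂ := by
        rw [h1, c1, d2, List.append_assoc]
      have hc : C * (cost l₁ + Z.1.length + cost l₂) ≤
          (expand l₁).length + C * Z.1.length + (expand l₂).length := by
        have h3 : (expand l).length =
            (expand l₁).length + C * Z.1.length + (expand l₂).length := by
          rw [hw, List.length_append, List.length_append, length_pow]
        rw [← h3]
        exact le_trans (Nat.mul_le_mul_left _ hcost) hbound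
      have h3 := hlim Z l₁ l₂ C le_rfl hc y₀ (by rw [c1])
      rw [hw, h3, d2]
      exact h2

end

end AddInv
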