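import Pool.Agent.H66.AI.Defs

/-!
# Rank-q types of finite tuples, with values in a finite type
-/

namespace AddInv

/-- Types of rank `q` of `k`-tuples, built from atomic codes. -/
def Ty (C : ℕ → Type) : ℕ → ℕ → Type
  | 0, k => C k
  | q + 1, k => Ty C q k × Set (Ty C q (k + 1))

instance finiteTy (C : ℕ → Type) [hC : ∀ k, Finite (C k)] : ∀ q k, Finite (Ty C q k)
  | 0, k => hC k
  | q + 1, k => by
      have := finiteTy C q k
      have := finiteTy C q (k + 1)
      unfold Ty
      infer_instance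

/-- The rank `q` type of a tuple. -/
def tp {C : ℕ → Type} {D : Type} (code : ∀ k, (Fin k → D) → C k) :
    ∀ q k, (Fin k → D) → Ty C q k
  | 0, k, x => code k x
  | q + 1, k, x => (tp code q k x, Set.range fun y => tp code q (k + 1) (Fin.snoc x y))

variable {C : ℕ → Type} {D D' : Type} {code : ∀ k, (Fin k → D) → C k}
  {code' : ∀ k, (Fin k → D') → C k}

lemma code_eq_of_tp : ∀ {q k : ℕ} {x : Fin k → D} {x' : Fin k → D'},
    tp code q k x = tp code' q k x' → code k x = code' k x'
  | 0, _, _, _, h => h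
  | _ + 1, _, _, _, h => code_eq_of_tp (congrArg Prod.fst h)

lemma tp_forth {q k : ℕ} {x : Fin k → D} {x' : Fin k → D'}
    (h : tp code (q + 1) k x = tp code' (q + 1) k x') (y : D) :
    ∃ y' : D', tp code q (k + 1) (Fin.snoc x y) = tp code' q (k + 1) (Fin.snoc x' y') := by
  have h2 : (Set.range fun y => tp code q (k + 1) (Fin.snoc x y)) =
      Set.range fun y' => tp code' q (k + 1) (Fin.snoc x' y') := congrArg Prod.snd h
  have h3 : tp code q (k + 1) (Fin.snoc x y) ∈
      Set.range fun y' => tp code' q (k + 1) (Fin.snoc x' y') := by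
    rw [← h2]; exact ⟨y, rfl⟩
  obtain ⟨y', hy'⟩ := h3
  exact ⟨y', hy'.symm⟩

lemma tp_mono {k : ℕ} {x : Fin k → D} {x' : Fin k → D'} : ∀ {q r : ℕ}, r ≤ q →
    tp code q k x = tp code' q k x' → tp code r k x = tp code' r k x'
  | 0, r, hr, h => by
      obtain rfl : r = 0 := by omega
      exact h
  | q + 1, r, hr, h => by
      rcases Nat.lt_or_ge r (q + 1) with h1 | h1
      · exact tp_mono (Nat.lt_succ_iff.1 h1) (congrArg Prod.fst h)
      · obtain rfl : r = q + 1 := by omega
        exact h

/-- Quantifier rank. -/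
def rk {A : Type} : {n : ℕ} → Fml A n → ℕ
  | _, .falsum => 0
  | _, .eq _ _ => 0
  | _, .lt _ _ => 0
  | _, .letter _ _ => 0
  | _, .add _ _ _ => 0
  | _, .imp f g => max (rk f) (rk g)
  | _, .all f => rk f + 1

end AddInv
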