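import Pool.Agent.H66.AI.Product

/-!
# Membership of a product of equal-length blocks depends only on the block type
-/

namespace AddInv

lemma satN_congr {A : Type} {N : ℕ} {a a' : ℕ → Option A} (h : ∀ p, p < N → a p = a' p) :
    ∀ {n : ℕ} (f : Fml A n) (x : Fin n → ℕ) (_ : ∀ i, x i < N),
      (SatN N a f x ↔ SatN N a' f x)
  | _, .falsum, _, _ => Iff.rfl
  | _, .eq _ _, _, _ => Iff.rfl
  | _, .lt _ _, _, _ => Iff.rfl
  | _, .letter b i, x, hx => by
      show a (x i) = some b ↔ a' (x i) = some b
      rw [h _ (hx i)]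
  | _, .add _ _ _, _, _ => Iff.rfl
  | _, .imp f g, x, hx => by
      show (SatN _ _ f _ → SatN _ _ g _) ↔ (SatN _ _ f _ → SatN _ _ g _)
      rw [satN_congr h f x hx, satN_congr h g x hx]
  | _, .all f, x, hx => by
      show (∀ p, p < N → SatN _ _ f _) ↔ (∀ p, p < N → SatN _ _ f _)
      refine forall_congr' fun p => forall_congr' fun hp => ?_
      apply satN_congr h f
      intro i
      refine Fin.lastCases ?_ (fun j => ?_) i
      · simpa using hp
      · simpa using hx j

/-- The block family given by lists. -/
def blkOf {T A : Type} (m : ℕ) (v : T → List A) (hv : ∀ t, (v t).length = m) (r : List A) :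
    Blk T A where
  m := m
  v := fun t j => (v t)[(j : ℕ)]'(by rw [hv t]; exact j.2)
  r := fun j => r[j]?

lemma blkOf_m {T A : Type} (m : ℕ) (v : T → List A) (hv : ∀ t, (v t).length = m) (r : List A) :
    (blkOf m v hv r).m = m := rfl

/-- The word of blocks. -/
def wordOf {T A : Type} (v : T → List A) (s : List T) (r : List A) : List A :=
  (s.map v).flatten ++ r

lemma wordOf_cons {T A : Type} (v : T → List A) (t : T) (s : List T) (r : List A) :
    wordOf v (t :: s) r = v t ++ wordOf v s r := by
  simp [wordOf]

lemma wordOf_length {T A : Type} {m : ℕ} (v : T → List A) (hv : ∀ t, (v t).length = m)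
    (s : List T) (r : List A) : (wordOf v s r).length = s.length * m + r.length := by
  induction s with
  | nil => simp [wordOf]
  | cons t s ih => rw [wordOf_cons, List.length_append, ih, hv t, List.length_cons]; ring

lemma letterAt_blkOf {T A : Type} {m : ℕ} (v : T → List A) (hv : ∀ t, (v t).length = m)
    (r : List A) (hm : 0 < m) (s : List T) (p : ℕ) :
    (blkOf m v hv r).letterAt s p =
      (s[p / m]?).elim (r[p % m]?) (fun t => (v t)[p % m]?) := by
  have hp : p = p / m * m + p % m := by
    rw [mul_comm]; exact (Nat.div_add_mod p m).symm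
  have h1 := letterAt_eq (blkOf m v hv r) s (p / m) ⟨p % m, Nat.mod_lt _ hm⟩
  have h2 : (p / m) * (blkOf m v hv r).m +
      ((⟨p % m, Nat.mod_lt _ hm⟩ : Fin (blkOf m v hv r).m) : ℕ) = p := hp.symm
  rw [h2] at h1
  rw [h1]
  by_cases h : p / m < s.length
  · rw [dif_pos h, List.getElem?_eq_getElem h]
    show some _ = (v (s[p / m]))[p % m]?
    rw [List.getElem?_eq_getElem (by rw [hv]; exact Nat.mod_lt _ hm)]
    rfl
  · rw [dif_neg h, List.getElem?_eq_none (by omega)]
    rfl

lemma wordOf_getElem {T A : Type} {m : ℕ} (v : T → List A) (hv : ∀ t, (v t).length = m)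
    (r : List A) (hr : r.length ≤ m) (hm : 0 < m) :
    ∀ (s : List T) (p : ℕ), p < s.length * m + r.length →
      (wordOf v s r)[p]? = (blkOf m v hv r).letterAt s p
  | [], p, hp => by
      have hp' : p < r.length := by simpa using hp
      have h1 : p % m = p := Nat.mod_eq_of_lt (by omega)
      rw [letterAt_blkOf v hv r hm, h1]
      simp [wordOf]
  | t :: s, p, hp => by
      rw [wordOf_cons, letterAt_blkOf v hv r hm]
      rcases Nat.lt_or_ge p m with h | h
      · have h1 : p / m = 0 := Nat.div_eq_of_lt h
        have h2 : p % m = p := Nat.mod_eq_of_lt h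
        rw [List.getElem?_append_left (by rw [hv t]; exact h), h1, h2]
        simp
      · obtain ⟨e, rfl⟩ := Nat.exists_eq_add_of_le h
        rw [List.getElem?_append_right (by rw [hv t]; exact h), hv t, Nat.add_sub_cancel_left]
        have he : e < s.length * m + r.length := by
          rw [List.length_cons, Nat.succ_mul] at hp
          omega
        rw [wordOf_getElem v hv r hr hm s e he, letterAt_blkOf v hv r hm]
        have h1 : (m + e) / m = e / m + 1 := by
          rw [Nat.add_div_left _ hm]
        have h2 : (m + e) % m = e % m := by simp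
        rw [h1, h2, List.getElem?_cons_succ]

/-- If two block families have the same type, the words they give for the same block word
agree on a sentence. -/
lemma sat_wordOf {T A : Type} {m m' : ℕ} (v v' : T → List A) (hv : ∀ t, (v t).length = m)
    (hv' : ∀ t, (v' t).length = m') (r r' : List A) (hr : r.length ≤ m) (hr' : r'.length ≤ m')
    (hm : 0 < m) (hm' : 0 < m') (f : Fml A 0)
    (h : tp (blkOf m v hv r).code (rk f) 0 Fin.elim0 =
      tp (blkOf m' v' hv' r').code (rk f) 0 Fin.elim0) (s : List T) :
    Sat (wordOf v s r) (Equiv.refl _) f Fin.elim0 ↔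
      Sat (wordOf v' s r') (Equiv.refl _) f Fin.elim0 := by
  rw [sat_iff, sat_iff]
  have hlen := wordOf_length v hv s r
  have hlen' := wordOf_length v' hv' s r'
  have e1 : (fun i : Fin 0 => ((Fin.elim0 i : Fin (wordOf v s r).length) : ℕ)) =
      fun i : Fin 0 => (Fin.elim0 i : ℕ) * m + ((Fin.elim0 i : Fin m) : ℕ) := by
    funext i; exact i.elim0
  have e2 : (fun i : Fin 0 => ((Fin.elim0 i : Fin (wordOf v' s r').length) : ℕ)) =
      fun i : Fin 0 => (Fin.elim0 i : ℕ) * m' + ((Fin.elim0 i : Fin m') : ℕ) := by
    funext i; exact i.elim0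
  rw [e1, e2, hlen, hlen']
  rw [satN_congr (a' := (blkOf m v hv r).letterAt s)
    (fun p hp => wordOf_getElem v hv r hr hm s p hp) f _ (fun i => i.elim0)]
  rw [satN_congr (a' := (blkOf m' v' hv' r').letterAt s)
    (fun p hp => wordOf_getElem v' hv' r' hr' hm' s p hp) f _ (fun i => i.elim0)]
  exact compose (blkOf m v hv r) (blkOf m' v' hv' r') s r.length r'.length
    (fun j => List.getElem?_eq_none_iff) (fun j => List.getElem?_eq_none_iff) hr hr' hm hm' f
    (rk f) le_rfl (fun i => i.elim0) Fin.elim0 Fin.elim0 h

end AddInv
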